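import Pool.Agent.Work.MP_7b0bad_ag.SnT.Stmts
import Pool.Agent.Work.MP_7b0bad_ag.Bd.B10

/-!
# MP_7b0bad_ag, project SnT: orbits of the decomposition group
-/

set_option autoImplicit false

open Polynomial Pointwise

namespace MP7b0bad.SnT

/-- the value of an element fixed by the decomposition group -/
theorem SOrb_val {k : Type} [Field k] [IsAlgClosed k] {L : Type} [Field L]
    [Algebra (RatFunc k) L] [FiniteDimensional (RatFunc k) L] [IsGalois (RatFunc k) L]
    (A : ValuationSubring L) (hA : AtInfty (k := k) A) (γ : L)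
    (hfix : ∀ σ : L ≃ₐ[RatFunc k] L, σ • A = A → σ γ = γ) (m : ℕ) (hm : 1 ≤ m) (a : ℤ)
    (h : A.valuation γ ^ m = A.valuation (xx k L) ^ a) :
    ∃ j : ℤ, A.valuation γ = A.valuation (xx k L) ^ j := by
  have hX : 1 < A.valuation (xx k L) := F3_X hA
  have hX0 : A.valuation (xx k L) ≠ 0 := (zero_lt_one.trans hX).ne'
  have hx0 : xx k L ≠ 0 := (Valuation.ne_zero_iff _).1 hX0
  set V := A.valuation (xx k L) with hV
  set b : ℤ := a % m with hb
  have hm0 : (m : ℤ) ≠ 0 := by exact_mod_cast (by omega : m ≠ 0)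
  have hb0 : 0 ≤ b := Int.emod_nonneg _ hm0
  have hbm : b < m := Int.emod_lt_of_pos _ (by omega)
  have hab : a = m * (a / m) + b := (Int.mul_ediv_add_emod a m).symm
  set γ' : L := γ * (xx k L) ^ (-(a / m)) with hγ'
  have hvγ' : A.valuation γ' = A.valuation γ * V ^ (-(a / m)) := by
    rw [hγ', map_mul, map_zpow₀]
  have hpow : A.valuation γ' ^ m = V ^ b := by
    rw [hvγ', mul_pow, h, ← zpow_natCast (V ^ (-(a / m))) m, ← zpow_mul, ← zpow_add₀ hX0]
    congr 1
    linarith [mul_comm (m : ℤ) (a / m)]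
  have hback : ∀ j : ℤ, A.valuation γ' = V ^ j → ∃ j : ℤ, A.valuation γ = V ^ j := by
    intro j hj
    refine ⟨j + a / m, ?_⟩
    rw [hvγ', zpow_neg, mul_inv_eq_iff_eq_mul₀ (zpow_ne_zero _ hX0)] at hj
    rw [hj, zpow_add₀ hX0]
  rcases hb0.lt_or_eq with hbpos | hbz
  · exfalso
    have h1 : 1 < A.valuation γ' := by
      by_contra hcon
      push Not at hcon
      have h2 : A.valuation γ' ^ m ≤ 1 := pow_le_one₀ zero_le hcon
      rw [hpow] at h2
      exact absurd h2 (not_le.2 (one_lt_zpow₀ hX hbpos))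
    have h2 : A.valuation γ' < V := by
      by_contra hcon
      push Not at hcon
      have h3 : V ^ m ≤ A.valuation γ' ^ m := pow_le_pow_left₀ zero_le hcon m
      rw [hpow, ← zpow_natCast] at h3
      exact absurd h3 (not_le.2 (zpow_lt_zpow_right₀ hX hbm))
    have hfix' : ∀ σ : L ≃ₐ[RatFunc k] L, σ • A = A → σ γ' = γ' := by
      intro σ hσ
      have e : σ (xx k L) = xx k L := σ.commutes _
      rw [hγ', map_mul, map_zpow₀, hfix σ hσ, e]
    obtain ⟨r, hr⟩ := prf_QF7 k L A hA γ' hfix'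
    rw [A.mem_nonunits_iff] at hr
    have h4 : A.valuation (algebraMap (RatFunc k) L r) = A.valuation γ' := by
      have h5 : A.valuation (γ' - algebraMap (RatFunc k) L r) < A.valuation γ' := hr.trans h1
      have h6 := A.valuation.map_sub_eq_of_lt_left h5
      have h7 : γ' - (γ' - algebraMap (RatFunc k) L r) = algebraMap (RatFunc k) L r := by ring
      rw [h7] at h6
      exact h6
    have hr0 : r ≠ 0 := by
      rintro rfl
      rw [map_zero, map_zero] at h4
      rw [← h4] at h1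
      exact absurd h1 (not_lt.2 zero_le)
    have h8 := F3_val hA r hr0
    rw [h4] at h8
    have h8' : A.valuation γ' = V ^ r.intDegree := h8
    rw [h8'] at h1 h2
    have h9 : 0 < r.intDegree := (one_lt_zpow_iff_right₀ hX).1 h1
    have h10 : V ^ r.intDegree < V ^ (1 : ℤ) := by rwa [zpow_one]
    have h11 : r.intDegree < 1 := (zpow_lt_zpow_iff_right₀ hX).1 h10
    omega
  · rw [← hbz, zpow_zero] at hpow
    have h1 : A.valuation γ' = 1 := (pow_eq_one_iff_left (by omega)).1 hpow
    exact hback 0 (by rw [h1, zpow_zero])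

theorem SOrb_inj {Γ : Type} [LinearOrderedCommGroupWithZero Γ] {V : Γ} (hV : 1 < V) {a b : ℤ}
    (h : V ^ a = V ^ b) : a = b := (zpow_right_strictMono₀ hV).injective h

theorem SOrb_Rn {k : Type} [Field k] (N D : k[X]) {L : Type} [Field L]
    [Algebra (RatFunc k) L] (A : ValuationSubring L) (c : k) (σ : L ≃ₐ[RatFunc k] L)
    (hσ : σ • A = A) (y : L) (hy : y ∈ Rn k N D A c) : σ y ∈ Rn k N D A c := by
  refine ⟨rp_mem _ σ y hy.1, ?_⟩
  have e : σ (cc k L c) = cc k L c := σ.commutes _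
  have h1 : σ y - cc k L c = σ (y - cc k L c) := by rw [map_sub, e]
  rw [h1, A.mem_nonunits_iff]
  exact F8_dec A σ hσ _ ((A.mem_nonunits_iff).1 hy.2)

theorem prf_SOrb (hSCount : SCount) (hSVal : SVal) : SOrb := by
  intro k _ _ _ ι _ α e N D hDat L _ _ _ _ _ A hA
  have hX : 1 < A.valuation (xx k L) := F3_X hA
  have hX0 : A.valuation (xx k L) ≠ 0 := (zero_lt_one.trans hX).ne'
  obtain ⟨hc1, hc2, -⟩ := hSCount k α e N D hDat L A hA
  obtain ⟨hv1, hv2⟩ := hSVal k α e N D hDat L A hA
  constructor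
  · intro i y hy y' hy'
    classical
    set O : Set L := {z | ∃ σ : L ≃ₐ[RatFunc k] L, σ • A = A ∧ σ y = z} with hO
    have hOs : O ⊆ Rn k N D A (α i) := by
      rintro z ⟨σ, hσ, rfl⟩
      exact SOrb_Rn N D A _ σ hσ y hy
    have hRfin : (Rn k N D A (α i)).Finite :=
      ((FF k N D).rootSet_finite L).subset fun z hz => hz.1
    have hOfin : O.Finite := hRfin.subset hOs
    have hyO : y ∈ O := ⟨1, one_smul _ _, rfl⟩
    have hstab : ∀ σ : L ≃ₐ[RatFunc k] L, σ • A = A → ∀ z ∈ O, σ z ∈ O := by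
      rintro σ hσ z ⟨τ, hτ, rfl⟩
      exact ⟨σ * τ, by rw [mul_smul, hτ, hσ], rfl⟩
    set F : Finset L := hOfin.toFinset with hF
    have hFO : ∀ z, z ∈ F ↔ z ∈ O := fun z => hOfin.mem_toFinset
    set γ : L := ∏ z ∈ F, (z - cc k L (α i)) with hγ
    have hfix : ∀ σ : L ≃ₐ[RatFunc k] L, σ • A = A → σ γ = γ := by
      intro σ hσ
      have ec : σ (cc k L (α i)) = cc k L (α i) := σ.commutes _
      have himg : F.image σ = F := by
        apply Finset.eq_of_subset_of_card_le
        · intro z hz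
          obtain ⟨w, hw, rfl⟩ := Finset.mem_image.1 hz
          exact (hFO _).2 (hstab σ hσ w ((hFO _).1 hw))
        · rw [Finset.card_image_of_injective _ σ.injective]
      calc σ γ = ∏ z ∈ F, (σ z - cc k L (α i)) := by
            rw [hγ, map_prod]
            refine Finset.prod_congr rfl fun z _ => ?_
            rw [map_sub, ec]
        _ = ∏ z ∈ F.image σ, (z - cc k L (α i)) := by
            rw [Finset.prod_image fun z _ w _ h => σ.injective h]
        _ = γ := by rw [himg]
    have hei : 1 ≤ e i := (hDat.odd i).pos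
    have hval : A.valuation γ ^ e i = A.valuation (xx k L) ^ (-(F.card : ℤ)) := by
      rw [hγ, map_prod, ← Finset.prod_pow]
      have h1 : ∀ z ∈ F, A.valuation (z - cc k L (α i)) ^ e i = (A.valuation (xx k L))⁻¹ := by
        intro z hz
        have h2 := (hv2 i z (hOs ((hFO z).1 hz))).2
        exact eq_inv_of_mul_eq_one_left h2
      rw [Finset.prod_congr rfl h1, Finset.prod_const, zpow_neg, zpow_natCast, inv_pow]
    obtain ⟨j, hj⟩ := SOrb_val A hA γ hfix (e i) hei _ hval
    rw [hj, ← zpow_natCast, ← zpow_mul] at hval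
    have hj2 := SOrb_inj hX hval
    have hFpos : 0 < F.card := Finset.card_pos.2 ⟨y, (hFO y).2 hyO⟩
    have hdvd : (e i : ℤ) ∣ (F.card : ℤ) := ⟨-j, by linarith [mul_comm j (e i : ℤ)]⟩
    have hle : e i ≤ F.card := Nat.le_of_dvd hFpos (Int.natCast_dvd_natCast.1 hdvd)
    have hcard : (Rn k N D A (α i)).ncard ≤ O.ncard := by
      rw [hc2 i, Set.ncard_eq_toFinset_card O hOfin]
      exact hle
    have hOR : O = Rn k N D A (α i) := Set.eq_of_subset_of_ncard_le hOs hcard hRfin
    have hy'O : y' ∈ O := by rw [hOR]; exact hy'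
    obtain ⟨σ, h1, h2⟩ := hy'O
    exact ⟨σ, h1, h2⟩
  · by_contra hcon
    push Not at hcon
    have hne : (Ri k N D A).Nonempty := by
      rw [Set.nonempty_iff_ne_empty]
      intro h0
      rw [h0, Set.ncard_empty] at hc1
      omega
    obtain ⟨y, hy⟩ := hne
    have h1 := hv1 y hy
    have h2 : A.valuation y ^ 2 = A.valuation (xx k L) ^ (1 : ℤ) := by rw [h1, zpow_one]
    obtain ⟨j, hj⟩ := SOrb_val A hA y (fun σ hσ => hcon σ hσ y hy) 2 (by norm_num) 1 h2
    rw [hj, ← zpow_natCast, ← zpow_mul] at h2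
    have h3 := SOrb_inj hX h2
    push_cast at h3
    omega

end MP7b0bad.SnT
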