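import Pool.Agent.Work.MP_7b0bad_ag.SnT.Stmts
import Pool.Agent.Work.MP_7b0bad_ag.Bd.B03
import Pool.Agent.Work.MP_7b0bad_ag.Bd.B05

/-!
# MP_7b0bad, project SnT: the residue field is `k`, so inertia is decomposition
-/

set_option autoImplicit false

open Polynomial Pointwise

namespace MP7b0bad.SnT

theorem prf_SIner : SIner := by
  intro k _ _ L _ _ _ A hA
  have hF6 : F6 := prf_F6 prf_F3
  have htop : ValuationSubring.inertiaSubgroup (RatFunc k) A = ⊤ := by
    rw [eq_top_iff]
    intro τ _
    rw [ValuationSubring.inertiaSubgroup, MonoidHom.mem_ker]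
    ext z
    obtain ⟨a, rfl⟩ := IsLocalRing.residue_surjective z
    show τ • IsLocalRing.residue A a = IsLocalRing.residue A a
    rw [← IsLocalRing.ResidueField.residue_smul, ← sub_eq_zero, ← map_sub,
      IsLocalRing.residue_eq_zero_iff, ValuationSubring.valuation_lt_one_iff]
    obtain ⟨c0, hc0⟩ := hF6 k L A hA (a : L) a.2
    rw [ValuationSubring.mem_nonunits_iff] at hc0
    have h1 := F8_dec A (τ : L ≃ₐ[RatFunc k] L) τ.2 _ hc0
    rw [map_sub, AlgEquiv.commutes] at h1
    have h2 := A.valuation.map_sub_lt h1 hc0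
    rw [sub_sub_sub_cancel_right] at h2
    exact h2
  rw [htop, ← MonoidHom.range_eq_map, Subgroup.range_subtype]

end MP7b0bad.SnT
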