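import Pool.Agent.Work.MP_7b0bad_ag.SnT.Stmts
import Pool.Agent.Work.MP_7b0bad_ag.Bd.B05

/-!
# MP_7b0bad_ag, project SnT: the tame character of an element
-/

set_option autoImplicit false

open Polynomial Pointwise

namespace MP7b0bad.SnT

theorem SCharE_lt {K L : Type} [Field K] [Field L] [Algebra K L] (A : ValuationSubring L)
    (σ : L ≃ₐ[K] L) (h : σ • A = A) (x : L) : A.valuation (σ x) < 1 ↔ A.valuation x < 1 := by
  refine ⟨fun hx => ?_, F8_dec A σ h x⟩
  have h1 : σ⁻¹ • A = A := inv_smul_eq_iff.2 h.symm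
  have h2 := F8_dec A σ⁻¹ h1 _ hx
  have h3 : σ⁻¹ (σ x) = x := σ.symm_apply_apply x
  rwa [h3] at h2

theorem SCharE_one {K L : Type} [Field K] [Field L] [Algebra K L] (A : ValuationSubring L)
    (σ : L ≃ₐ[K] L) (h : σ • A = A) (x : L) (hx : A.valuation x = 1) :
    A.valuation (σ x) = 1 := by
  refine le_antisymm ?_ ?_
  · by_contra hcon
    push Not at hcon
    have h1 : A.valuation (σ (x⁻¹)) < 1 := by
      rw [map_inv₀, map_inv₀]
      exact inv_lt_one_of_one_lt₀ hcon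
    rw [SCharE_lt A σ h, map_inv₀, hx, inv_one] at h1
    exact lt_irrefl _ h1
  · by_contra hcon
    push Not at hcon
    rw [SCharE_lt A σ h, hx] at hcon
    exact lt_irrefl _ hcon

theorem SCharE_w {K L : Type} [Field K] [Field L] [Algebra K L] (A : ValuationSubring L)
    (σ : L ≃ₐ[K] L) (h : σ • A = A) (s : L) (hs : s ≠ 0) (m : ℕ) (hm : 1 ≤ m) (r : K)
    (hr : A.valuation s ^ m = A.valuation (algebraMap K L r)) :
    A.valuation (σ s / s) = 1 := by
  have hvs : A.valuation s ≠ 0 := (Valuation.ne_zero_iff _).2 hs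
  have hr1 : A.valuation (algebraMap K L r) ≠ 0 := by
    rw [← hr]
    exact pow_ne_zero _ hvs
  have hr0 : algebraMap K L r ≠ 0 := (Valuation.ne_zero_iff _).1 hr1
  have hu : A.valuation (s ^ m / algebraMap K L r) = 1 := by
    rw [map_div₀, map_pow, hr, div_self hr1]
  have h1 := SCharE_one A σ h _ hu
  rw [map_div₀ σ, map_pow σ, AlgEquiv.commutes] at h1
  have hsm : s ^ m ≠ 0 := pow_ne_zero _ hs
  have h2 : (σ s / s) ^ m = (σ s ^ m / algebraMap K L r) / (s ^ m / algebraMap K L r) := by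
    rw [div_pow]
    field_simp
  have h3 : A.valuation (σ s / s) ^ m = 1 := by
    rw [← map_pow, h2, map_div₀, h1, hu, div_one]
  exact (pow_eq_one_iff_left (by omega)).1 h3

theorem prf_SCharE : SCharE := by
  intro k _ _ L _ _ _ A hA s hs hm
  obtain ⟨m, hm1, r, hr⟩ := hm
  have hw : ∀ σ : A.decompositionSubgroup (RatFunc k),
      A.valuation ((σ : L ≃ₐ[RatFunc k] L) s / s) = 1 := fun σ =>
    SCharE_w A _ σ.2 s hs m hm1 r hr
  have hF6 : F6 := prf_F6 prf_F3
  have hex : ∀ σ : A.decompositionSubgroup (RatFunc k), ∃ c : k,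
      A.valuation ((σ : L ≃ₐ[RatFunc k] L) s / s - cc k L c) < 1 := by
    intro σ
    obtain ⟨c, hc⟩ := hF6 k L A hA _ ((A.valuation_le_one_iff _).1 (hw σ).le)
    exact ⟨c, (A.mem_nonunits_iff).1 hc⟩
  choose t ht using hex
  have hcc : ∀ c : k, c ≠ 0 → A.valuation (cc k L c) = 1 := fun c hc => F3_C hA c hc
  have huniq : ∀ (w : L) (c d : k), A.valuation (w - cc k L c) < 1 →
      A.valuation (w - cc k L d) < 1 → c = d := by
    intro w c d h1 h2
    by_contra hne
    have h3 := hcc (d - c) (sub_ne_zero.2 (Ne.symm hne))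
    have h4 : cc k L (d - c) = (w - cc k L c) - (w - cc k L d) := by
      rw [map_sub]
      ring
    rw [h4] at h3
    have h5 := A.valuation.map_sub_lt h1 h2
    rw [h3] at h5
    exact lt_irrefl _ h5
  have hne : ∀ σ, t σ ≠ 0 := by
    intro σ h0
    have h1 := ht σ
    rw [h0, map_zero, sub_zero, hw σ] at h1
    exact lt_irrefl _ h1
  have hmul : ∀ σ τ : A.decompositionSubgroup (RatFunc k), t (σ * τ) = t σ * t τ := by
    intro σ τ
    refine huniq _ _ _ (ht (σ * τ)) ?_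
    have hσ0 : (σ : L ≃ₐ[RatFunc k] L) s ≠ 0 := by
      rw [Ne, map_eq_zero_iff _ (AlgEquiv.injective _)]
      exact hs
    have e1 : (((σ * τ : A.decompositionSubgroup (RatFunc k)) : L ≃ₐ[RatFunc k] L) s / s) =
        (σ : L ≃ₐ[RatFunc k] L) ((τ : L ≃ₐ[RatFunc k] L) s / s) *
          ((σ : L ≃ₐ[RatFunc k] L) s / s) := by
      rw [Subgroup.coe_mul, AlgEquiv.mul_apply, map_div₀]
      field_simp
    have e2 : (σ : L ≃ₐ[RatFunc k] L) (cc k L (t τ)) = cc k L (t τ) := AlgEquiv.commutes _ _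
    have e3 : (((σ * τ : A.decompositionSubgroup (RatFunc k)) : L ≃ₐ[RatFunc k] L) s / s) -
        cc k L (t σ * t τ) =
        (σ : L ≃ₐ[RatFunc k] L) ((τ : L ≃ₐ[RatFunc k] L) s / s - cc k L (t τ)) *
          ((σ : L ≃ₐ[RatFunc k] L) s / s) +
        cc k L (t τ) * ((σ : L ≃ₐ[RatFunc k] L) s / s - cc k L (t σ)) := by
      rw [e1, map_mul, map_sub (σ : L ≃ₐ[RatFunc k] L), e2]
      ring
    rw [e3]
    refine A.valuation.map_add_lt ?_ ?_
    · rw [map_mul, hw σ, mul_one]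
      exact F8_dec A _ σ.2 _ (ht τ)
    · rw [map_mul, hcc _ (hne τ), one_mul]
      exact ht σ
  refine ⟨MonoidHom.mk' (fun σ => Units.mk0 (t σ) (hne σ)) fun σ τ => ?_, fun σ => ?_⟩
  · apply Units.ext
    exact hmul σ τ
  · rw [A.mem_nonunits_iff]
    exact ht σ

end MP7b0bad.SnT
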