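import Pool.Agent.Work.MP_7b0bad_ag.SnT.Stmts
import Pool.Agent.Work.MP_7b0bad_ag.Bd.B03

/-!
# Assembly
-/

set_option autoImplicit false

open Polynomial Pointwise

namespace MP7b0bad.SnT

section dec

variable {k L : Type} [Field k] [Field L] [Algebra (RatFunc k) L] {A : ValuationSubring L}

theorem Main_dec (σ : L ≃ₐ[RatFunc k] L) (h : σ ∈ A.decompositionSubgroup (RatFunc k)) (y : L) :
    σ y ∈ A ↔ y ∈ A := by
  have h1 : σ • A = A := h
  constructor
  · intro h2
    rw [← h1] at h2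
    obtain ⟨z, hz, hz'⟩ := h2
    have : z = y := σ.injective hz'
    rw [← this]; exact hz
  · intro h2
    rw [← h1]
    exact ⟨y, h2, rfl⟩

theorem Main_non (σ : L ≃ₐ[RatFunc k] L) (h : σ ∈ A.decompositionSubgroup (RatFunc k)) (y : L) :
    σ y ∈ A.nonunits ↔ y ∈ A.nonunits := by
  rw [ValuationSubring.mem_nonunits_iff_or, ValuationSubring.mem_nonunits_iff_or, ← map_inv₀,
    Main_dec σ h, map_eq_zero_iff _ σ.injective]

theorem Main_cc (σ : L ≃ₐ[RatFunc k] L) (c : k) : σ (cc k L c) = cc k L c := σ.commutes _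

theorem Main_near (hA : AtInfty (k := k) A) {c : k} {y : L} (h : y - cc k L c ∈ A.nonunits) :
    y ∈ A := by
  have h1 : y - cc k L c ∈ A := A.nonunits_le h
  have h2 : y - cc k L c + cc k L c ∈ A := A.add_mem _ _ h1 (hA.1 c)
  rwa [sub_add_cancel] at h2

theorem Main_Rn (N D : k[X]) (σ : L ≃ₐ[RatFunc k] L) (h : σ ∈ A.decompositionSubgroup (RatFunc k))
    (c : k) (y : L) (hy : y ∈ Rn k N D A c) : σ y ∈ Rn k N D A c := by
  refine ⟨rp_mem _ σ y hy.1, ?_⟩
  have h1 := (Main_non σ h (y - cc k L c)).2 hy.2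
  rwa [map_sub, Main_cc] at h1

theorem Main_Ri (N D : k[X]) (σ : L ≃ₐ[RatFunc k] L) (h : σ ∈ A.decompositionSubgroup (RatFunc k))
    (y : L) (hy : y ∈ Ri k N D A) : σ y ∈ Ri k N D A :=
  ⟨rp_mem _ σ y hy.1, fun h1 => hy.2 ((Main_dec σ h y).1 h1)⟩

/-- different constants are not close -/
theorem Main_dis (hA : AtInfty (k := k) A) {c d : k} {y : L} (h : y - cc k L c ∈ A.nonunits)
    (h' : y - cc k L d ∈ A.nonunits) : c = d := by
  by_contra hne
  have hne' : c - d ≠ 0 := sub_ne_zero.2 hne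
  have e : cc k L (c - d) = (y - cc k L d) - (y - cc k L c) := by
    rw [map_sub]; ring
  have h1 : A.valuation (cc k L (c - d)) < 1 := by
    rw [e]
    exact lt_of_le_of_lt (Valuation.map_sub _ _ _) (max_lt h' h)
  have h2 : A.valuation (cc k L (c - d)⁻¹) ≤ 1 := (A.valuation_le_one_iff _).2 (hA.1 _)
  have h3 : A.valuation (cc k L (c - d) * cc k L (c - d)⁻¹) = 1 := by
    rw [← map_mul, mul_inv_cancel₀ hne', map_one, map_one]
  rw [map_mul] at h3
  have h4 : A.valuation (cc k L (c - d)) * A.valuation (cc k L (c - d)⁻¹) < 1 :=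
    mul_lt_one_of_lt_of_le h1 h2
  exact absurd h3 (ne_of_lt h4)

end dec

theorem prf_SMain (hEx : SEx) (hIrr : SIrr) (hAtom : SAtom) (hGal : SGal) (hUnr : SUnr)
    (hCount : SCount) (hCyc : SCyc) (hIner : SIner) (hComb : SComb) (hOrbC : SOrbC)
    (hRed : SRed) : SMain := by
  intro k _ _ _ n G₀ G₁ h1 h2 h3 h4 h5
  obtain ⟨a, b, c, hab, hca, hcb, hodd, hG₀⟩ := hRed n G₀ G₁ h1 h2 h3 h4 h5
  obtain ⟨ι, _, S, hOrb, hSodd⟩ := hOrbC n a b c hab hca hcb hodd
  obtain ⟨α, N, D, hD⟩ := hEx k ι (fun i => (S i).ncard) hSodd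
  obtain ⟨hmon, hdeg, hirr, hsep⟩ := hIrr k α _ N D hD
  haveI : FiniteDimensional (RatFunc k) (FF k N D).SplittingField :=
    Polynomial.IsSplittingField.finiteDimensional _ (FF k N D)
  haveI : IsGalois (RatFunc k) (FF k N D).SplittingField :=
    IsGalois.of_separable_splitting_field hsep
  obtain ⟨A, hA⟩ := prf_F4 k (FF k N D).SplittingField
  obtain ⟨hRi, hRn, hcov⟩ := hCount k α _ N D hD (FF k N D).SplittingField A hA
  obtain ⟨τ, c', hclo, hτn, hτi, hci, hcn⟩ := hCyc k α _ N D hD (FF k N D).SplittingField A hA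
  have hτA : τ ∈ A.decompositionSubgroup (RatFunc k) := by
    rw [hclo]; exact Subgroup.subset_closure (by simp)
  have hcA : c' ∈ A.decompositionSubgroup (RatFunc k) := by
    rw [hclo]; exact Subgroup.subset_closure (by simp)
  obtain ⟨y, z, hyz, hRiyz⟩ := Set.ncard_eq_two.1 hRi
  have hy : y ∈ Ri k N D A := by rw [hRiyz]; simp
  have hz : z ∈ Ri k N D A := by rw [hRiyz]; simp
  have hτy : τ y = z := by
    have h6 := Main_Ri N D τ hτA y hy
    rw [hRiyz] at h6
    rcases h6 with h6 | h6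
    · exact absurd h6 (hτi y hy)
    · exact h6
  have hτz : τ z = y := by
    have h6 := Main_Ri N D τ hτA z hz
    rw [hRiyz] at h6
    rcases h6 with h6 | h6
    · exact h6
    · exact absurd h6 (hτi z hz)
  -- the roots are close to infinity or to one of the `α i`
  have hcov' : ∀ w ∈ (FF k N D).rootSet (FF k N D).SplittingField, w = y ∨ w = z ∨
      ∃ i, w ∈ Rn k N D A (α i) := by
    intro w hw
    by_cases h6 : w ∈ A
    · exact Or.inr (Or.inr (hcov w hw h6))
    · have h7 : w ∈ Ri k N D A := ⟨hw, h6⟩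
      rw [hRiyz] at h7
      rcases h7 with h7 | h7
      · exact Or.inl h7
      · exact Or.inr (Or.inl h7)
  have hbij : Function.Bijective (rp (L := (FF k N D).SplittingField) (FF k N D)) := by
    refine hGal (RatFunc k) (FF k N D).SplittingField (FF k N D) hirr ?_ ?_
    · intro w hw M hM
      exact hAtom k α _ N D hD (FF k N D).SplittingField w (mem_rootSet.1 hw).2 M hM
    · refine ⟨τ, ⟨y, hy.1⟩, ⟨z, hz.1⟩, fun h6 => hyz (congrArg Subtype.val h6), Subtype.ext hτy,
        Subtype.ext hτz, ?_⟩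
      intro w hwy hwz
      rcases hcov' w w.2 with h6 | h6 | ⟨i, h6⟩
      · exact absurd (Subtype.ext h6) hwy
      · exact absurd (Subtype.ext h6) hwz
      · exact Subtype.ext (hτn i w h6)
  -- the orbits of `c'`
  have hOrb' : Orb (⟨y, hy.1⟩ : (FF k N D).rootSet (FF k N D).SplittingField) ⟨z, hz.1⟩
      (rp (FF k N D) c') (fun i => {w | (w : (FF k N D).SplittingField) ∈ Rn k N D A (α i)}) := by
    have hpow : ∀ (m : ℕ) (w : (FF k N D).rootSet (FF k N D).SplittingField),
        (((rp (FF k N D) c' ^ m) w : (FF k N D).rootSet (FF k N D).SplittingField) :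
          (FF k N D).SplittingField) = (c' ^ m) w := by
      intro m w
      rw [← map_pow]
      rfl
    refine ⟨fun h6 => hyz (congrArg Subtype.val h6), Subtype.ext (hci y hy), Subtype.ext (hci z hz),
      ?_, ?_, ?_, ?_, ?_, ?_⟩
    · intro w
      rcases hcov' w w.2 with h6 | h6 | h6
      · exact Or.inl (Subtype.ext h6)
      · exact Or.inr (Or.inl (Subtype.ext h6))
      · exact Or.inr (Or.inr h6)
    · intro i h6
      exact hy.2 (Main_near hA h6.2)
    · intro i h6
      exact hz.2 (Main_near hA h6.2)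
    · intro i j w h6 h7
      exact hD.inj (Main_dis hA h6.2 h7.2)
    · intro i
      have h6 : (Rn k N D A (α i)).Nonempty := by
        apply Set.nonempty_of_ncard_ne_zero
        rw [hRn i]
        exact (hSodd i).pos.ne'
      obtain ⟨w, hw⟩ := h6
      exact ⟨⟨w, hw.1⟩, hw⟩
    · intro i w hw w'
      constructor
      · intro hw'
        obtain ⟨m, hm⟩ := hcn i w hw w' hw'
        exact ⟨m, Subtype.ext ((hpow m w).trans hm)⟩
      · rintro ⟨m, rfl⟩
        show _ ∈ Rn k N D A (α i)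
        rw [hpow m w]
        exact Main_Rn N D (c' ^ m) (Subgroup.pow_mem _ hcA m) (α i) w hw
  have hnc : ∀ i, (S i).ncard = {w : (FF k N D).rootSet (FF k N D).SplittingField |
      (w : (FF k N D).SplittingField) ∈ Rn k N D A (α i)}.ncard := by
    intro i
    rw [← hRn i, ← Set.ncard_image_of_injective _ Subtype.val_injective]
    congr 1
    ext w
    constructor
    · intro hw
      exact ⟨⟨w, hw.1⟩, hw, rfl⟩
    · rintro ⟨w', hw', rfl⟩
      exact hw'
  haveI : Finite ((FF k N D).rootSet (FF k N D).SplittingField) := inferInstance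
  obtain ⟨ψ, hψa, hψb, hψc⟩ := hComb (Fin n) _ ι a b c _ _ _ S _ hOrb hOrb' hnc
  let e1 := MulEquiv.ofBijective (rp (L := (FF k N D).SplittingField) (FF k N D)) hbij
  let φ : Equiv.Perm (Fin n) ≃* ((FF k N D).SplittingField ≃ₐ[RatFunc k]
    (FF k N D).SplittingField) := (Equiv.permCongrHom ψ).trans e1.symm
  have hφ : ∀ (g : Equiv.Perm (Fin n)) (σ : (FF k N D).SplittingField ≃ₐ[RatFunc k]
      (FF k N D).SplittingField), (∀ w, ψ (g w) = rp (FF k N D) σ (ψ w)) → φ g = σ := by
    intro g σ hg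
    show e1.symm (Equiv.permCongrHom ψ g) = σ
    rw [MulEquiv.symm_apply_eq]
    show Equiv.permCongr ψ g = rp (FF k N D) σ
    ext w
    rw [Equiv.permCongr_apply, hg, Equiv.apply_symm_apply]
  have hφt : φ (Equiv.swap a b) = τ := by
    apply hφ
    intro w
    by_cases hwa : w = a
    · rw [hwa, Equiv.swap_apply_left, hψa, hψb]
      exact Subtype.ext hτy.symm
    · by_cases hwb : w = b
      · rw [hwb, Equiv.swap_apply_right, hψa, hψb]
        exact Subtype.ext hτz.symm
      · rw [Equiv.swap_apply_of_ne_of_ne hwa hwb]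
        rcases hcov' (ψ w) (ψ w).2 with h6 | h6 | ⟨i, h6⟩
        · exact absurd (ψ.injective ((Subtype.ext h6).trans hψa.symm)) hwa
        · exact absurd (ψ.injective ((Subtype.ext h6).trans hψb.symm)) hwb
        · exact Subtype.ext (hτn i _ h6).symm
  have hφc : φ c = c' := hφ c c' hψc
  refine ⟨(FF k N D).SplittingField, inferInstance, inferInstance, inferInstance, inferInstance, φ,
    ?_, A, hA.1, hA.2, ?_⟩
  · intro A' hc hx
    exact hUnr k α _ N D hD (FF k N D).SplittingField A' hc hx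
  · rw [hIner k (FF k N D).SplittingField A hA, hclo, hG₀, MonoidHom.map_closure, Set.image_pair]
    have e2 : φ.toMonoidHom (Equiv.swap a b) = τ := hφt
    have e3 : φ.toMonoidHom c = c' := hφc
    rw [e2, e3]

end MP7b0bad.SnT
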