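import Pool.Agent.Work.MP_7b0bad_ag.SnT.Stmts

/-!
# MP_7b0bad_ag, project SnT: no fields between `k(x)` and `k(x)(y)`
-/

set_option autoImplicit false

open Polynomial

namespace MP7b0bad.SnT

/-- an element algebraic over an algebraically closed field is a constant -/
private theorem SAtom_alg {k L : Type} [Field k] [IsAlgClosed k] [Field L] (φ : k →+* L) (y : L)
    (p : k[X]) (hp : p ≠ 0) (h : p.eval₂ φ y = 0) : ∃ c : k, φ c = y := by
  let _ : Algebra k L := φ.toAlgebra
  have hy : IsIntegral k y := IsAlgebraic.isIntegral ⟨p, hp, h⟩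
  have hd := IsAlgClosed.degree_eq_one_of_irreducible k (minpoly.irreducible hy)
  obtain ⟨c, hc⟩ := minpoly.mem_range_of_degree_eq_one k y hd
  exact ⟨c, hc⟩

private theorem SAtom_D {k : Type} [Field k] {L : Type} [Field L] [Algebra (RatFunc k) L]
    {N D : k[X]} (hND : IsCoprime N D) {y : L} (hy : aeval y (FF k N D) = 0) :
    D.eval₂ (cc k L) y ≠ 0 := by
  intro hD
  rw [aeval_FF, hD, mul_zero, sub_zero] at hy
  obtain ⟨a, b, hab⟩ := hND
  have h := congrArg (Polynomial.eval₂ (cc k L) y) hab
  rw [eval₂_add, eval₂_mul, eval₂_mul, hy, hD, mul_zero, mul_zero, add_zero, eval₂_one] at h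
  exact zero_ne_one h

private theorem SAtom_tr {k : Type} [Field k] [IsAlgClosed k] {L : Type} [Field L]
    [Algebra (RatFunc k) L] {N D : k[X]} (hND : IsCoprime N D) {y : L}
    (hy : aeval y (FF k N D) = 0) (p : k[X]) (hp : p.eval₂ (cc k L) y = 0) : p = 0 := by
  by_contra hp0
  obtain ⟨c, hc⟩ := SAtom_alg (cc k L) y p hp0 hp
  have hD := SAtom_D hND hy
  rw [aeval_FF, ← hc, eval₂_hom, eval₂_hom] at hy
  rw [← hc, eval₂_hom] at hD
  have h1 : xx k L = cc k L (N.eval c / D.eval c) := by
    rw [map_div₀, eq_div_iff hD]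
    exact (sub_eq_zero.1 hy).symm
  have h2 : (RatFunc.X : RatFunc k) = algebraMap k (RatFunc k) (N.eval c / D.eval c) :=
    (algebraMap (RatFunc k) L).injective h1
  have h3 : algebraMap k[X] (RatFunc k) X = algebraMap k[X] (RatFunc k) (C (N.eval c / D.eval c)) := by
    rw [RatFunc.algebraMap_X, h2, ← Polynomial.algebraMap_eq,
      ← IsScalarTower.algebraMap_apply k k[X] (RatFunc k)]
  have h4 := IsFractionRing.injective k[X] (RatFunc k) h3
  exact X_ne_C _ h4

theorem prf_SAtom (hSNoDec : SNoDec) (_hSIrr : SIrr) : SAtom := by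
  intro k _ _ _ ι _ α e N D hdat L _ _ y hy M hM
  have hDy := SAtom_D hdat.cop hy
  have hinj : Function.Injective (eval₂RingHom (cc k L) y) := by
    rw [injective_iff_map_eq_zero]
    intro p hp
    exact SAtom_tr hdat.cop hy p hp
  set j : RatFunc k →+* L := IsFractionRing.lift hinj with hj
  have hjp : ∀ p : k[X], j (algebraMap k[X] (RatFunc k) p) = p.eval₂ (cc k L) y := fun p =>
    IsFractionRing.lift_algebraMap hinj p
  have hjc : ∀ c : k, j (algebraMap k (RatFunc k) c) = cc k L c := by
    intro c
    rw [IsScalarTower.algebraMap_apply k k[X] (RatFunc k), hjp, Polynomial.algebraMap_eq, eval₂_C]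
  have hjX : j RatFunc.X = y := by
    rw [← RatFunc.algebraMap_X, hjp, eval₂_X]
  have hjf : j (fr k N D) = xx k L := by
    rw [fr, map_div₀, hjp, hjp, div_eq_iff hDy]
    rw [aeval_FF] at hy
    exact sub_eq_zero.1 hy
  -- the image of `K` lies in the range of `j`
  have hK : ∀ r : RatFunc k, algebraMap (RatFunc k) L r ∈ j.fieldRange := by
    intro r
    have hpol : ∀ p : k[X], algebraMap (RatFunc k) L (algebraMap k[X] (RatFunc k) p) =
        j (p.eval₂ (algebraMap k (RatFunc k)) (fr k N D)) := by
      intro p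
      rw [Polynomial.hom_eval₂, hjf]
      have h1 : j.comp (algebraMap k (RatFunc k)) = cc k L := RingHom.ext hjc
      rw [h1]
      have h2 : algebraMap k[X] (RatFunc k) p =
          p.eval₂ (algebraMap k (RatFunc k)) RatFunc.X := by
        rw [← RatFunc.algebraMap_X, ← Polynomial.aeval_def, Polynomial.aeval_algebraMap_apply,
          Polynomial.aeval_X_left_apply]
      rw [h2, Polynomial.hom_eval₂]
    obtain ⟨a, b, hb, rfl⟩ := IsFractionRing.div_surjective (A := k[X]) r
    rw [map_div₀, hpol, hpol, ← map_div₀]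
    exact ⟨_, rfl⟩
  -- `K(y)` lies in the range of `j`
  have hrange : IntermediateField.adjoin (RatFunc k) {y} ≤
      Subfield.toIntermediateField j.fieldRange hK := by
    rw [IntermediateField.adjoin_le_iff, Set.singleton_subset_iff]
    exact ⟨RatFunc.X, hjX⟩
  have hcM : ∀ (S : IntermediateField (RatFunc k) L) (c : k),
      algebraMap k (RatFunc k) c ∈ S.toSubfield.comap j := by
    intro S c
    rw [Subfield.mem_comap, hjc]
    exact S.algebraMap_mem _
  have hfM : ∀ S : IntermediateField (RatFunc k) L,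
      fr k N D ∈ Subfield.toIntermediateField (S.toSubfield.comap j) (hcM S) := by
    intro S
    change j (fr k N D) ∈ S
    rw [hjf]
    exact S.algebraMap_mem _
  rcases hSNoDec k α e N D hdat (Subfield.toIntermediateField (M.toSubfield.comap j) (hcM M))
    (hfM M) with h | h
  · left
    rw [eq_bot_iff]
    intro m hm
    obtain ⟨g, hg⟩ : ∃ g, j g = m := hrange (hM hm)
    have h1 : g ∈ Subfield.toIntermediateField (M.toSubfield.comap j) (hcM M) := by
      change j g ∈ M
      rw [hg]
      exact hm
    rw [h] at h1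
    have h2 : IntermediateField.adjoin k {fr k N D} ≤ Subfield.toIntermediateField
        ((⊥ : IntermediateField (RatFunc k) L).toSubfield.comap j) (hcM ⊥) := by
      rw [IntermediateField.adjoin_le_iff, Set.singleton_subset_iff]
      exact hfM ⊥
    have h3 : j g ∈ (⊥ : IntermediateField (RatFunc k) L) := h2 h1
    rwa [hg] at h3
  · right
    refine le_antisymm hM ?_
    rw [IntermediateField.adjoin_le_iff, Set.singleton_subset_iff]
    have h1 : (RatFunc.X : RatFunc k) ∈
        Subfield.toIntermediateField (M.toSubfield.comap j) (hcM M) := by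
      rw [h]
      exact IntermediateField.mem_top
    have h2 : j RatFunc.X ∈ M := h1
    rwa [hjX] at h2

end MP7b0bad.SnT
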