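import Pool.Agent.Work.MP_7b0bad_ag.SnT.Stmts
import Pool.Agent.Work.MP_7b0bad_ag.Bd.B05

/-!
# The tame character of the decomposition group
-/

set_option autoImplicit false

open Polynomial Pointwise

namespace MP7b0bad.SnT

theorem SChar_bezout {ι : Type} [DecidableEq ι] (e : ι → ℕ) (S : Finset ι) (hS : S.Nonempty)
    (he : ∀ i ∈ S, 1 ≤ e i) : ∃ m : ℕ, 1 ≤ m ∧ ∃ q : ι → ℕ, (∀ i ∈ S, e i * q i = m) ∧
      ∃ n : ι → ℤ, ∑ i ∈ S, n i * (q i : ℤ) = 1 := by
  induction hS using Finset.Nonempty.cons_induction with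
  | singleton a =>
    exact ⟨e a, he a (by simp), fun _ => 1, by simp, fun _ => 1, by simp⟩
  | cons a S ha hS ih =>
    obtain ⟨m, hm, q, hq, n, hn⟩ := ih (fun i hi => he i (Finset.mem_cons_of_mem hi))
    have hea := he a (Finset.mem_cons_self a S)
    set g := Nat.gcd m (e a) with hg
    have hg0 : 0 < g := Nat.gcd_pos_of_pos_left _ (by omega)
    obtain ⟨m1, hm1⟩ : g ∣ m := Nat.gcd_dvd_left _ _
    obtain ⟨e1, he1⟩ : g ∣ e a := Nat.gcd_dvd_right _ _
    have hcop : Nat.Coprime m1 e1 := by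
      have h1 := Nat.coprime_div_gcd_div_gcd (m := m) (n := e a) hg0
      rw [← hg] at h1
      have h2 : m / g = m1 := by
        conv_lhs => rw [hm1]
        exact Nat.mul_div_cancel_left _ hg0
      have h3 : e a / g = e1 := by
        conv_lhs => rw [he1]
        exact Nat.mul_div_cancel_left _ hg0
      rwa [h2, h3] at h1
    have hbz := Nat.gcd_eq_gcd_ab m1 e1
    rw [hcop.gcd_eq_one] at hbz
    have hm1' : 1 ≤ m1 := by
      rcases Nat.eq_zero_or_pos m1 with h | h
      · rw [h, mul_zero] at hm1; omega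
      · exact h
    have hne : ∀ i ∈ S, i ≠ a := fun i hi h => ha (h ▸ hi)
    refine ⟨e a * m1, Nat.mul_pos (by omega) hm1', fun i => if i = a then m1 else q i * e1, ?_,
      fun i => if i = a then Nat.gcdA m1 e1 else Nat.gcdB m1 e1 * n i, ?_⟩
    · intro i hi
      rcases Finset.mem_cons.1 hi with rfl | hi'
      · simp
      · simp only [hne i hi', if_false]
        rw [← mul_assoc, hq i hi', hm1, he1]
        ring
    · rw [Finset.sum_cons]
      simp only [if_true]
      have h1 : ∑ i ∈ S, (if i = a then Nat.gcdA m1 e1 else Nat.gcdB m1 e1 * n i) *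
          ((if i = a then m1 else q i * e1 : ℕ) : ℤ) =
          Nat.gcdB m1 e1 * e1 * ∑ i ∈ S, n i * (q i : ℤ) := by
        rw [Finset.mul_sum]
        refine Finset.sum_congr rfl fun i hi => ?_
        simp only [hne i hi, if_false]
        push_cast
        ring
      rw [h1, hn]
      push_cast at hbz
      linarith

theorem SChar_prod_zpow {Γ : Type} [CommGroupWithZero Γ] {ι : Type} (a : Γ) (ha : a ≠ 0)
    (S : Finset ι) (f : ι → ℤ) : ∏ i ∈ S, a ^ f i = a ^ ∑ i ∈ S, f i := by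
  classical
  induction S using Finset.induction_on with
  | empty => simp
  | insert i S hi ih => rw [Finset.prod_insert hi, Finset.sum_insert hi, ih, zpow_add₀ ha]

section
variable {k : Type} [Field k] {L : Type} [Field L] [Algebra (RatFunc k) L]
  {A : ValuationSubring L}

theorem SChar_mem (σ : A.decompositionSubgroup (RatFunc k)) (a : L) :
    (σ : L ≃ₐ[RatFunc k] L) a ∈ A ↔ a ∈ A := by
  have h : (σ : L ≃ₐ[RatFunc k] L) • A = A := σ.2
  have h1 := ValuationSubring.smul_mem_pointwise_smul_iff (g := (σ : L ≃ₐ[RatFunc k] L)) (S := A)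
    (x := a)
  rw [h] at h1
  exact h1

theorem SChar_nonunits (σ : A.decompositionSubgroup (RatFunc k)) {a : L}
    (ha : a ∈ A.nonunits) : (σ : L ≃ₐ[RatFunc k] L) a ∈ A.nonunits := by
  rw [ValuationSubring.mem_nonunits_iff_or] at ha ⊢
  rcases ha with h | h
  · left; rw [h, map_zero]
  · right
    rw [← map_inv₀, SChar_mem]
    exact h

theorem SChar_mul {a b : L} (ha : A.valuation (a - 1) < 1) (hb : A.valuation (b - 1) < 1) :
    A.valuation (a * b - 1) < 1 := by
  have hb1 : A.valuation b ≤ 1 := by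
    have h : b = (b - 1) + 1 := by ring
    rw [h]
    exact (A.valuation.map_add _ _).trans (max_le hb.le (by rw [map_one]))
  have h : a * b - 1 = (a - 1) * b + (b - 1) := by ring
  rw [h]
  refine lt_of_le_of_lt (A.valuation.map_add _ _) (max_lt ?_ hb)
  rw [map_mul]
  exact lt_of_le_of_lt (mul_le_mul_right hb1 _) (by rwa [mul_one])

theorem SChar_pow {a : L} (ha : A.valuation (a - 1) < 1) (n : ℕ) :
    A.valuation (a ^ n - 1) < 1 := by
  induction n with
  | zero => simp
  | succ n ih => rw [pow_succ]; exact SChar_mul ih ha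

end

theorem prf_SChar (hSVal : SVal) (hSTame : STame) (hSCharE : SCharE) : SChar := by
  classical
  intro k _ _ _ ι _ α e N D hD L _ _ _ _ A hA
  set S : Finset ι := Finset.univ.filter fun i => (Rn k N D A (α i)).Nonempty with hS
  have hmemS : ∀ i, i ∈ S ↔ (Rn k N D A (α i)).Nonempty := fun i => by simp [hS]
  rcases S.eq_empty_or_nonempty with hS0 | hSne
  · refine ⟨1, fun σ _ i y hy => ?_⟩
    have : i ∈ S := (hmemS i).2 ⟨y, hy⟩
    rw [hS0] at this
    exact absurd this (Finset.notMem_empty _)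
  have hepos : ∀ i, 1 ≤ e i := fun i => (hD.odd i).pos
  obtain ⟨m, hm, q, hq, n, hn⟩ := SChar_bezout e S hSne (fun i _ => hepos i)
  have hy : ∀ i, ∃ y : L, i ∈ S → y ∈ Rn k N D A (α i) := by
    intro i
    by_cases hi : i ∈ S
    · obtain ⟨y, hy⟩ := (hmemS i).1 hi
      exact ⟨y, fun _ => hy⟩
    · exact ⟨0, fun h => absurd h hi⟩
  choose y hy using hy
  have hval := (hSVal k α e N D hD L A hA).2
  have hx0 : A.valuation (xx k L) ≠ 0 := by
    obtain ⟨i, hi⟩ := hSne
    have h1 := (hval i (y i) (hy i hi)).2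
    intro h0
    rw [h0, mul_zero] at h1
    exact zero_ne_one h1
  have hxL : xx k L ≠ 0 := by
    intro h; apply hx0; rw [h, map_zero]
  set z : ι → L := fun i => y i - cc k L (α i) with hz
  have hz0 : ∀ i ∈ S, z i ≠ 0 := fun i hi => sub_ne_zero.2 (hval i (y i) (hy i hi)).1
  have hzv : ∀ i ∈ S, A.valuation (z i) ^ e i = (A.valuation (xx k L))⁻¹ := by
    intro i hi
    exact eq_inv_of_mul_eq_one_left (hval i (y i) (hy i hi)).2
  set s : L := ∏ i ∈ S, z i ^ n i with hs
  have hs0 : s ≠ 0 := Finset.prod_ne_zero_iff.2 fun i hi => zpow_ne_zero _ (hz0 i hi)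
  have hsv : A.valuation s ^ m = (A.valuation (xx k L))⁻¹ := by
    rw [hs, map_prod, ← Finset.prod_pow]
    have h1 : ∀ i ∈ S, A.valuation (z i ^ n i) ^ m =
        ((A.valuation (xx k L))⁻¹) ^ (n i * (q i : ℤ)) := by
      intro i hi
      rw [map_zpow₀, ← hzv i hi, ← zpow_natCast, ← zpow_natCast (A.valuation (z i)) (e i),
        ← zpow_mul, ← zpow_mul, ← hq i hi]
      congr 1
      push_cast
      ring
    rw [Finset.prod_congr rfl h1, SChar_prod_zpow _ (inv_ne_zero hx0), hn, zpow_one]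
  obtain ⟨θ, hθ⟩ := hSCharE k L A hA s hs0 ⟨m, hm, RatFunc.X⁻¹, by
    rw [hsv, map_inv₀, map_inv₀]⟩
  refine ⟨θ, fun σ hσ i y' hy' => ?_⟩
  have hiS : i ∈ S := (hmemS i).2 ⟨y', hy'⟩
  obtain ⟨hy'1, hy'2⟩ := hval i y' hy'
  set w : L := y' - cc k L (α i) with hw
  have hw0 : w ≠ 0 := sub_ne_zero.2 hy'1
  have hwv : A.valuation w ^ e i = (A.valuation (xx k L))⁻¹ := eq_inv_of_mul_eq_one_left hy'2
  set u : L := w / s ^ q i with hu
  have hspow : s ^ q i ≠ 0 := pow_ne_zero _ hs0
  have hu0 : u ≠ 0 := div_ne_zero hw0 hspow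
  have huv : A.valuation u = 1 := by
    have h1 : A.valuation u ^ e i = 1 := by
      rw [hu, map_div₀, map_pow, div_pow, ← pow_mul, mul_comm (q i) (e i), hq i hiS, hsv, hwv]
      exact div_self (inv_ne_zero hx0)
    exact (pow_eq_one_iff_of_nonneg zero_le' (by have := hepos i; omega)).1 h1
  have huA : u ∈ A := (A.valuation_le_one_iff _).1 huv.le
  obtain ⟨c, hc⟩ := prf_F6 prf_F3 k L A hA u huA
  -- the automorphism
  have hσc : ∀ c : k, (σ : L ≃ₐ[RatFunc k] L) (cc k L c) = cc k L c := fun c =>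
    (σ : L ≃ₐ[RatFunc k] L).commutes _
  have h1 : A.valuation ((σ : L ≃ₐ[RatFunc k] L) u / u - 1) < 1 := by
    have h2 := SChar_nonunits σ hc
    rw [map_sub] at h2
    have h3 : (σ : L ≃ₐ[RatFunc k] L) (algebraMap (RatFunc k) L (algebraMap k (RatFunc k) c)) =
        algebraMap (RatFunc k) L (algebraMap k (RatFunc k) c) := hσc c
    rw [h3, ValuationSubring.mem_nonunits_iff] at h2
    rw [ValuationSubring.mem_nonunits_iff] at hc
    have h4 : (σ : L ≃ₐ[RatFunc k] L) u / u - 1 =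
        (((σ : L ≃ₐ[RatFunc k] L) u - algebraMap (RatFunc k) L (algebraMap k (RatFunc k) c)) -
        (u - algebraMap (RatFunc k) L (algebraMap k (RatFunc k) c))) / u := by
      field_simp
      ring
    rw [h4, map_div₀, huv, div_one]
    exact lt_of_le_of_lt (A.valuation.map_sub _ _) (max_lt h2 hc)
  have h2 : A.valuation ((σ : L ≃ₐ[RatFunc k] L) s / s - 1) < 1 := by
    have h3 := hθ σ
    rw [hσ, ValuationSubring.mem_nonunits_iff] at h3
    simpa using h3
  have h3 : A.valuation ((σ : L ≃ₐ[RatFunc k] L) w / w - 1) < 1 := by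
    have h4 := SChar_mul h1 (SChar_pow h2 (q i))
    have h5 : (σ : L ≃ₐ[RatFunc k] L) u / u * ((σ : L ≃ₐ[RatFunc k] L) s / s) ^ q i =
        (σ : L ≃ₐ[RatFunc k] L) w / w := by
      have h6 : (σ : L ≃ₐ[RatFunc k] L) s ≠ 0 := by
        rw [Ne, map_eq_zero]; exact hs0
      rw [hu, map_div₀, map_pow, div_pow]
      field_simp
    rwa [h5] at h4
  have h4 : (σ : L ≃ₐ[RatFunc k] L) w = (σ : L ≃ₐ[RatFunc k] L) y' - cc k L (α i) := by
    rw [hw, map_sub, hσc]
  have h5 : (σ : L ≃ₐ[RatFunc k] L) y' ∈ Rn k N D A (α i) := by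
    refine ⟨rp_mem _ _ _ hy'.1, ?_⟩
    rw [← h4]
    exact SChar_nonunits σ hy'.2
  refine hSTame k α e N D hD L A hA i y' hy' _ h5 ?_
  rw [ValuationSubring.mem_nonunits_iff, ← h4]
  exact h3

end MP7b0bad.SnT
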