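import Pool.Agent.Work.MP_7b0bad_ag.SnT.Stmts

/-!
# Permutations with orbits of the same sizes are conjugate
-/

namespace MP7b0bad.SnT

/-- Powers of a permutation at a point. -/
theorem SComb_pow {α : Type} [Finite α] (c : Equiv.Perm α) (x : α) (m n : ℕ) :
    (c ^ m) x = (c ^ n) x ↔ m % Function.minimalPeriod c x = n % Function.minimalPeriod c x := by
  rw [← Equiv.Perm.iterate_eq_pow, ← Equiv.Perm.iterate_eq_pow]
  have hpos : 0 < Function.minimalPeriod c x :=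
    Function.minimalPeriod_pos_of_mem_periodicPts (c.injective.mem_periodicPts x)
  rw [← Function.iterate_mod_minimalPeriod_eq (n := m),
    ← Function.iterate_mod_minimalPeriod_eq (n := n)]
  constructor
  · intro h
    exact Function.iterate_injOn_Iio_minimalPeriod (Nat.mod_lt _ hpos) (Nat.mod_lt _ hpos) h
  · intro h
    rw [h]

/-- The size of an orbit. -/
theorem SComb_card {α : Type} [Finite α] (c : Equiv.Perm α) (x : α) (S : Set α)
    (h : ∀ y, y ∈ S ↔ ∃ m : ℕ, (c ^ m) x = y) : S.ncard = Function.minimalPeriod c x := by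
  have hpos : 0 < Function.minimalPeriod c x :=
    Function.minimalPeriod_pos_of_mem_periodicPts (c.injective.mem_periodicPts x)
  have e : S = (fun m : ℕ => (c ^ m) x) '' (Finset.range (Function.minimalPeriod c x) : Set ℕ) := by
    ext y
    rw [h y]
    constructor
    · rintro ⟨m, hm⟩
      refine ⟨m % Function.minimalPeriod c x, ?_, ?_⟩
      · simpa using Nat.mod_lt _ hpos
      · rw [← hm]
        exact (SComb_pow c x _ _).2 (Nat.mod_mod _ _)
    · rintro ⟨m, -, hm⟩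
      exact ⟨m, hm⟩
  rw [e, Set.InjOn.ncard_image, Set.ncard_coe_finset, Finset.card_range]
  intro m hm n hn hmn
  have h1 := (SComb_pow c x m n).1 hmn
  have hm' : m < Function.minimalPeriod c x := by simpa using hm
  have hn' : n < Function.minimalPeriod c x := by simpa using hn
  rwa [Nat.mod_eq_of_lt hm', Nat.mod_eq_of_lt hn'] at h1

/-- The graph of the conjugation. -/
def SComb_R {α β ι : Type} (a b : α) (c : Equiv.Perm α) (X : ι → α) (a' b' : β)
    (c' : Equiv.Perm β) (X' : ι → β) (x : α) (y : β) : Prop :=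
  (x = a ∧ y = a') ∨ (x = b ∧ y = b') ∨ ∃ (i : ι) (m : ℕ), (c ^ m) (X i) = x ∧ (c' ^ m) (X' i) = y

theorem SComb_swap {α β ι : Type} {a b : α} {c : Equiv.Perm α} {X : ι → α} {a' b' : β}
    {c' : Equiv.Perm β} {X' : ι → β} {x : α} {y : β} (h : SComb_R a b c X a' b' c' X' x y) :
    SComb_R a' b' c' X' a b c X y x := by
  rcases h with ⟨h1, h2⟩ | ⟨h1, h2⟩ | ⟨i, m, h1, h2⟩
  · exact Or.inl ⟨h2, h1⟩
  · exact Or.inr (Or.inl ⟨h2, h1⟩)
  · exact Or.inr (Or.inr ⟨i, m, h2, h1⟩)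

theorem SComb_total {α β ι : Type} {a b : α} {c : Equiv.Perm α} {S : ι → Set α}
    (hO : Orb a b c S) {X : ι → α} (hX : ∀ i, X i ∈ S i) (a' b' : β) (c' : Equiv.Perm β)
    (X' : ι → β) (x : α) : ∃ y, SComb_R a b c X a' b' c' X' x y := by
  rcases hO.cov x with h | h | ⟨i, h⟩
  · exact ⟨a', Or.inl ⟨h, rfl⟩⟩
  · exact ⟨b', Or.inr (Or.inl ⟨h, rfl⟩)⟩
  · obtain ⟨m, hm⟩ := (hO.orb i (X i) (hX i) x).1 h
    exact ⟨(c' ^ m) (X' i), Or.inr (Or.inr ⟨i, m, hm, rfl⟩)⟩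

theorem SComb_fun {α β ι : Type} [Finite α] [Finite β] {a b : α} {c : Equiv.Perm α}
    {S : ι → Set α} (hO : Orb a b c S) {X : ι → α} (hX : ∀ i, X i ∈ S i) {a' b' : β}
    {c' : Equiv.Perm β} {S' : ι → Set β} (hO' : Orb a' b' c' S') {X' : ι → β}
    (hX' : ∀ i, X' i ∈ S' i) (hc : ∀ i, (S i).ncard = (S' i).ncard) {x : α} {y y' : β}
    (h : SComb_R a b c X a' b' c' X' x y) (h' : SComb_R a b c X a' b' c' X' x y') : y = y' := by
  have hmem : ∀ (i : ι) (m : ℕ), (c ^ m) (X i) ∈ S i := fun i m =>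
    (hO.orb i (X i) (hX i) _).2 ⟨m, rfl⟩
  rcases h with ⟨h1, h2⟩ | ⟨h1, h2⟩ | ⟨i, m, h1, h2⟩ <;>
    rcases h' with ⟨h3, h4⟩ | ⟨h3, h4⟩ | ⟨j, n, h3, h4⟩
  · rw [h2, h4]
  · exact absurd (h1.symm.trans h3) hO.ne
  · exact absurd (h1 ▸ h3 ▸ hmem j n) (hO.na j)
  · exact absurd (h3.symm.trans h1) hO.ne
  · rw [h2, h4]
  · exact absurd (h1 ▸ h3 ▸ hmem j n) (hO.nb j)
  · exact absurd (h3 ▸ h1 ▸ hmem i m) (hO.na i)
  · exact absurd (h3 ▸ h1 ▸ hmem i m) (hO.nb i)
  · have hij : i = j := hO.dis i j x (h1 ▸ hmem i m) (h3 ▸ hmem j n)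
    subst hij
    have e1 := (SComb_pow c (X i) m n).1 (h1.trans h3.symm)
    rw [← SComb_card c (X i) (S i) (hO.orb i (X i) (hX i)), hc i,
      SComb_card c' (X' i) (S' i) (hO'.orb i (X' i) (hX' i))] at e1
    rw [← h2, ← h4]
    exact (SComb_pow c' (X' i) m n).2 e1

theorem prf_SComb : SComb := by
  intro α β ι _ _ a b c a' b' c' S S' hO hO' hc
  choose X hX using hO.sne
  choose X' hX' using hO'.sne
  choose f hf using SComb_total hO hX a' b' c' X'
  have hinj : Function.Injective f := by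
    intro x1 x2 h
    have h1 := SComb_swap (hf x1)
    have h2 := SComb_swap (hf x2)
    rw [← h] at h2
    exact SComb_fun hO' hX' hO hX (fun i => (hc i).symm) h1 h2
  have hsurj : Function.Surjective f := by
    intro y
    obtain ⟨x, hx⟩ := SComb_total hO' hX' a b c X y
    exact ⟨x, SComb_fun hO hX hO' hX' hc (hf x) (SComb_swap hx)⟩
  refine ⟨Equiv.ofBijective f ⟨hinj, hsurj⟩, ?_, ?_, ?_⟩
  · exact SComb_fun hO hX hO' hX' hc (hf a) (Or.inl ⟨rfl, rfl⟩)
  · exact SComb_fun hO hX hO' hX' hc (hf b) (Or.inr (Or.inl ⟨rfl, rfl⟩))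
  · intro x
    refine SComb_fun hO hX hO' hX' hc (hf (c x)) ?_
    rcases hf x with ⟨h1, h2⟩ | ⟨h1, h2⟩ | ⟨i, m, h1, h2⟩
    · refine Or.inl ⟨?_, ?_⟩
      · rw [h1, hO.fa]
      · change c' (f x) = a'
        rw [h2, hO'.fa]
    · refine Or.inr (Or.inl ⟨?_, ?_⟩)
      · rw [h1, hO.fb]
      · change c' (f x) = b'
        rw [h2, hO'.fb]
    · refine Or.inr (Or.inr ⟨i, m + 1, ?_, ?_⟩)
      · rw [pow_succ', Equiv.Perm.mul_apply, h1]
      · change (c' ^ (m + 1)) (X' i) = c' (f x)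
        rw [pow_succ', Equiv.Perm.mul_apply, h2]

end MP7b0bad.SnT
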