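import Pool.Agent.Work.MP_7b0bad_ag.SnT.Stmts

/-!
# The decomposition group
-/

set_option autoImplicit false

open Polynomial Pointwise

namespace MP7b0bad.SnT

/-- finite orders of units are odd in characteristic 2 -/
private theorem SCyc_odd {k : Type} [Field k] [CharP k 2] {u : kˣ} (h : IsOfFinOrder u) :
    Odd (orderOf u) := by
  by_contra hne
  rw [Nat.not_odd_iff_even] at hne
  obtain ⟨m, hm⟩ := hne
  have hpos := h.orderOf_pos
  have h1 : (u ^ m) ^ 2 = 1 := by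
    rw [← pow_mul, mul_two, ← hm, pow_orderOf_eq_one]
  have h2 : ((u ^ m : kˣ) : k) = 1 := by
    have h3 : ((u ^ m : kˣ) : k) ^ 2 = 1 := by
      rw [← Units.val_pow_eq_pow_val, h1, Units.val_one]
    have h20 : (2 : k) = 0 := by
      have := CharP.cast_eq_zero k 2
      simpa using this
    have h4 : (((u ^ m : kˣ) : k) - 1) ^ 2 = 0 := by
      have : (((u ^ m : kˣ) : k) - 1) ^ 2 = ((u ^ m : kˣ) : k) ^ 2 - 2 * ((u ^ m : kˣ) : k) + 1 := by
        ring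
      rw [this, h3, h20, zero_mul, sub_zero]
      rw [← h20]
      norm_num
    exact sub_eq_zero.1 (pow_eq_zero_iff (two_ne_zero).elim |>.1 h4)
  have h5 : u ^ m = 1 := Units.ext h2
  have h6 := orderOf_dvd_of_pow_eq_one h5
  have h7 := Nat.le_of_dvd (by omega) h6
  omega

/-- elements of the decomposition group preserve the roots near infinity -/
private theorem SCyc_Ri {k : Type} [Field k] {N D : k[X]} {L : Type} [Field L]
    [Algebra (RatFunc k) L] {A : ValuationSubring L} {σ : L ≃ₐ[RatFunc k] L} (hσ : σ • A = A)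
    {y : L} (hy : y ∈ Ri k N D A) : σ y ∈ Ri k N D A := by
  refine ⟨rp_mem _ σ y hy.1, fun h => hy.2 ?_⟩
  have h1 : σ • y ∈ σ • A := by
    rw [hσ]
    exact h
  exact ValuationSubring.smul_mem_pointwise_smul_iff.1 h1

/-- an automorphism which fixes the roots is trivial -/
private theorem SCyc_one {K L : Type} [Field K] [Field L] [Algebra K L] (F : K[X])
    [IsSplittingField K L F] {σ : L ≃ₐ[K] L} (h : ∀ y ∈ F.rootSet L, σ y = y) : σ = 1 := by
  have h1 : (σ : L →ₐ[K] L) = ((1 : L ≃ₐ[K] L) : L →ₐ[K] L) :=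
    AlgHom.ext_of_adjoin_eq_top (IsSplittingField.adjoin_rootSet L F) fun y hy => h y hy
  ext y
  exact DFunLike.congr_fun h1 y

theorem prf_SCyc (hSCount : SCount) (hSOrb : SOrb) (hSChar : SChar) : SCyc := by
  intro k _ _ _ ι _ α e N D hdat L _ _ _ _ _ A hA
  obtain ⟨θ, hθ⟩ := hSChar k α e N D hdat L A hA
  obtain ⟨hRi2, _, hcov⟩ := hSCount k α e N D hdat L A hA
  obtain ⟨horb, σ₀, hσ₀A, y₀, hy₀, hσ₀y⟩ := hSOrb k α e N D hdat L A hA
  obtain ⟨y₁, y₂, hne, hRi⟩ := Set.ncard_eq_two.1 hRi2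
  have hy₁ : y₁ ∈ Ri k N D A := by rw [hRi]; simp
  have hy₂ : y₂ ∈ Ri k N D A := by rw [hRi]; simp
  have hmem : ∀ y, y ∈ Ri k N D A ↔ y = y₁ ∨ y = y₂ := by
    intro y
    rw [hRi]
    simp
  have hfs : ∀ σ : L ≃ₐ[RatFunc k] L, σ • A = A →
      (σ y₁ = y₁ ∧ σ y₂ = y₂) ∨ (σ y₁ = y₂ ∧ σ y₂ = y₁) := by
    intro σ hσ
    have h1 := (hmem _).1 (SCyc_Ri hσ hy₁)
    have h2 := (hmem _).1 (SCyc_Ri hσ hy₂)
    have h3 : σ y₁ ≠ σ y₂ := fun h => hne (σ.injective h)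
    rcases h1 with h1 | h1 <;> rcases h2 with h2 | h2
    · exact absurd (h1.trans h2.symm) h3
    · exact Or.inl ⟨h1, h2⟩
    · exact Or.inr ⟨h1, h2⟩
    · exact absurd (h1.trans h2.symm) h3
  have hker : ∀ σ : A.decompositionSubgroup (RatFunc k), θ σ = 1 →
      (σ : L ≃ₐ[RatFunc k] L) y₁ = y₁ → σ = 1 := by
    intro σ h1 h2
    apply Subtype.ext
    refine SCyc_one (FF k N D) fun y hy => ?_
    by_cases hyA : y ∈ A
    · obtain ⟨i, hi⟩ := hcov y hy hyA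
      exact hθ σ h1 i y hi
    · have h3 := (hmem y).1 ⟨hy, hyA⟩
      rcases hfs σ σ.2 with h4 | h4
      · rcases h3 with h3 | h3
        · rw [h3]; exact h4.1
        · rw [h3]; exact h4.2
      · exact absurd (h2.symm.trans h4.1) hne
  -- finiteness
  have : Finite (L ≃ₐ[RatFunc k] L) := inferInstance
  have : Finite (A.decompositionSubgroup (RatFunc k)) := inferInstance
  have hfin : ∀ σ : A.decompositionSubgroup (RatFunc k), IsOfFinOrder (θ σ) := fun σ =>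
    θ.isOfFinOrder (isOfFinOrder_of_finite σ)
  have : Finite θ.range := by
    have : Finite (Set.range θ) := Set.finite_range θ
    exact this
  obtain ⟨⟨g, hg⟩, hgen⟩ := (inferInstance : IsCyclic θ.range).exists_generator
  obtain ⟨δ, hδ⟩ := hg
  have hgen' : ∀ σ : A.decompositionSubgroup (RatFunc k), ∃ j : ℕ, θ δ ^ j = θ σ := by
    intro σ
    have h1 := hgen ⟨θ σ, ⟨σ, rfl⟩⟩
    obtain ⟨z, hz⟩ := Subgroup.mem_zpowers_iff.1 h1
    have h2 : g ^ z = θ σ := congrArg Subtype.val hz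
    have h3 : θ σ ∈ Subgroup.zpowers (θ δ) := by
      rw [hδ]
      exact ⟨z, h2⟩
    rw [← (hfin δ).mem_powers_iff_mem_zpowers] at h3
    exact h3
  -- the element `c`
  have hc : ∀ σ : A.decompositionSubgroup (RatFunc k), ∃ j : ℕ, θ (δ ^ 2) ^ j = θ σ := by
    intro σ
    obtain ⟨j, hj⟩ := hgen' σ
    obtain ⟨m, hm⟩ := SCyc_odd (hfin δ)
    refine ⟨(m + 1) * j, ?_⟩
    have h1 : θ (δ ^ 2) ^ (m + 1) = θ δ := by
      rw [map_pow, ← pow_mul, show 2 * (m + 1) = orderOf (θ δ) + 1 by rw [hm]; ring, pow_succ,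
        pow_orderOf_eq_one, one_mul]
    rw [pow_mul, h1, hj]
  have hcfix : ((δ : L ≃ₐ[RatFunc k] L) ^ 2) y₁ = y₁ ∧ ((δ : L ≃ₐ[RatFunc k] L) ^ 2) y₂ = y₂ := by
    rw [pow_two, AlgEquiv.mul_apply, AlgEquiv.mul_apply]
    rcases hfs δ δ.2 with h | h
    · rw [h.1, h.2, h.1, h.2]
      exact ⟨rfl, rfl⟩
    · rw [h.1, h.2, h.1]
      exact ⟨rfl, rfl⟩
  -- the element `τ`
  obtain ⟨s, hs⟩ : ∃ s : A.decompositionSubgroup (RatFunc k), (s : L ≃ₐ[RatFunc k] L) = σ₀ :=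
    ⟨⟨σ₀, hσ₀A⟩, rfl⟩
  have hsw : (s : L ≃ₐ[RatFunc k] L) y₁ = y₂ ∧ (s : L ≃ₐ[RatFunc k] L) y₂ = y₁ := by
    rcases hfs s s.2 with h | h
    · exfalso
      apply hσ₀y
      rw [← hs]
      rcases (hmem y₀).1 hy₀ with h1 | h1
      · rw [h1]; exact h.1
      · rw [h1]; exact h.2
    · exact h
  have hsodd : ∀ l : ℕ, ((s : L ≃ₐ[RatFunc k] L) ^ (2 * l + 1)) y₁ = y₂ ∧
      ((s : L ≃ₐ[RatFunc k] L) ^ (2 * l + 1)) y₂ = y₁ := by
    intro l
    induction l with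
    | zero => simpa using hsw
    | succ l ih =>
      rw [show 2 * (l + 1) + 1 = (2 * l + 1) + 1 + 1 by ring, pow_succ, pow_succ,
        AlgEquiv.mul_apply, AlgEquiv.mul_apply, AlgEquiv.mul_apply, AlgEquiv.mul_apply,
        hsw.1, hsw.2, hsw.1]
      exact ih
  obtain ⟨l, hl⟩ := SCyc_odd (hfin s)
  obtain ⟨t, ht⟩ : ∃ t : A.decompositionSubgroup (RatFunc k), t = s ^ (2 * l + 1) := ⟨_, rfl⟩
  have ht1 : θ t = 1 := by
    rw [ht, map_pow, ← hl, pow_orderOf_eq_one]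
  have htsw : (t : L ≃ₐ[RatFunc k] L) y₁ = y₂ ∧ (t : L ≃ₐ[RatFunc k] L) y₂ = y₁ := by
    rw [ht, Subgroup.coe_pow]
    exact hsodd l
  -- the kernel
  have hker2 : ∀ σ : A.decompositionSubgroup (RatFunc k), θ σ = 1 → σ = 1 ∨ t * σ = 1 := by
    intro σ h1
    rcases hfs σ σ.2 with h | h
    · exact Or.inl (hker σ h1 h.1)
    · refine Or.inr (hker _ ?_ ?_)
      · rw [map_mul, ht1, h1, one_mul]
      · rw [Subgroup.coe_mul, AlgEquiv.mul_apply, h.1, htsw.2]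
  have hdec : ∀ σ : A.decompositionSubgroup (RatFunc k), ∃ (j : ℕ)
      (ρ : A.decompositionSubgroup (RatFunc k)), θ ρ = 1 ∧ σ = (δ ^ 2) ^ j * ρ := by
    intro σ
    obtain ⟨j, hj⟩ := hc σ
    refine ⟨j, ((δ ^ 2) ^ j)⁻¹ * σ, ?_, ?_⟩
    · rw [map_mul, map_inv, map_pow, hj, inv_mul_cancel]
    · rw [mul_inv_cancel_left]
  refine ⟨t, ((δ ^ 2 : A.decompositionSubgroup (RatFunc k)) : L ≃ₐ[RatFunc k] L), ?_,
    fun i y hy => hθ t ht1 i y hy, ?_, ?_, ?_⟩
  · apply le_antisymm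
    · intro σ hσ
      obtain ⟨j, ρ, hρ, hj⟩ := hdec ⟨σ, hσ⟩
      have h1 : σ = (((δ ^ 2 : A.decompositionSubgroup (RatFunc k)) : L ≃ₐ[RatFunc k] L)) ^ j *
          (ρ : L ≃ₐ[RatFunc k] L) := by
        have := congrArg Subtype.val hj
        simpa using this
      rw [h1]
      refine Subgroup.mul_mem _ (Subgroup.pow_mem _ (Subgroup.subset_closure (by simp)) _) ?_
      rcases hker2 ρ hρ with h2 | h2
      · rw [h2]
        exact Subgroup.one_mem _
      · have h3 : ρ = t⁻¹ := (inv_eq_of_mul_eq_one_right h2).symm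
        rw [h3, Subgroup.coe_inv]
        exact Subgroup.inv_mem _ (Subgroup.subset_closure (by simp))
    · rw [Subgroup.closure_le]
      rintro x (rfl | rfl)
      · exact t.2
      · exact (δ ^ 2).2
  · intro y hy
    rcases (hmem y).1 hy with h | h
    · rw [h, htsw.1]
      exact hne.symm
    · rw [h, htsw.2]
      exact hne
  · intro y hy
    rw [Subgroup.coe_pow]
    rcases (hmem y).1 hy with h | h
    · rw [h]; exact hcfix.1
    · rw [h]; exact hcfix.2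
  · intro i y hy y' hy'
    obtain ⟨σ, hσ, hσy⟩ := horb i y hy y' hy'
    obtain ⟨j, ρ, hρ, hj⟩ := hdec ⟨σ, hσ⟩
    refine ⟨j, ?_⟩
    have h1 : σ = (((δ ^ 2 : A.decompositionSubgroup (RatFunc k)) : L ≃ₐ[RatFunc k] L)) ^ j *
        (ρ : L ≃ₐ[RatFunc k] L) := by
      have := congrArg Subtype.val hj
      simpa using this
    rw [← hσy, h1, AlgEquiv.mul_apply, hθ ρ hρ i y hy]

end MP7b0bad.SnT
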