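import Pool.Agent.Work.MP_7b0bad_ag.SnT.Stmts

/-!
# MP_7b0bad_ag, project SnT: existence of the polynomials
-/

set_option autoImplicit false

open Polynomial

namespace MP7b0bad.SnT

theorem prf_SEx : SEx := by
  classical
  intro k _ _ _ ι _ e he
  have hinf : Infinite k := IsAlgClosed.instInfinite
  obtain ⟨α, hα⟩ : ∃ α : ι → k, Function.Injective α :=
    ⟨fun i => Infinite.natEmbedding k (Fintype.equivFin ι i),
      (Infinite.natEmbedding k).injective.comp
        (Fin.val_injective.comp (Fintype.equivFin ι).injective)⟩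
  have htwo : ∀ f : k[X], f + f = 0 := fun f => CharTwo.add_self_eq_zero f
  choose m hm using fun i => (he i)
  choose b hb using fun i => IsAlgClosed.exists_pow_nat_eq (α i) (n := 2) two_pos
  obtain ⟨L, hL⟩ : ∃ L : k[X], L = ∏ i, (X - C (α i)) := ⟨_, rfl⟩
  obtain ⟨Q, hQ⟩ : ∃ Q : k[X], Q = ∏ i, (X - C (α i)) ^ (m i + 1) := ⟨_, rfl⟩
  obtain ⟨D, hD⟩ : ∃ D : k[X], D = ∏ i, (X - C (α i)) ^ e i := ⟨_, rfl⟩
  obtain ⟨r, hr⟩ : ∃ r : k[X], r = Lagrange.interpolate Finset.univ α b := ⟨_, rfl⟩
  have hrα : ∀ i, r.eval (α i) = b i := fun i => by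
    rw [hr]
    exact Lagrange.eval_interpolate_at_node b hα.injOn (Finset.mem_univ i)
  have hrd : r.degree < Fintype.card ι := by
    rw [hr]
    exact Lagrange.degree_interpolate_lt b hα.injOn
  have hLm : L.Monic := by rw [hL]; exact monic_prod_of_monic _ _ fun i _ => monic_X_sub_C _
  have hQm : Q.Monic := by
    rw [hQ]; exact monic_prod_of_monic _ _ fun i _ => (monic_X_sub_C _).pow _
  have hLd : L.natDegree = Fintype.card ι := by
    rw [hL, natDegree_prod_of_monic _ _ fun i _ => monic_X_sub_C _]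
    simp
  have hQd : Q.natDegree = ∑ i, (m i + 1) := by
    rw [hQ, natDegree_prod_of_monic _ _ fun i _ => (monic_X_sub_C _).pow _]
    refine Finset.sum_congr rfl fun i _ => ?_
    rw [(monic_X_sub_C _).natDegree_pow, natDegree_X_sub_C, mul_one]
  have hDL : D * L = Q * Q := by
    rw [hD, hL, hQ, ← Finset.prod_mul_distrib, ← Finset.prod_mul_distrib]
    refine Finset.prod_congr rfl fun i _ => ?_
    rw [← pow_succ, ← pow_add]
    congr 1
    have := hm i
    omega
  have hQα : ∀ i, Q.eval (α i) = 0 := fun i => by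
    rw [hQ, eval_prod]
    refine Finset.prod_eq_zero (Finset.mem_univ i) ?_
    rw [eval_pow, eval_sub, eval_X, eval_C, sub_self, zero_pow (Nat.succ_ne_zero _)]
  have hLα : ∀ i, L.eval (α i) = 0 := fun i => by
    rw [hL, eval_prod]
    refine Finset.prod_eq_zero (Finset.mem_univ i) ?_
    rw [eval_sub, eval_X, eval_C, sub_self]
  obtain ⟨R, hR⟩ : ∃ R : k[X], R = X * Q + r := ⟨_, rfl⟩
  have hXQ : (X * Q).Monic := monic_X.mul hQm
  have hXQd : (X * Q).natDegree = 1 + ∑ i, (m i + 1) := by
    rw [monic_X.natDegree_mul hQm, natDegree_X, hQd]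
  have hcard : Fintype.card ι ≤ ∑ i, (m i + 1) := by
    rw [Fintype.card_eq_sum_ones]
    exact Finset.sum_le_sum fun i _ => Nat.le_add_left 1 (m i)
  have hrlt : r.degree < (X * Q).degree := by
    rw [degree_eq_natDegree hXQ.ne_zero, hXQd]
    refine hrd.trans_le ?_
    exact_mod_cast (by omega : Fintype.card ι ≤ 1 + ∑ i, (m i + 1))
  have hRm : R.Monic := by rw [hR]; exact hXQ.add_of_left hrlt
  have hRd : R.natDegree = 1 + ∑ i, (m i + 1) := by
    rw [hR, natDegree_add_eq_left_of_degree_lt hrlt, hXQd]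
  have hRR : (R * R).Monic := hRm.mul hRm
  have hRRd : (R * R).natDegree = (1 + ∑ i, (m i + 1)) + (1 + ∑ i, (m i + 1)) := by
    rw [hRm.natDegree_mul hRm, hRd]
  have hXlt : (X : k[X]).degree < (R * R).degree := by
    rw [degree_X, degree_eq_natDegree hRR.ne_zero, hRRd]
    exact_mod_cast (by omega : 1 < (1 + ∑ i, (m i + 1)) + (1 + ∑ i, (m i + 1)))
  have hN0m : (R * R + X).Monic := hRR.add_of_left hXlt
  have hN0d : (R * R + X).natDegree = (1 + ∑ i, (m i + 1)) + (1 + ∑ i, (m i + 1)) := by
    rw [natDegree_add_eq_left_of_degree_lt hXlt, hRRd]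
  have hdvd : L ∣ R * R + X := by
    rw [hL]
    refine Finset.prod_dvd_of_coprime ((pairwise_coprime_X_sub_C hα).set_pairwise _) ?_
    intro i _
    rw [dvd_iff_isRoot, IsRoot.def, eval_add, eval_mul, eval_X, hR, eval_add, eval_mul, eval_X,
      hQα, mul_zero, zero_add, hrα, ← sq, hb]
    exact CharTwo.add_self_eq_zero _
  obtain ⟨N, hN⟩ := hdvd
  have hNm : N.Monic := hLm.of_mul_monic_left (by rw [← hN]; exact hN0m)
  have h1 : derivative L * N + L * derivative N = 1 := by
    rw [← derivative_mul, ← hN, derivative_add, derivative_mul, derivative_X, mul_comm R,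
      htwo, zero_add]
  have h2 : derivative D * L + D * derivative L = 0 := by
    rw [← derivative_mul, hDL, derivative_mul, mul_comm Q, htwo]
  refine ⟨α, N, D, hα, he, hNm, ?_, hD, ?_, ?_⟩
  · have e1 : (L * N).natDegree = L.natDegree + N.natDegree := hLm.natDegree_mul hNm
    rw [← hN, hN0d, hLd] at e1
    have e2 : ∑ i, (m i + 1) + ∑ i, (m i + 1) = Fintype.card ι + ∑ i, e i := by
      rw [Fintype.card_eq_sum_ones, ← Finset.sum_add_distrib, ← Finset.sum_add_distrib]
      refine Finset.sum_congr rfl fun i _ => ?_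
      have := hm i
      omega
    omega
  · rw [hD]
    refine IsCoprime.prod_right fun i _ => IsCoprime.pow_right ?_
    refine IsCoprime.symm (((irreducible_X_sub_C (α i)).coprime_iff_not_dvd).2 ?_)
    rw [dvd_iff_isRoot, IsRoot.def]
    intro h0
    have h3 := congrArg (eval (α i)) h1
    rw [eval_add, eval_mul, eval_mul, h0, hLα, mul_zero, zero_mul, add_zero, eval_one] at h3
    exact zero_ne_one h3
  · rw [← hL]
    linear_combination D * h1 - N * h2

end MP7b0bad.SnT
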