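import Pool.Agent.Work.MP_7b0bad_ag.SnT.Stmts

/-!
# Item SGal: the Galois group is the full symmetric group
-/

set_option autoImplicit false

open Polynomial

namespace MP7b0bad.SnT

/-- the representation on the roots is faithful -/
theorem SGal_inj {K L : Type} [Field K] [Field L] [Algebra K L] (F : K[X])
    [IsSplittingField K L F] : Function.Injective (rp (L := L) F) := by
  rw [injective_iff_map_eq_one]
  intro σ hσ
  have h1 : ∀ y ∈ F.rootSet L, σ y = y := by
    intro y hy
    have h2 := rp_apply F σ ⟨y, hy⟩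
    rw [hσ] at h2
    exact h2.symm
  have h3 : (σ : L →ₐ[K] L) = AlgHom.id K L := by
    refine AlgHom.ext_of_adjoin_eq_top (IsSplittingField.adjoin_rootSet L F) fun y hy => ?_
    exact h1 y hy
  ext x
  exact DFunLike.congr_fun h3 x

/-- the group is transitive on the roots -/
theorem SGal_trans {K L : Type} [Field K] [Field L] [Algebra K L] [FiniteDimensional K L]
    [IsGalois K L] {F : K[X]} (hF : Irreducible F) (y z : F.rootSet L) :
    ∃ σ : L ≃ₐ[K] L, rp F σ y = z := by
  have h1 : ∀ w : F.rootSet L, minpoly K (w : L) = F * C F.leadingCoeff⁻¹ := fun w =>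
    (minpoly.eq_of_irreducible hF (mem_rootSet.1 w.2).2).symm
  have h2 : IsConjRoot K (z : L) (y : L) := by
    rw [isConjRoot_def, h1, h1]
  obtain ⟨σ, hσ⟩ := isConjRoot_iff_exists_algEquiv.1 h2
  exact ⟨σ, Subtype.ext (by rw [rp_apply]; exact hσ)⟩

/-- the stabiliser of a root -/
theorem SGal_stab {K L : Type} [Field K] [Field L] [Algebra K L] (y : L) (σ : L ≃ₐ[K] L) :
    σ ∈ (IntermediateField.adjoin K {y}).fixingSubgroup ↔ σ y = y := by
  rw [IntermediateField.mem_fixingSubgroup_iff]
  constructor
  · intro h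
    exact h y (IntermediateField.mem_adjoin_simple_self K y)
  · intro h x hx
    have h1 : IntermediateField.adjoin K {y} ≤
        IntermediateField.fixedField (Subgroup.zpowers σ) := by
      rw [IntermediateField.adjoin_simple_le_iff, IntermediateField.mem_fixedField_iff]
      intro τ hτ
      have h2 : Subgroup.zpowers σ ≤ MulAction.stabilizer (L ≃ₐ[K] L) y := by
        rw [Subgroup.zpowers_le]
        exact h
      exact h2 hτ
    have h3 := h1 hx
    rw [IntermediateField.mem_fixedField_iff] at h3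
    exact h3 σ (Subgroup.mem_zpowers σ)

theorem prf_SGal : SGal := by
  intro K L _ _ _ _ _ F _ hF hat ⟨σ0, y0, z0, hne, h1, h2, h3⟩
  classical
  refine ⟨SGal_inj F, ?_⟩
  have hfin : Finite (F.rootSet L) := (rootSet_finite F L).to_subtype
  have hnt : Nontrivial (F.rootSet L) := ⟨y0, z0, hne⟩
  obtain ⟨H, hH⟩ : ∃ H : Subgroup (Equiv.Perm (F.rootSet L)), H = (rp (L := L) F).range :=
    ⟨_, rfl⟩
  have hmem : ∀ σ : L ≃ₐ[K] L, rp F σ ∈ H := fun σ => by
    rw [hH]
    exact ⟨σ, rfl⟩
  have hex : ∀ h : H, ∃ σ : L ≃ₐ[K] L, (h : Equiv.Perm (F.rootSet L)) = rp F σ := by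
    rintro ⟨h, hh⟩
    rw [hH] at hh
    obtain ⟨σ, hσ⟩ := hh
    exact ⟨σ, hσ.symm⟩
  have htr : MulAction.IsPretransitive H (F.rootSet L) := ⟨fun y z => by
    obtain ⟨σ, hσ⟩ := SGal_trans hF y z
    exact ⟨⟨rp F σ, hmem σ⟩, hσ⟩⟩
  have hpre : MulAction.IsPreprimitive H (F.rootSet L) := by
    rw [← MulAction.isCoatom_stabilizer_iff_preprimitive H y0]
    constructor
    · intro h4
      obtain ⟨σ, hσ⟩ := SGal_trans hF y0 z0
      have h5 : (⟨rp F σ, hmem σ⟩ : H) ∈ MulAction.stabilizer H y0 := by
        rw [h4]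
        trivial
      have h6 : rp F σ y0 = y0 := h5
      exact hne (h6.symm.trans hσ)
    · intro B hB
      obtain ⟨B', hB'⟩ : ∃ B' : Subgroup (L ≃ₐ[K] L), ∀ σ, σ ∈ B' ↔
          (⟨rp F σ, hmem σ⟩ : H) ∈ B := by
        refine ⟨B.comap ((rp (L := L) F).codRestrict H hmem), fun σ => ?_⟩
        rfl
      have h4 : (IntermediateField.adjoin K {(y0 : L)}).fixingSubgroup ≤ B' := by
        intro σ hσ
        rw [SGal_stab] at hσ
        rw [hB']
        refine hB.le ?_
        exact Subtype.ext hσ
      have h5 : IntermediateField.fixedField B' ≤ IntermediateField.adjoin K {(y0 : L)} := by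
        have h7 := IntermediateField.fixedField_antitone h4
        rwa [IsGalois.fixedField_fixingSubgroup] at h7
      have h6 : (IntermediateField.fixedField B').fixingSubgroup = B' :=
        IntermediateField.fixingSubgroup_fixedField B'
      rcases hat y0 y0.2 _ h5 with h7 | h7
      · rw [h7, IntermediateField.fixingSubgroup_bot] at h6
        rw [eq_top_iff]
        intro h _
        obtain ⟨σ, hσ⟩ := hex h
        have h8 : σ ∈ B' := by
          rw [← h6]
          trivial
        rw [hB'] at h8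
        have h9 : h = (⟨rp F σ, hmem σ⟩ : H) := Subtype.ext hσ
        rw [h9]
        exact h8
      · exfalso
        rw [h7] at h6
        refine hB.not_ge fun h hh => ?_
        obtain ⟨σ, hσ⟩ := hex h
        have h9 : h = (⟨rp F σ, hmem σ⟩ : H) := Subtype.ext hσ
        rw [h9, ← hB', ← h6, SGal_stab] at hh
        rw [h9]
        exact Subtype.ext hh
  have htop := Equiv.Perm.subgroup_eq_top_of_isPreprimitive_of_isSwap_mem hpre (rp F σ0)
    ⟨y0, z0, hne, by
      ext1 w
      by_cases hy : w = y0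
      · rw [hy, Equiv.swap_apply_left, h1]
      · by_cases hz : w = z0
        · rw [hz, Equiv.swap_apply_right, h2]
        · rw [Equiv.swap_apply_of_ne_of_ne hy hz, h3 w hy hz]⟩ (hmem σ0)
  intro p
  have h4 : p ∈ H := by
    rw [htop]
    trivial
  rw [hH] at h4
  exact h4

end MP7b0bad.SnT
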