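import Pool.Agent.Work.MP_7b0bad_ag.SnT.Stmts

set_option autoImplicit false

open Polynomial

namespace MP7b0bad.SnT

private theorem SIrr_Dmonic {k : Type} [Field k] {ι : Type} [Fintype ι] (α : ι → k) (e : ι → ℕ) :
    (∏ i, (X - C (α i)) ^ e i : k[X]).Monic :=
  monic_prod_of_monic _ _ fun i _ => (monic_X_sub_C (α i)).pow (e i)

private theorem SIrr_Ddeg {k : Type} [Field k] {ι : Type} [Fintype ι] (α : ι → k) (e : ι → ℕ) :
    (∏ i, (X - C (α i)) ^ e i : k[X]).natDegree = ∑ i, e i := by
  rw [natDegree_prod_of_monic _ _ fun i _ => (monic_X_sub_C (α i)).pow (e i)]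
  refine Finset.sum_congr rfl fun i _ => ?_
  rw [(monic_X_sub_C (α i)).natDegree_pow, natDegree_X_sub_C, mul_one]

/-- a general form of the monic and degree statement -/
private theorem SIrr_monic {k A : Type} [Field k] [CommRing A] [Nontrivial A] (φ : k →+* A) (x : A)
    (N D : k[X]) (hN : N.Monic) (hd : D.natDegree < N.natDegree) :
    (N.map φ - C x * D.map φ).Monic ∧ (N.map φ - C x * D.map φ).natDegree = N.natDegree := by
  have h1 : (C x * D.map φ).natDegree < (N.map φ).natDegree := by
    rw [hN.natDegree_map φ]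
    exact ((natDegree_C_mul_le _ _).trans natDegree_map_le).trans_lt hd
  have h2 : (N.map φ).Monic := hN.map φ
  refine ⟨h2.sub_of_left ?_, ?_⟩
  · exact degree_lt_degree h1
  · rw [natDegree_sub_eq_left_of_natDegree_lt h1, hN.natDegree_map φ]

private theorem SIrr_irr {k : Type} [Field k] (N D : k[X]) (hD : D ≠ 0) (hc : IsCoprime N D) :
    Irreducible (N.map (C : k →+* k[X]) - C (X : k[X]) * D.map (C : k →+* k[X])) := by
  have h1 : Irreducible (C (-D) * X + C N : k[X][X]) :=
    irreducible_C_mul_X_add_C (neg_ne_zero.mpr hD)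
      ((IsCoprime.neg_right_iff _ _).mpr hc).symm.isRelPrime
  have h2 : N.map (C : k →+* k[X]) - C (X : k[X]) * D.map (C : k →+* k[X]) =
      Bivariate.swap (R := k) (C (-D) * X + C N) := by
    rw [map_add, map_mul, Bivariate.swap_C, Bivariate.swap_C, Bivariate.swap_Y, Polynomial.map_neg]
    ring
  rw [h2, MulEquiv.irreducible_iff]
  exact h1

theorem prf_SIrr : SIrr := by
  intro k _ ι _ α e N D h
  have hDm : D.Monic := h.hD ▸ SIrr_Dmonic α e
  have hDd : D.natDegree = ∑ i, e i := by rw [h.hD]; exact SIrr_Ddeg α e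
  have hlt : D.natDegree < N.natDegree := by rw [hDd, h.deg]; omega
  have hM := SIrr_monic (algebraMap k (RatFunc k)) RatFunc.X N D h.monic hlt
  have hM2 := SIrr_monic (C : k →+* k[X]) X N D h.monic hlt
  have hmap : (N.map (C : k →+* k[X]) - C (X : k[X]) * D.map (C : k →+* k[X])).map
      (algebraMap k[X] (RatFunc k)) = FF k N D := by
    have hcomp : (algebraMap k[X] (RatFunc k)).comp (C : k →+* k[X]) = algebraMap k (RatFunc k) :=
      (IsScalarTower.algebraMap_eq k k[X] (RatFunc k)).symm
    rw [FF, Polynomial.map_sub, Polynomial.map_mul, Polynomial.map_C, Polynomial.map_map,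
      Polynomial.map_map, hcomp, RatFunc.algebraMap_X]
  have hirr : Irreducible (FF k N D) := by
    rw [← hmap]
    exact (hM2.1.irreducible_iff_irreducible_map_fraction_map).1
      (SIrr_irr N D hDm.ne_zero h.cop)
  refine ⟨hM.1, hM.2.trans h.deg, hirr, ?_⟩
  rw [separable_iff_derivative_ne_zero hirr]
  intro h0
  have hj : ∀ j, (derivative N).coeff j = 0 ∧ (derivative D).coeff j = 0 := by
    intro j
    have h1 := congrArg (fun p => coeff p j) h0
    simp only [FF, map_sub, derivative_C_mul, derivative_map, coeff_sub, coeff_C_mul, coeff_map,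
      coeff_zero] at h1
    set a := (derivative N).coeff j
    set b := (derivative D).coeff j
    have h2 : algebraMap k[X] (RatFunc k) (C a - X * C b) = 0 := by
      rw [map_sub, map_mul, RatFunc.algebraMap_X, RatFunc.algebraMap_C, RatFunc.algebraMap_C]
      exact h1
    have h3 : (C a - X * C b : k[X]) = 0 :=
      (map_eq_zero_iff _ (RatFunc.algebraMap_injective k)).1 h2
    have h4 := congrArg (fun p => coeff p 0) h3
    have h5 := congrArg (fun p => coeff p 1) h3
    simp [coeff_C] at h4 h5
    exact ⟨h4, h5⟩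
  have hN0 : derivative N = 0 := Polynomial.ext fun j => by rw [(hj j).1, coeff_zero]
  have hD0 : derivative D = 0 := Polynomial.ext fun j => by rw [(hj j).2, coeff_zero]
  have hwr := h.wr
  rw [hN0, hD0, zero_mul, mul_zero, sub_zero, mul_zero] at hwr
  exact hDm.ne_zero hwr.symm

end MP7b0bad.SnT
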