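import Pool.Agent.Work.MP_7b0bad_ag.SnT.Stmts
import Mathlib.FieldTheory.RatFunc.Luroth

/-!
# MP_7b0bad_ag, project SnT: normal form of the generator in Lüroth's theorem
-/

set_option autoImplicit false

open Polynomial

namespace MP7b0bad.SnT

private lemma SMob_inv {k L : Type} [Field k] [Field L] [Algebra k L] (x : L) :
    IntermediateField.adjoin k {x⁻¹} = IntermediateField.adjoin k {x} := by
  apply le_antisymm
  · rw [IntermediateField.adjoin_simple_le_iff]
    exact inv_mem (IntermediateField.mem_adjoin_simple_self k x)
  · rw [IntermediateField.adjoin_simple_le_iff]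
    have h := inv_mem (IntermediateField.mem_adjoin_simple_self k x⁻¹)
    rwa [inv_inv] at h

private lemma SMob_sub {k L : Type} [Field k] [Field L] [Algebra k L] (x : L) (c : k) :
    IntermediateField.adjoin k {x - algebraMap k L c} = IntermediateField.adjoin k {x} := by
  apply le_antisymm
  · rw [IntermediateField.adjoin_simple_le_iff]
    exact sub_mem (IntermediateField.mem_adjoin_simple_self k x)
      (IntermediateField.algebraMap_mem _ c)
  · rw [IntermediateField.adjoin_simple_le_iff]
    have h := add_mem (IntermediateField.mem_adjoin_simple_self k (x - algebraMap k L c))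
      (IntermediateField.algebraMap_mem _ c)
    rwa [sub_add_cancel] at h

private lemma SMob_const {k : Type} [Field k] {M : IntermediateField k (RatFunc k)} (hM : M ≠ ⊥)
    {x : RatFunc k} (hx : M = IntermediateField.adjoin k {x}) (c : k) :
    x ≠ algebraMap k (RatFunc k) c := by
  rintro rfl
  apply hM
  rw [hx, IntermediateField.adjoin_simple_eq_bot_iff]
  exact IntermediateField.algebraMap_mem _ c

private lemma SMob_lt {k : Type} [Field k] {M : IntermediateField k (RatFunc k)} (hM : M ≠ ⊥)
    {A B : k[X]} (hc : IsCoprime A B) (hlt : A.natDegree < B.natDegree)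
    (hx : M = IntermediateField.adjoin k {fr k A B}) :
    ∃ A B : k[X], IsCoprime A B ∧ B ≠ 0 ∧ B.natDegree < A.natDegree ∧
      M = IntermediateField.adjoin k {fr k A B} := by
  refine ⟨B, A, hc.symm, ?_, hlt, ?_⟩
  · rintro rfl
    apply SMob_const hM hx 0
    simp [fr]
  · have h : fr k B A = (fr k A B)⁻¹ := by
      unfold fr
      rw [inv_div]
    rw [h, SMob_inv, hx]

theorem prf_SMob : SMob := by
  intro k _ M hM
  have hg : M = IntermediateField.adjoin k {RatFunc.Luroth.generator M} :=
    RatFunc.Luroth.eq_adjoin_generator
  set g : RatFunc k := RatFunc.Luroth.generator M with hgdef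
  have hfr : fr k g.num g.denom = g := by
    unfold fr
    exact RatFunc.num_div_denom g
  have hc : IsCoprime g.num g.denom := RatFunc.isCoprime_num_denom g
  have hB0 : g.denom ≠ 0 := RatFunc.denom_ne_zero g
  rw [← hfr] at hg
  clear_value g
  generalize g.num = A at *
  generalize g.denom = B at *
  rcases lt_trichotomy A.natDegree B.natDegree with hlt | heq | hgt
  · exact SMob_lt hM hc hlt hg
  · set c : k := A.leadingCoeff / B.leadingCoeff with hcdef
    have hBl : B.leadingCoeff ≠ 0 := leadingCoeff_ne_zero.2 hB0
    have hBm : algebraMap k[X] (RatFunc k) B ≠ 0 := by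
      simpa using hB0
    have hA0 : A ≠ 0 := by
      rintro rfl
      apply SMob_const hM hg 0
      simp [fr]
    have hc0 : c ≠ 0 := div_ne_zero (leadingCoeff_ne_zero.2 hA0) hBl
    have hsub : fr k (A + B * (-C c)) B = fr k A B - algebraMap k (RatFunc k) c := by
      unfold fr
      have h1 : algebraMap k (RatFunc k) c = algebraMap k[X] (RatFunc k) (C c) := by
        rw [RatFunc.algebraMap_C, RatFunc.algebraMap_eq_C]
      rw [h1, map_add, map_mul, map_neg]
      field_simp
      ring
    have hg2 : M = IntermediateField.adjoin k {fr k (A + B * (-C c)) B} := by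
      rw [hsub, SMob_sub, hg]
    have hne : A + B * (-C c) ≠ 0 := by
      intro h0
      apply SMob_const hM hg2 0
      rw [h0]
      simp [fr]
    have hdeg : (A + B * (-C c)).degree < A.degree := by
      have e1 : A + B * (-C c) = A - C c * B := by ring
      rw [e1]
      apply degree_sub_lt_left _ hA0
      · rw [leadingCoeff_mul, leadingCoeff_C, hcdef, div_mul_cancel₀ _ hBl]
      · rw [degree_C_mul hc0, degree_eq_natDegree hA0, degree_eq_natDegree hB0, heq]
    have hnd : (A + B * (-C c)).natDegree < B.natDegree := by
      rw [← heq]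
      exact natDegree_lt_natDegree hne hdeg
    exact SMob_lt hM (hc.add_mul_left_left _) hnd hg2
  · exact ⟨A, B, hc, hB0, hgt, hg⟩

end MP7b0bad.SnT
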