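import Pool.Agent.Work.MP_7b0bad_ag.SnT.Stmts

/-!
# No intermediate fields between `k(f)` and `k(y)`
-/

set_option autoImplicit false

open Polynomial

namespace MP7b0bad.SnT

section
variable {k : Type} [Field k]

lemma SNoDec_ne {p : k[X]} (hp : p ≠ 0) : algebraMap k[X] (RatFunc k) p ≠ 0 := by
  rw [Ne, map_eq_zero_iff _ (IsFractionRing.injective k[X] (RatFunc k))]
  exact hp

lemma SNoDec_C (c : k) :
    algebraMap k[X] (RatFunc k) (C c) = algebraMap k (RatFunc k) c := by
  rw [IsScalarTower.algebraMap_apply k k[X] (RatFunc k)]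
  rfl

lemma SNoDec_D {ι : Type} [Fintype ι] {α : ι → k} {e : ι → ℕ} {N D : k[X]}
    (h : Dat k α e N D) : D.Monic ∧ D.natDegree = ∑ i, e i := by
  have h1 : ∀ i ∈ (Finset.univ : Finset ι), ((X - C (α i)) ^ e i).Monic := fun i _ =>
    (monic_X_sub_C _).pow _
  rw [h.hD]
  refine ⟨monic_prod_of_monic _ _ h1, ?_⟩
  rw [natDegree_prod_of_monic _ _ h1]
  refine Finset.sum_congr rfl fun i _ => ?_
  rw [(monic_X_sub_C _).natDegree_pow, natDegree_X_sub_C, mul_one]

/-- A quotient of values in lowest terms. -/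
lemma SNoDec_red {g f : RatFunc k} (hf : f ≠ 0)
    (h : f ∈ IntermediateField.adjoin k {g}) :
    ∃ a b : k[X], IsCoprime a b ∧ aeval g a ≠ 0 ∧ aeval g b ≠ 0 ∧
      f * aeval g b = aeval g a := by
  obtain ⟨r, s, hrs⟩ := (IntermediateField.mem_adjoin_simple_iff k f).1 h
  have hs : aeval g s ≠ 0 := by
    intro h0
    rw [h0, div_zero] at hrs
    exact hf hrs
  have hs0 : s ≠ 0 := by
    rintro rfl
    exact hs (map_zero _)
  set q : RatFunc k := algebraMap k[X] (RatFunc k) r / algebraMap k[X] (RatFunc k) s with hq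
  have hcop := RatFunc.isCoprime_num_denom q
  have hden : algebraMap k[X] (RatFunc k) q.denom ≠ 0 := SNoDec_ne q.denom_ne_zero
  have h1 : r * q.denom = q.num * s := by
    apply IsFractionRing.injective k[X] (RatFunc k)
    rw [map_mul, map_mul]
    have h2 := q.num_div_denom
    rw [hq] at h2
    rw [← hq] at h2
    have h3 : algebraMap k[X] (RatFunc k) q.num / algebraMap k[X] (RatFunc k) q.denom =
        algebraMap k[X] (RatFunc k) r / algebraMap k[X] (RatFunc k) s := h2
    rw [div_eq_div_iff hden (SNoDec_ne hs0)] at h3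
    exact h3.symm
  have h2 : aeval g r * aeval g q.denom = aeval g q.num * aeval g s := by
    rw [← map_mul, ← map_mul, h1]
  have hb : aeval g q.denom ≠ 0 := by
    intro h0
    rw [h0, mul_zero] at h2
    have h3 : aeval g q.num = 0 := by
      rcases mul_eq_zero.1 h2.symm with h | h
      · exact h
      · exact absurd h hs
    obtain ⟨u, v, huv⟩ := hcop
    have h4 := congrArg (aeval g) huv
    rw [map_add, map_mul, map_mul, h3, h0, mul_zero, mul_zero, add_zero, map_one] at h4
    exact zero_ne_one h4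
  have hfb : f * aeval g q.denom = aeval g q.num := by
    rw [hrs, div_mul_eq_mul_div, h2, mul_div_assoc, div_self hs, mul_one]
  refine ⟨q.num, q.denom, hcop, ?_, hb, hfb⟩
  rw [← hfb]
  exact mul_ne_zero hf hb

lemma SNoDec_deg1 {a : k[X]} (ha : a.natDegree = 1) :
    ∃ a₁ a₀ : k, a₁ ≠ 0 ∧ a = C a₁ * X + C a₀ := by
  obtain ⟨a₁, a₀, h⟩ := exists_eq_X_add_C_of_natDegree_le_one ha.le
  refine ⟨a₁, a₀, ?_, h⟩
  rintro rfl
  rw [C_0, zero_mul, zero_add] at h
  rw [h, natDegree_C] at ha
  exact zero_ne_one ha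

end

theorem prf_SNoDec (hSMob : SMob) (hSNoDecP : SNoDecP) (hSTDeg : STDeg) : SNoDec := by
  intro k _ _ _ ι _ α e N D h M hM
  obtain ⟨hDm, hDd⟩ := SNoDec_D h
  have hD0 : D ≠ 0 := hDm.ne_zero
  have hN0 : N ≠ 0 := h.monic.ne_zero
  have hDN : D.natDegree < N.natDegree := by
    rw [h.deg, hDd]
    omega
  have hDa := SNoDec_ne hD0
  have hNa := SNoDec_ne hN0
  have hf0 : fr k N D ≠ 0 := div_ne_zero hNa hDa
  have hfD : fr k N D * algebraMap k[X] (RatFunc k) D = algebraMap k[X] (RatFunc k) N :=
    div_mul_cancel₀ _ hDa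
  by_cases hbot : M = ⊥
  · exfalso
    rw [hbot, IntermediateField.mem_bot] at hM
    obtain ⟨c, hc⟩ := hM
    have h1 : C c * D = N := by
      apply IsFractionRing.injective k[X] (RatFunc k)
      rw [map_mul, SNoDec_C, hc, hfD]
    have h2 : N.natDegree ≤ D.natDegree := by
      rw [← h1]
      exact natDegree_C_mul_le c D
    omega
  obtain ⟨A, B, hAB, hB0, hBA, hMA⟩ := hSMob k M hbot
  have hA0 : A ≠ 0 := by
    rintro rfl
    simp at hBA
  have hBa := SNoDec_ne hB0
  have hgM : M = IntermediateField.adjoin k {fr k A B} := hMA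
  obtain ⟨a, b, hab, ha, hb, hfab⟩ := SNoDec_red hf0 (by rw [← hgM]; exact hM)
  have ha0 : a ≠ 0 := by
    rintro rfl
    exact ha (map_zero _)
  have hb0 : b ≠ 0 := by
    rintro rfl
    exact hb (map_zero _)
  -- the identity between polynomials
  have hid : ∀ m : ℕ, a.natDegree ≤ m → b.natDegree ≤ m → N * T A B m b = D * T A B m a := by
    intro m hma hmb
    apply IsFractionRing.injective k[X] (RatFunc k)
    rw [map_mul, map_mul, T_map A B m b hB0 hmb, T_map A B m a hB0 hma, ← hfD]
    have h1 : aeval (algebraMap k[X] (RatFunc k) A / algebraMap k[X] (RatFunc k) B) a =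
        fr k N D * aeval (algebraMap k[X] (RatFunc k) A / algebraMap k[X] (RatFunc k) B) b :=
      hfab.symm
    rw [h1]
    ring
  have hTne : ∀ (m : ℕ) (q : k[X]), q.natDegree ≤ m → aeval (fr k A B) q ≠ 0 →
      T A B m q ≠ 0 := by
    intro m q hq hq0 h0
    have h1 := T_map A B m q hB0 hq
    rw [h0, map_zero] at h1
    rcases mul_eq_zero.1 h1.symm with h2 | h2
    · exact pow_ne_zero m hBa h2
    · exact hq0 h2
  set m := max a.natDegree b.natDegree with hm
  have hma : a.natDegree ≤ m := le_max_left _ _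
  have hmb : b.natDegree ≤ m := le_max_right _ _
  have hdeg : N.natDegree + (T A B m b).natDegree = D.natDegree + (T A B m a).natDegree := by
    rw [← natDegree_mul hN0 (hTne m b hmb hb), ← natDegree_mul hD0 (hTne m a hma ha),
      hid m hma hmb]
  rw [hSTDeg k A B b m hB0 hBA hb0 hmb, hSTDeg k A B a m hB0 hBA ha0 hma] at hdeg
  have hba : b.natDegree < a.natDegree := by
    by_contra hcon
    rw [not_lt] at hcon
    obtain ⟨j, hj⟩ := Nat.exists_eq_add_of_le hcon
    obtain ⟨u, hu⟩ := Nat.exists_eq_add_of_le hmb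
    obtain ⟨w, hw⟩ := Nat.exists_eq_add_of_le hBA.le
    have e1 : m - b.natDegree = u := by omega
    have e2 : m - a.natDegree = u + j := by omega
    rw [e1, e2, hj, hw] at hdeg
    have e3 : (u + j) * B.natDegree + a.natDegree * (B.natDegree + w) ≤
        u * B.natDegree + (a.natDegree + j) * (B.natDegree + w) := by nlinarith
    omega
  have hmeq : m = a.natDegree := max_eq_left hba.le
  have hfin := hSNoDecP k α e N D h a b A B hab hAB hb0 hB0 hba hBA
    (hid a.natDegree le_rfl hba.le)
  rcases hfin with h1 | h1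
  · left
    obtain ⟨a₁, a₀, ha1, hae⟩ := SNoDec_deg1 h1
    have hbd : b.natDegree = 0 := by omega
    have hbe : b = C (b.coeff 0) := eq_C_of_natDegree_eq_zero hbd
    have ha1' : algebraMap k (RatFunc k) a₁ ≠ 0 :=
      (map_ne_zero (algebraMap k (RatFunc k))).2 ha1
    rw [hae, hbe, map_add, map_mul, aeval_C, aeval_C, aeval_C, aeval_X] at hfab
    have hg : fr k A B = (fr k N D * algebraMap k (RatFunc k) (b.coeff 0) -
        algebraMap k (RatFunc k) a₀) / algebraMap k (RatFunc k) a₁ := by
      rw [hfab, add_sub_cancel_right, mul_div_cancel_left₀ _ ha1']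
    apply le_antisymm
    · rw [hgM, IntermediateField.adjoin_simple_le_iff, hg]
      have hmem := IntermediateField.mem_adjoin_simple_self k (fr k N D)
      exact div_mem (sub_mem (mul_mem hmem (IntermediateField.algebraMap_mem _ _))
        (IntermediateField.algebraMap_mem _ _)) (IntermediateField.algebraMap_mem _ _)
    · rw [IntermediateField.adjoin_simple_le_iff]
      exact hM
  · right
    obtain ⟨A₁, A₀, hA1, hAe⟩ := SNoDec_deg1 h1
    have hBd : B.natDegree = 0 := by omega
    have hBe : B = C (B.coeff 0) := eq_C_of_natDegree_eq_zero hBd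
    have hA1' : algebraMap k (RatFunc k) A₁ ≠ 0 :=
      (map_ne_zero (algebraMap k (RatFunc k))).2 hA1
    have h2 : fr k A B * algebraMap k (RatFunc k) (B.coeff 0) =
        algebraMap k (RatFunc k) A₁ * RatFunc.X + algebraMap k (RatFunc k) A₀ := by
      have h3 : fr k A B * algebraMap k[X] (RatFunc k) B = algebraMap k[X] (RatFunc k) A :=
        div_mul_cancel₀ _ hBa
      have h4 : algebraMap k[X] (RatFunc k) B = algebraMap k (RatFunc k) (B.coeff 0) := by
        rw [← SNoDec_C, ← hBe]
      have h5 : algebraMap k[X] (RatFunc k) A =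
          algebraMap k (RatFunc k) A₁ * RatFunc.X + algebraMap k (RatFunc k) A₀ := by
        rw [← SNoDec_C, ← SNoDec_C, ← RatFunc.algebraMap_X, ← map_mul, ← map_add, ← hAe]
      rw [← h4, ← h5, h3]
    have hX : (RatFunc.X : RatFunc k) = (fr k A B * algebraMap k (RatFunc k) (B.coeff 0) -
        algebraMap k (RatFunc k) A₀) / algebraMap k (RatFunc k) A₁ := by
      rw [h2, add_sub_cancel_right, mul_div_cancel_left₀ _ hA1']
    rw [eq_top_iff, ← RatFunc.adjoin_X, IntermediateField.adjoin_simple_le_iff, hgM, hX]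
    have hmem := IntermediateField.mem_adjoin_simple_self k (fr k A B)
    exact div_mem (sub_mem (mul_mem hmem (IntermediateField.algebraMap_mem _ _))
      (IntermediateField.algebraMap_mem _ _)) (IntermediateField.algebraMap_mem _ _)

end MP7b0bad.SnT
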