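import Pool.Agent.Work.MP_7b0bad_ag.SnT.Stmts

/-!
# No decomposition, in terms of polynomials
-/

set_option autoImplicit false

open Polynomial

namespace MP7b0bad.SnT

private lemma SNoDecP_lift {k : Type} [Field k] (a b : k[X]) (m : ℕ) (q : k[X]) (hb : b ≠ 0)
    (hq : q.natDegree ≤ m) : T a b (m + 1) q = b * T a b m q := by
  have h := T_mul a b 1 m 1 q hb (by simp) hq
  have h1 : T a b 1 1 = b := by
    unfold T
    rw [Finset.sum_range_succ, Finset.sum_range_one]
    simp [coeff_one]
  rw [h1, one_mul, add_comm 1 m] at h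
  exact h.symm

/-- the leading term modulo `B` -/
private lemma SNoDecP_eval {k : Type} [Field k] (A B q : k[X]) (y : k) (hy : B.eval y = 0)
    (m : ℕ) : (T A B m q).eval y = q.coeff m * A.eval y ^ m := by
  unfold T
  rw [Finset.sum_range_succ, eval_add, eval_finsetSum, Finset.sum_eq_zero, zero_add]
  · simp
  · intro i hi
    have hi' : m - i ≠ 0 := by
      have := Finset.mem_range.1 hi
      omega
    rw [eval_mul, eval_pow, hy, zero_pow hi', mul_zero]

/-- multiplicities of the roots of `D` are odd -/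
private lemma SNoDecP_mult {k : Type} [Field k] {ι : Type} [Fintype ι] (α : ι → k) (e : ι → ℕ)
    (hinj : Function.Injective α) (hodd : ∀ i, Odd (e i)) (D : k[X])
    (hD : D = ∏ i, (X - C (α i)) ^ e i) (y : k) (hy : D.IsRoot y) :
    Odd (D.rootMultiplicity y) := by
  classical
  have hy' : (∏ i, (X - C (α i)) ^ e i).eval y = 0 := by
    rw [← hD]; exact hy
  rw [eval_prod, Finset.prod_eq_zero_iff] at hy'
  obtain ⟨i, _, hi⟩ := hy'
  rw [eval_pow, eval_sub, eval_X, eval_C] at hi
  have hi' : y = α i := sub_eq_zero.1 ((pow_eq_zero_iff (hodd i).pos.ne').1 hi)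
  subst hi'
  have hsplit : D = (X - C (α i)) ^ e i * ∏ j ∈ Finset.univ.erase i, (X - C (α j)) ^ e j := by
    rw [hD, Finset.mul_prod_erase Finset.univ (fun j => (X - C (α j)) ^ e j) (Finset.mem_univ i)]
  have hne : ∏ j ∈ Finset.univ.erase i, (X - C (α j)) ^ e j ≠ 0 :=
    Finset.prod_ne_zero_iff.2 fun j _ => pow_ne_zero _ (X_sub_C_ne_zero _)
  have hroot : ¬ (∏ j ∈ Finset.univ.erase i, (X - C (α j)) ^ e j).IsRoot (α i) := by
    rw [IsRoot.def, eval_prod, Finset.prod_eq_zero_iff]
    rintro ⟨j, hj, hj'⟩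
    rw [eval_pow, eval_sub, eval_X, eval_C] at hj'
    have h3 : α i = α j := sub_eq_zero.1 ((pow_eq_zero_iff (hodd j).pos.ne').1 hj')
    exact (Finset.mem_erase.1 hj).1 (hinj h3).symm
  rw [hsplit, rootMultiplicity_mul (mul_ne_zero (pow_ne_zero _ (X_sub_C_ne_zero _)) hne),
    rootMultiplicity_X_sub_C_pow, rootMultiplicity_eq_zero hroot, add_zero]
  exact hodd i

/-- the Wronskian has the expected degree -/
private lemma SNoDecP_wr {k : Type} [Field k] (a b : k[X]) (n : ℕ) (ha : a.natDegree = n + 2)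
    (hb : b.natDegree = n + 1) :
    (derivative a * b - a * derivative b).coeff (2 * n + 2) = a.leadingCoeff * b.leadingCoeff := by
  have h1 : (derivative a * b).coeff (2 * n + 2) = (n + 2 : k) * a.leadingCoeff * b.leadingCoeff := by
    have e1 : 2 * n + 2 = (n + 1) + (n + 1) := by ring
    rw [e1, coeff_mul_add_eq_of_natDegree_le ((natDegree_derivative_le a).trans (by omega)) hb.le,
      coeff_derivative, leadingCoeff, leadingCoeff, ha, hb]
    push_cast
    ring
  have h2 : (a * derivative b).coeff (2 * n + 2) = (n + 1 : k) * a.leadingCoeff * b.leadingCoeff := by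
    have e1 : 2 * n + 2 = (n + 2) + n := by ring
    rw [e1, coeff_mul_add_eq_of_natDegree_le ha.le ((natDegree_derivative_le b).trans (by omega)),
      coeff_derivative, leadingCoeff, leadingCoeff, ha, hb]
    ring
  rw [coeff_sub, h1, h2]
  ring

theorem prf_SNoDecP (hSTDeg : STDeg) (hSTCop : STCop) (hSTWr : STWr) : SNoDecP := by
  intro k _ _ _ ι _ α e N D hdat a b A B hab hAB hb hB hdab hdAB h
  have ha : a ≠ 0 := by
    rintro rfl
    simp at hdab
  have hA : A ≠ 0 := by
    rintro rfl
    simp at hdAB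
  have hN : N ≠ 0 := hdat.monic.ne_zero
  have hcop := hSTCop k A B a b hAB hab ha hdab.le
  -- the unit
  have hd1 : N ∣ T A B a.natDegree a := hdat.cop.dvd_of_dvd_mul_left ⟨_, h.symm⟩
  have hd2 : T A B a.natDegree a ∣ N :=
    hcop.dvd_of_dvd_mul_right ⟨D, by rw [h, mul_comm]⟩
  obtain ⟨v, hv⟩ := associated_of_dvd_dvd hd1 hd2
  obtain ⟨u, hu, hu'⟩ := Polynomial.isUnit_iff.1 v.isUnit
  have hu0 : u ≠ 0 := hu.ne_zero
  have hP1 : T A B a.natDegree a = C u * N := by rw [← hv, ← hu', mul_comm]
  have hP2 : T A B a.natDegree b = C u * D := by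
    apply mul_left_cancel₀ hN
    rw [h, hP1]
    ring
  -- degrees
  have hD0 : D ≠ 0 := by
    rw [hdat.hD]
    exact Finset.prod_ne_zero_iff.2 fun j _ => pow_ne_zero _ (X_sub_C_ne_zero _)
  have hDdeg : D.natDegree = ∑ i, e i := by
    rw [hdat.hD, natDegree_prod _ _ fun j _ => pow_ne_zero _ (X_sub_C_ne_zero _)]
    refine Finset.sum_congr rfl fun i _ => ?_
    rw [natDegree_pow, natDegree_X_sub_C, mul_one]
  have hdeg1 := hSTDeg k A B a a.natDegree hB hdAB ha le_rfl
  have hdeg2 := hSTDeg k A B b a.natDegree hB hdAB hb hdab.le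
  rw [hP1, natDegree_C_mul hu0, hdat.deg, Nat.sub_self, zero_mul, zero_add] at hdeg1
  rw [hP2, natDegree_C_mul hu0, hDdeg] at hdeg2
  -- the two cases
  obtain ⟨s, hs⟩ : ∃ s, a.natDegree = b.natDegree + s := ⟨a.natDegree - b.natDegree, by omega⟩
  obtain ⟨t, ht⟩ : ∃ t, A.natDegree = B.natDegree + t := ⟨A.natDegree - B.natDegree, by omega⟩
  have hst : s * t = 2 := by
    have e1 : b.natDegree + s - b.natDegree = s := by omega
    rw [hs, ht] at hdeg1
    rw [hs, e1, ht] at hdeg2
    nlinarith
  have hs2 : s = 1 ∨ s = 2 := by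
    have h1 : s ∣ 2 := ⟨t, hst.symm⟩
    have h2 : s ≤ 2 := Nat.le_of_dvd (by norm_num) h1
    have h3 : s ≠ 0 := by
      rintro rfl
      simp at hst
    omega
  rcases hs2 with rfl | rfl
  · -- `deg a = deg b + 1`
    left
    by_contra hne
    obtain ⟨n, hn⟩ : ∃ n, a.natDegree = n + 2 := ⟨a.natDegree - 2, by omega⟩
    have hbn : b.natDegree = n + 1 := by omega
    have hw := SNoDecP_wr a b n hn hbn
    have hw0 : (derivative a * b - a * derivative b).coeff (2 * n + 2) ≠ 0 := by
      rw [hw]
      exact mul_ne_zero (leadingCoeff_ne_zero.2 ha) (leadingCoeff_ne_zero.2 hb)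
    obtain ⟨hw1, hw2⟩ := hSTWr k A B a b a.natDegree (by omega) hB le_rfl hdab
    have e3 : 2 * a.natDegree - 2 = 2 * n + 2 := by omega
    rw [e3] at hw1 hw2
    have hwdeg : (derivative a * b - a * derivative b).natDegree = 2 * n + 2 :=
      le_antisymm hw1 (le_natDegree_of_ne_zero hw0)
    have hwne : derivative a * b - a * derivative b ≠ 0 := by
      intro h0
      rw [h0, coeff_zero] at hw0
      exact hw0 rfl
    have hTw := hSTDeg k A B _ (2 * n + 2) hB hdAB hwne hw1
    rw [hwdeg, Nat.sub_self, zero_mul, zero_add] at hTw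
    have hprod : C (u ^ 2) * D = ((∏ i, (X - C (α i))) * (derivative A * B - A * derivative B)) *
        T A B (2 * n + 2) (derivative a * b - a * derivative b) := by
      rw [mul_assoc, ← hw2, hP1, hP2, derivative_C_mul, derivative_C_mul]
      have := hdat.wr
      rw [C_pow]
      linear_combination (-(C u ^ 2)) * this
    have hne0 : C (u ^ 2) * D ≠ 0 := mul_ne_zero (C_ne_zero.2 (pow_ne_zero _ hu0)) hD0
    have hle : (T A B (2 * n + 2) (derivative a * b - a * derivative b)).natDegree ≤
        (C (u ^ 2) * D).natDegree :=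
      natDegree_le_of_dvd ⟨_, by rw [hprod, mul_comm]⟩ hne0
    rw [natDegree_C_mul (pow_ne_zero _ hu0), hDdeg, hTw] at hle
    rw [hn] at hdeg1
    nlinarith
  · -- `deg a = deg b + 2`
    right
    have ht1 : t = 1 := by omega
    subst ht1
    by_contra hne
    have hB1 : B.degree ≠ 0 := by
      intro h0
      apply hne
      have h1 : B.natDegree = 0 := natDegree_eq_of_degree_eq_some h0
      omega
    obtain ⟨y, hy⟩ := IsAlgClosed.exists_root B hB1
    have hAy : A.eval y ≠ 0 := by
      intro h0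
      obtain ⟨p, q, hpq⟩ := hAB
      have := congrArg (eval y) hpq
      rw [eval_add, eval_mul, eval_mul, h0, hy.eq_zero, mul_zero, mul_zero, add_zero,
        eval_one] at this
      exact zero_ne_one this
    have hG : T A B a.natDegree b = B * (B * T A B b.natDegree b) := by
      rw [hs, SNoDecP_lift A B (b.natDegree + 1) b hB (by omega),
        SNoDecP_lift A B b.natDegree b hB le_rfl]
    have hGy : ¬ (T A B b.natDegree b).IsRoot y := by
      rw [IsRoot.def, SNoDecP_eval A B b y hy.eq_zero]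
      exact mul_ne_zero (by rw [coeff_natDegree]; exact leadingCoeff_ne_zero.2 hb)
        (pow_ne_zero _ hAy)
    have hG0 : T A B b.natDegree b ≠ 0 := by
      intro h0
      apply hGy
      rw [h0, IsRoot.def, eval_zero]
    have hDy : D.IsRoot y := by
      have h1 : (C u * D).eval y = 0 := by
        rw [← hP2, hG, eval_mul, hy.eq_zero, zero_mul]
      rw [eval_mul, eval_C] at h1
      exact (mul_eq_zero.1 h1).resolve_left hu0
    have hodd := SNoDecP_mult α e hdat.inj hdat.odd D hdat.hD y hDy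
    have hm : (C u * D).rootMultiplicity y = D.rootMultiplicity y := by
      rw [rootMultiplicity_mul (mul_ne_zero (C_ne_zero.2 hu0) hD0), rootMultiplicity_C, zero_add]
    rw [← hm, ← hP2, hG, rootMultiplicity_mul (mul_ne_zero hB (mul_ne_zero hB hG0)),
      rootMultiplicity_mul (mul_ne_zero hB hG0), rootMultiplicity_eq_zero hGy, add_zero] at hodd
    exact (Nat.not_even_iff_odd.2 hodd) ⟨_, rfl⟩

end MP7b0bad.SnT
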