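import Pool.Agent.Work.MP_7b0bad_ag.SnT.Stmts

/-!
# MP_7b0bad_ag, project SnT: orbits of a permutation of odd order (item SOrbC)
-/

set_option autoImplicit false

namespace MP7b0bad.SnT

/-- the orbit -/
def SOrbC_O {n : ℕ} (c : Equiv.Perm (Fin n)) (x : Fin n) : Set (Fin n) :=
  {y | ∃ m : ℕ, (c ^ m) x = y}

theorem SOrbC_mem_iff {n : ℕ} (c : Equiv.Perm (Fin n)) (x y : Fin n) :
    y ∈ SOrbC_O c x ↔ c.SameCycle x y := by
  constructor
  · rintro ⟨m, hm⟩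
    exact ⟨m, by rw [zpow_natCast]; exact hm⟩
  · intro h
    obtain ⟨m, -, hm⟩ := h.exists_pow_eq'
    exact ⟨m, hm⟩

theorem SOrbC_eq_orbit {n : ℕ} (c : Equiv.Perm (Fin n)) (x : Fin n) :
    SOrbC_O c x = MulAction.orbit (Subgroup.zpowers c) x := by
  ext y
  rw [SOrbC_mem_iff]
  constructor
  · rintro ⟨m, hm⟩
    exact ⟨⟨c ^ m, m, rfl⟩, hm⟩
  · rintro ⟨⟨_, m, rfl⟩, h⟩
    exact ⟨m, h⟩

theorem SOrbC_odd {n : ℕ} (c : Equiv.Perm (Fin n)) (h : Odd (orderOf c)) (x : Fin n) :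
    Odd (SOrbC_O c x).ncard := by
  have h1 := Nat.card_congr (MulAction.orbitProdStabilizerEquivGroup (Subgroup.zpowers c) x)
  rw [Nat.card_prod, Nat.card_zpowers] at h1
  rw [← h1] at h
  rw [SOrbC_eq_orbit]
  exact (Nat.odd_mul.1 h).1

theorem SOrbC_fix {n : ℕ} {c : Equiv.Perm (Fin n)} {a : Fin n} (h : c a = a) (m : ℕ) :
    (c ^ m) a = a := by
  induction m with
  | zero => rfl
  | succ m ih => rw [pow_succ, Equiv.Perm.mul_apply, h, ih]

theorem prf_SOrbC : SOrbC := by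
  classical
  intro n a b c hab ha hb hodd
  have fin : Finite {O : Set (Fin n) // ∃ x, x ≠ a ∧ x ≠ b ∧ O = SOrbC_O c x} := inferInstance
  refine ⟨{O : Set (Fin n) // ∃ x, x ≠ a ∧ x ≠ b ∧ O = SOrbC_O c x}, Fintype.ofFinite _,
    fun i => i.1, ?_, ?_⟩
  · refine ⟨hab, ha, hb, ?_, ?_, ?_, ?_, ?_, ?_⟩
    · intro x
      by_cases h1 : x = a
      · exact Or.inl h1
      · by_cases h2 : x = b
        · exact Or.inr (Or.inl h2)
        · exact Or.inr (Or.inr ⟨⟨SOrbC_O c x, x, h1, h2, rfl⟩, 0, rfl⟩)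
    · rintro ⟨O, x, h1, h2, rfl⟩ ⟨m, hm⟩
      have : (c ^ m) x = (c ^ m) a := by rw [SOrbC_fix ha]; exact hm
      exact h1 ((c ^ m).injective this)
    · rintro ⟨O, x, h1, h2, rfl⟩ ⟨m, hm⟩
      have : (c ^ m) x = (c ^ m) b := by rw [SOrbC_fix hb]; exact hm
      exact h2 ((c ^ m).injective this)
    · rintro ⟨O, x, h1, h2, rfl⟩ ⟨O', x', h1', h2', rfl⟩ y hy hy'
      apply Subtype.ext
      show SOrbC_O c x = SOrbC_O c x'
      have e1 : c.SameCycle x y := (SOrbC_mem_iff c x y).1 hy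
      have e2 : c.SameCycle x' y := (SOrbC_mem_iff c x' y).1 hy'
      ext u
      rw [SOrbC_mem_iff, SOrbC_mem_iff]
      exact ⟨fun h => (e2.trans e1.symm).trans h, fun h => (e1.trans e2.symm).trans h⟩
    · rintro ⟨O, x, h1, h2, rfl⟩
      exact ⟨x, 0, rfl⟩
    · rintro ⟨O, x, h1, h2, rfl⟩ u hu y
      have e1 : c.SameCycle x u := (SOrbC_mem_iff c x u).1 hu
      show y ∈ SOrbC_O c x ↔ y ∈ SOrbC_O c u
      rw [SOrbC_mem_iff, SOrbC_mem_iff]
      exact ⟨fun h => e1.symm.trans h, fun h => e1.trans h⟩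
  · rintro ⟨O, x, h1, h2, rfl⟩
    exact SOrbC_odd c hodd x

end MP7b0bad.SnT

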