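import Pool.Agent.Work.MP_7b0bad_ag.SnT.Stmts

/-!
# MP_7b0bad_ag, project SnT: homogenisations are coprime
-/

set_option autoImplicit false

open Polynomial

namespace MP7b0bad.SnT

theorem STCop_eval {k : Type} [Field k] (A B q : k[X]) (m : ℕ) (y : k) :
    (T A B m q).eval y =
      ∑ i ∈ Finset.range (m + 1), q.coeff i * A.eval y ^ i * B.eval y ^ (m - i) := by
  unfold T
  rw [eval_finsetSum]
  simp only [eval_mul, eval_pow, eval_C]

theorem STCop_eval_of_ne {k : Type} [Field k] (A B q : k[X]) (m : ℕ) (y : k)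
    (hq : q.natDegree ≤ m) (hB : B.eval y ≠ 0) :
    (T A B m q).eval y = B.eval y ^ m * q.eval (A.eval y / B.eval y) := by
  rw [STCop_eval, eval_eq_sum_range' (Nat.lt_succ_of_le hq), Finset.mul_sum]
  refine Finset.sum_congr rfl fun i hi => ?_
  have hi' : i ≤ m := Nat.lt_succ_iff.1 (Finset.mem_range.1 hi)
  have e2 : B.eval y ^ m = B.eval y ^ (m - i) * B.eval y ^ i := by
    rw [← pow_add, Nat.sub_add_cancel hi']
  rw [e2, div_pow]
  field_simp

theorem STCop_eval_of_eq {k : Type} [Field k] (A B q : k[X]) (m : ℕ) (y : k)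
    (hB : B.eval y = 0) : (T A B m q).eval y = q.coeff m * A.eval y ^ m := by
  rw [STCop_eval, Finset.sum_range_succ, Finset.sum_eq_zero, Nat.sub_self, pow_zero, mul_one,
    zero_add]
  intro i hi
  have hi' : i < m := Finset.mem_range.1 hi
  rw [hB, zero_pow (by omega), mul_zero]

theorem prf_STCop : STCop := by
  intro k _ _ A B a b hAB hab ha hdeg
  rw [isCoprime_iff_aeval_ne_zero_of_isAlgClosed k k]
  intro y
  by_contra h
  push Not at h
  obtain ⟨h1, h2⟩ := h
  rw [coe_aeval_eq_eval] at h1 h2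
  have hAB' := (isCoprime_iff_aeval_ne_zero_of_isAlgClosed k k A B).1 hAB y
  rw [coe_aeval_eq_eval] at hAB'
  by_cases hB : B.eval y = 0
  · rw [STCop_eval_of_eq A B a _ y hB] at h1
    have h3 : a.coeff a.natDegree ≠ 0 := leadingCoeff_ne_zero.2 ha
    rcases hAB' with h4 | h4
    · exact (mul_ne_zero h3 (pow_ne_zero _ h4)) h1
    · exact h4 hB
  · rw [STCop_eval_of_ne A B a _ y le_rfl hB] at h1
    rw [STCop_eval_of_ne A B b _ y hdeg hB] at h2
    have hm := pow_ne_zero a.natDegree hB
    have h5 := (mul_eq_zero.1 h1).resolve_left hm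
    have h6 := (mul_eq_zero.1 h2).resolve_left hm
    have h7 := (isCoprime_iff_aeval_ne_zero_of_isAlgClosed k k a b).1 hab (A.eval y / B.eval y)
    rw [coe_aeval_eq_eval] at h7
    rcases h7 with h7 | h7
    · exact h7 h5
    · exact h7 h6

end MP7b0bad.SnT
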