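import Pool.Agent.Work.MP_7b0bad_ag.SnT.Stmts

/-!
# Degrees of the homogenisation
-/

set_option autoImplicit false

open Polynomial

namespace MP7b0bad.SnT

theorem STDeg_aux {k : Type} [Field k] {A B q : k[X]} {m : ℕ} (hB : B ≠ 0)
    (hAB : B.natDegree < A.natDegree) (hq : q ≠ 0) (hm : q.natDegree ≤ m) :
    (T A B m q).natDegree = (m - q.natDegree) * B.natDegree + q.natDegree * A.natDegree := by
  have hA : A ≠ 0 := by
    rintro rfl
    simp at hAB
  have h1 : T A B m q =
      ∑ i ∈ Finset.range (q.natDegree + 1), C (q.coeff i) * A ^ i * B ^ (m - i) := by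
    unfold T
    symm
    refine Finset.sum_subset (Finset.range_mono (by omega)) fun i _ hi => ?_
    rw [Finset.mem_range, Nat.not_lt] at hi
    rw [coeff_eq_zero_of_natDegree_lt (by omega), C_0, zero_mul, zero_mul]
  have hdeg : ∀ i, (C (q.coeff i) * A ^ i * B ^ (m - i)).natDegree ≤
      i * A.natDegree + (m - i) * B.natDegree := by
    intro i
    refine natDegree_mul_le.trans (Nat.add_le_add ?_ natDegree_pow_le)
    exact (natDegree_C_mul_le _ _).trans natDegree_pow_le
  have htop : (C (q.coeff q.natDegree) * A ^ q.natDegree * B ^ (m - q.natDegree)).natDegree =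
      q.natDegree * A.natDegree + (m - q.natDegree) * B.natDegree := by
    have hc : q.coeff q.natDegree ≠ 0 := by
      rw [coeff_natDegree]; exact leadingCoeff_ne_zero.2 hq
    rw [natDegree_mul (mul_ne_zero (C_ne_zero.2 hc) (pow_ne_zero _ hA)) (pow_ne_zero _ hB),
      natDegree_C_mul hc, natDegree_pow, natDegree_pow]
  rw [h1, Finset.sum_range_succ, add_comm ((m - q.natDegree) * B.natDegree), ← htop]
  rcases Nat.eq_zero_or_pos q.natDegree with h0 | h0
  · rw [h0, Finset.range_zero, Finset.sum_empty, zero_add]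
  · refine natDegree_add_eq_right_of_natDegree_lt ?_
    rw [htop]
    have h2 : (∑ i ∈ Finset.range q.natDegree, C (q.coeff i) * A ^ i * B ^ (m - i)).natDegree ≤
        (q.natDegree - 1) * A.natDegree + (m - (q.natDegree - 1)) * B.natDegree := by
      refine natDegree_sum_le_of_forall_le _ _ fun i hi => (hdeg i).trans ?_
      rw [Finset.mem_range] at hi
      obtain ⟨t, ht⟩ : ∃ t, q.natDegree - 1 = i + t := ⟨q.natDegree - 1 - i, by omega⟩
      obtain ⟨s, hs⟩ : ∃ s, m = i + t + s := ⟨m - (i + t), by omega⟩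
      rw [ht, hs]
      have e1 : i + t + s - i = t + s := by omega
      have e2 : i + t + s - (i + t) = s := by omega
      rw [e1, e2]
      nlinarith [Nat.mul_le_mul_left t hAB.le]
    refine h2.trans_lt ?_
    obtain ⟨t, ht⟩ : ∃ t, q.natDegree = t + 1 := ⟨q.natDegree - 1, by omega⟩
    obtain ⟨s, hs⟩ : ∃ s, m = t + 1 + s := ⟨m - (t + 1), by omega⟩
    rw [ht, hs]
    have e1 : t + 1 - 1 = t := by omega
    have e2 : t + 1 + s - t = s + 1 := by omega
    have e3 : t + 1 + s - (t + 1) = s := by omega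
    rw [e1, e2, e3]
    nlinarith

theorem prf_STDeg : STDeg := fun _ _ _ _ _ _ hB hAB hq hm => STDeg_aux hB hAB hq hm

end MP7b0bad.SnT
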