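import Mathlib

/-!
# Homogenisation of polynomials in one variable and the chain rule
-/

set_option autoImplicit false

open Polynomial

namespace MP7b0bad.SnT

variable {k : Type} [Field k]

/-- `b ^ m * q (a / b)` -/
noncomputable def T (a b : k[X]) (m : ℕ) (q : k[X]) : k[X] :=
  ∑ i ∈ Finset.range (m + 1), C (q.coeff i) * a ^ i * b ^ (m - i)

lemma T_add (a b : k[X]) (m : ℕ) (p q : k[X]) : T a b m (p + q) = T a b m p + T a b m q := by
  unfold T
  rw [← Finset.sum_add_distrib]
  refine Finset.sum_congr rfl fun i _ => ?_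
  rw [coeff_add, C_add]
  ring

lemma T_map (a b : k[X]) (m : ℕ) (q : k[X]) (hb : b ≠ 0) (hq : q.natDegree ≤ m) :
    algebraMap k[X] (RatFunc k) (T a b m q) = algebraMap k[X] (RatFunc k) b ^ m *
      aeval (algebraMap k[X] (RatFunc k) a / algebraMap k[X] (RatFunc k) b) q := by
  have hb' : algebraMap k[X] (RatFunc k) b ≠ 0 := by
    rw [Ne, map_eq_zero_iff _ (IsFractionRing.injective k[X] (RatFunc k))]
    exact hb
  rw [aeval_eq_sum_range' (Nat.lt_succ_of_le hq), Finset.mul_sum, T, map_sum]
  refine Finset.sum_congr rfl fun i hi => ?_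
  have hi' : i ≤ m := Nat.lt_succ_iff.1 (Finset.mem_range.1 hi)
  rw [map_mul, map_mul, map_pow, map_pow, div_pow, Algebra.smul_def]
  have e1 : algebraMap k[X] (RatFunc k) (C (q.coeff i)) = algebraMap k (RatFunc k) (q.coeff i) := by
    rw [IsScalarTower.algebraMap_apply k k[X] (RatFunc k)]
    rfl
  rw [e1]
  have e2 : algebraMap k[X] (RatFunc k) b ^ m =
      algebraMap k[X] (RatFunc k) b ^ (m - i) * algebraMap k[X] (RatFunc k) b ^ i := by
    rw [← pow_add, Nat.sub_add_cancel hi']
  rw [e2]
  field_simp

lemma T_mul (a b : k[X]) (m n : ℕ) (p q : k[X]) (hb : b ≠ 0) (hp : p.natDegree ≤ m)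
    (hq : q.natDegree ≤ n) : T a b m p * T a b n q = T a b (m + n) (p * q) := by
  apply IsFractionRing.injective k[X] (RatFunc k)
  rw [map_mul, T_map a b m p hb hp, T_map a b n q hb hq,
    T_map a b (m + n) (p * q) hb (natDegree_mul_le.trans (Nat.add_le_add hp hq)), map_mul]
  ring

/-- the derivative of the homogenisation -/
lemma T_deriv (a b : k[X]) (m : ℕ) (q : k[X]) :
    b * derivative (T a b (m + 1) q) =
      T a b m (derivative q) * (derivative a * b - a * derivative b) +
        (m + 1 : ℕ) * derivative b * T a b (m + 1) q := by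
  unfold T
  rw [derivative_sum, Finset.mul_sum, Finset.sum_mul, Finset.mul_sum,
    Finset.sum_range_succ' (fun i => b * derivative (C (q.coeff i) * a ^ i * b ^ (m + 1 - i))),
    Finset.sum_range_succ' (fun i => (m + 1 : ℕ) * derivative b *
      (C (q.coeff i) * a ^ i * b ^ (m + 1 - i))), ← add_assoc, ← Finset.sum_add_distrib]
  congr 1
  · refine Finset.sum_congr rfl fun i hi => ?_
    have hi' : i ≤ m := Nat.lt_succ_iff.1 (Finset.mem_range.1 hi)
    obtain ⟨j, rfl⟩ : ∃ j, m = i + j := ⟨m - i, by omega⟩
    have e1 : i + j + 1 - (i + 1) = j := by omega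
    have e2 : i + j - i = j := by omega
    rw [e1, e2, coeff_derivative, derivative_mul, derivative_mul, derivative_C, derivative_pow_succ,
      zero_mul, zero_add]
    rcases j with _ | j
    · simp only [pow_zero, derivative_one, mul_zero, add_zero, mul_one, C_mul, C_add]
      push_cast
      simp only [C_1, map_natCast]
      ring
    · rw [derivative_pow_succ]
      simp only [C_mul, C_add, Nat.cast_add, Nat.cast_one, C_1, map_natCast]
      ring
  · simp only [pow_zero, mul_one, Nat.sub_zero, derivative_mul, derivative_C, zero_mul, zero_add,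
      derivative_pow_succ, C_add, Nat.cast_add, Nat.cast_one, C_1, map_natCast]
    ring

end MP7b0bad.SnT
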