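import Pool.Agent.Work.MP_7b0bad_ag.Bd.B01
import Pool.Agent.Work.MP_7b0bad_ag.SnT.Hom

/-!
# MP_7b0bad_ag, project SnT: inertia groups with wild part generated by a transposition,
characteristic 2

`f = N / D` has degree `2 + ∑ e i`, it is étale over the affine line, its poles are `∞` (order 2)
and `α i` (order `e i`, odd).
-/

set_option autoImplicit false

open Polynomial Pointwise

namespace MP7b0bad.SnT

/-! ## Definitions -/

/-- The polynomials. -/
structure Dat (k : Type) [Field k] {ι : Type} [Fintype ι] (α : ι → k) (e : ι → ℕ)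
    (N D : k[X]) : Prop where
  inj : Function.Injective α
  odd : ∀ i, Odd (e i)
  monic : N.Monic
  deg : N.natDegree = 2 + ∑ i, e i
  hD : D = ∏ i, (X - C (α i)) ^ e i
  cop : IsCoprime N D
  wr : (∏ i, (X - C (α i))) * (derivative N * D - N * derivative D) = D

/-- the constants -/
noncomputable abbrev cc (k : Type) [Field k] (L : Type) [Field L] [Algebra (RatFunc k) L] :
    k →+* L := (algebraMap (RatFunc k) L).comp (algebraMap k (RatFunc k))

/-- the element `x` of `L` -/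
noncomputable abbrev xx (k : Type) [Field k] (L : Type) [Field L] [Algebra (RatFunc k) L] : L :=
  algebraMap (RatFunc k) L RatFunc.X

/-- the polynomial `N - x D` over `k(x)` -/
noncomputable def FF (k : Type) [Field k] (N D : k[X]) : (RatFunc k)[X] :=
  N.map (algebraMap k (RatFunc k)) - C (RatFunc.X : RatFunc k) * D.map (algebraMap k (RatFunc k))

/-- the rational function `N / D` -/
noncomputable def fr (k : Type) [Field k] (N D : k[X]) : RatFunc k :=
  algebraMap k[X] (RatFunc k) N / algebraMap k[X] (RatFunc k) D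

theorem rp_mem {K L : Type} [Field K] [Field L] [Algebra K L] (F : K[X]) (σ : L ≃ₐ[K] L) (y : L)
    (hy : y ∈ F.rootSet L) : σ y ∈ F.rootSet L := by
  rw [mem_rootSet] at hy ⊢
  refine ⟨hy.1, ?_⟩
  have h := Polynomial.aeval_algHom_apply σ.toAlgHom y F
  rw [hy.2, map_zero] at h
  exact h

/-- the action of the Galois group on the roots -/
noncomputable def rp {K L : Type} [Field K] [Field L] [Algebra K L] (F : K[X]) :
    (L ≃ₐ[K] L) →* Equiv.Perm (F.rootSet L) where
  toFun σ :=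
    { toFun := fun y => ⟨σ y, rp_mem F σ y y.2⟩
      invFun := fun y => ⟨σ.symm y, rp_mem F σ.symm y y.2⟩
      left_inv := fun _ => Subtype.ext (σ.symm_apply_apply _)
      right_inv := fun _ => Subtype.ext (σ.apply_symm_apply _) }
  map_one' := rfl
  map_mul' _ _ := rfl

theorem rp_apply {K L : Type} [Field K] [Field L] [Algebra K L] (F : K[X]) (σ : L ≃ₐ[K] L)
    (y : F.rootSet L) : ((rp F σ y : F.rootSet L) : L) = σ y := rfl

theorem aeval_FF (k : Type) [Field k] (N D : k[X]) (L : Type) [Field L] [Algebra (RatFunc k) L]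
    (y : L) : aeval y (FF k N D) = N.eval₂ (cc k L) y - xx k L * D.eval₂ (cc k L) y := by
  rw [FF, map_sub, map_mul, aeval_C, aeval_def, aeval_def, eval₂_map, eval₂_map]

/-- the roots near `c` -/
def Rn (k : Type) [Field k] (N D : k[X]) {L : Type} [Field L] [Algebra (RatFunc k) L]
    (A : ValuationSubring L) (c : k) : Set L :=
  {y | y ∈ (FF k N D).rootSet L ∧ y - cc k L c ∈ A.nonunits}

/-- the roots near infinity -/
def Ri (k : Type) [Field k] (N D : k[X]) {L : Type} [Field L] [Algebra (RatFunc k) L]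
    (A : ValuationSubring L) : Set L := {y | y ∈ (FF k N D).rootSet L ∧ y ∉ A}

/-! ## Polynomials -/

/-- existence of the polynomials -/
def SEx : Prop := ∀ (k : Type) [Field k] [IsAlgClosed k] [CharP k 2] (ι : Type) [Fintype ι]
  (e : ι → ℕ), (∀ i, Odd (e i)) → ∃ (α : ι → k) (N D : k[X]), Dat k α e N D

/-- degrees of the homogenisation -/
def STDeg : Prop := ∀ (k : Type) [Field k] (A B q : k[X]) (m : ℕ), B ≠ 0 →
  B.natDegree < A.natDegree → q ≠ 0 → q.natDegree ≤ m →
  (T A B m q).natDegree = (m - q.natDegree) * B.natDegree + q.natDegree * A.natDegree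

/-- homogenisations are coprime -/
def STCop : Prop := ∀ (k : Type) [Field k] [IsAlgClosed k] (A B a b : k[X]), IsCoprime A B →
  IsCoprime a b → a ≠ 0 → b.natDegree ≤ a.natDegree →
  IsCoprime (T A B a.natDegree a) (T A B a.natDegree b)

/-- the chain rule -/
def STWr : Prop := ∀ (k : Type) [Field k] (A B a b : k[X]) (ν : ℕ), 1 ≤ ν → B ≠ 0 →
  a.natDegree ≤ ν → b.natDegree < ν →
  (derivative a * b - a * derivative b).natDegree ≤ 2 * ν - 2 ∧
  derivative (T A B ν a) * T A B ν b - T A B ν a * derivative (T A B ν b) =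
    (derivative A * B - A * derivative B) *
      T A B (2 * ν - 2) (derivative a * b - a * derivative b)

/-- no decomposition, in terms of polynomials -/
def SNoDecP : Prop := ∀ (k : Type) [Field k] [IsAlgClosed k] [CharP k 2] {ι : Type} [Fintype ι]
  (α : ι → k) (e : ι → ℕ) (N D : k[X]), Dat k α e N D → ∀ (a b A B : k[X]), IsCoprime a b →
  IsCoprime A B → b ≠ 0 → B ≠ 0 → b.natDegree < a.natDegree → B.natDegree < A.natDegree →
  N * T A B a.natDegree b = D * T A B a.natDegree a → a.natDegree = 1 ∨ A.natDegree = 1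

/-! ## Fields -/

/-- normal form of the generator in Lüroth's theorem -/
def SMob : Prop := ∀ (k : Type) [Field k] (M : IntermediateField k (RatFunc k)), M ≠ ⊥ →
  ∃ A B : k[X], IsCoprime A B ∧ B ≠ 0 ∧ B.natDegree < A.natDegree ∧
    M = IntermediateField.adjoin k {fr k A B}

/-- no intermediate fields between `k(f)` and `k(y)` -/
def SNoDec : Prop := ∀ (k : Type) [Field k] [IsAlgClosed k] [CharP k 2] {ι : Type} [Fintype ι]
  (α : ι → k) (e : ι → ℕ) (N D : k[X]), Dat k α e N D →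
  ∀ M : IntermediateField k (RatFunc k), fr k N D ∈ M →
    M = IntermediateField.adjoin k {fr k N D} ∨ M = ⊤

/-- the polynomial is irreducible and separable -/
def SIrr : Prop := ∀ (k : Type) [Field k] {ι : Type} [Fintype ι] (α : ι → k) (e : ι → ℕ)
  (N D : k[X]), Dat k α e N D → (FF k N D).Monic ∧ (FF k N D).natDegree = 2 + ∑ i, e i ∧
    Irreducible (FF k N D) ∧ (FF k N D).Separable

/-- no intermediate fields between `K = k(x)` and `K(y)` -/
def SAtom : Prop := ∀ (k : Type) [Field k] [IsAlgClosed k] [CharP k 2] {ι : Type} [Fintype ι]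
  (α : ι → k) (e : ι → ℕ) (N D : k[X]), Dat k α e N D → ∀ (L : Type) [Field L]
  [Algebra (RatFunc k) L] (y : L), aeval y (FF k N D) = 0 →
  ∀ M : IntermediateField (RatFunc k) L, M ≤ IntermediateField.adjoin (RatFunc k) {y} →
    M = ⊥ ∨ M = IntermediateField.adjoin (RatFunc k) {y}

/-- the Galois group is the full symmetric group -/
def SGal : Prop := ∀ (K L : Type) [Field K] [Field L] [Algebra K L] [FiniteDimensional K L]
  [IsGalois K L] (F : K[X]) [IsSplittingField K L F], Irreducible F →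
  (∀ y ∈ F.rootSet L, ∀ M : IntermediateField K L, M ≤ IntermediateField.adjoin K {y} →
    M = ⊥ ∨ M = IntermediateField.adjoin K {y}) →
  (∃ σ : L ≃ₐ[K] L, ∃ y z : F.rootSet L, y ≠ z ∧ rp F σ y = z ∧ rp F σ z = y ∧
    ∀ w, w ≠ y → w ≠ z → rp F σ w = w) →
  Function.Bijective (rp (L := L) F)

/-! ## Finite places -/

/-- finite places are unramified -/
def SUnr : Prop := ∀ (k : Type) [Field k] {ι : Type} [Fintype ι] (α : ι → k) (e : ι → ℕ)
  (N D : k[X]), Dat k α e N D → ∀ (L : Type) [Field L] [Algebra (RatFunc k) L]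
  [IsSplittingField (RatFunc k) L (FF k N D)] (A : ValuationSubring L), (∀ c : k, cc k L c ∈ A) →
  xx k L ∈ A → ValuationSubring.inertiaSubgroup (RatFunc k) A = ⊥

/-! ## The place at infinity -/

/-- the roots near infinity and near `α i` -/
def SCount : Prop := ∀ (k : Type) [Field k] {ι : Type} [Fintype ι] (α : ι → k) (e : ι → ℕ)
  (N D : k[X]), Dat k α e N D → ∀ (L : Type) [Field L] [Algebra (RatFunc k) L]
  [IsSplittingField (RatFunc k) L (FF k N D)] (A : ValuationSubring L), AtInfty (k := k) A →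
  (Ri k N D A).ncard = 2 ∧ (∀ i, (Rn k N D A (α i)).ncard = e i) ∧
  ∀ y ∈ (FF k N D).rootSet L, y ∈ A → ∃ i, y ∈ Rn k N D A (α i)

/-- values of the roots -/
def SVal : Prop := ∀ (k : Type) [Field k] {ι : Type} [Fintype ι] (α : ι → k) (e : ι → ℕ)
  (N D : k[X]), Dat k α e N D → ∀ (L : Type) [Field L] [Algebra (RatFunc k) L]
  (A : ValuationSubring L), AtInfty (k := k) A →
  (∀ y ∈ Ri k N D A, A.valuation y ^ 2 = A.valuation (xx k L)) ∧
  ∀ i, ∀ y ∈ Rn k N D A (α i), y ≠ cc k L (α i) ∧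
    A.valuation (y - cc k L (α i)) ^ e i * A.valuation (xx k L) = 1

/-- tame roots are separated by the residues -/
def STame : Prop := ∀ (k : Type) [Field k] [CharP k 2] {ι : Type} [Fintype ι] (α : ι → k)
  (e : ι → ℕ) (N D : k[X]), Dat k α e N D → ∀ (L : Type) [Field L] [Algebra (RatFunc k) L]
  (A : ValuationSubring L), AtInfty (k := k) A →
  ∀ i, ∀ y ∈ Rn k N D A (α i), ∀ y' ∈ Rn k N D A (α i),
    (y' - cc k L (α i)) / (y - cc k L (α i)) - 1 ∈ A.nonunits → y' = y

/-- orbits of the decomposition group -/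
def SOrb : Prop := ∀ (k : Type) [Field k] [IsAlgClosed k] [CharP k 2] {ι : Type} [Fintype ι]
  (α : ι → k) (e : ι → ℕ) (N D : k[X]), Dat k α e N D → ∀ (L : Type) [Field L]
  [Algebra (RatFunc k) L] [IsSplittingField (RatFunc k) L (FF k N D)]
  [FiniteDimensional (RatFunc k) L] [IsGalois (RatFunc k) L]
  (A : ValuationSubring L), AtInfty (k := k) A →
  (∀ i, ∀ y ∈ Rn k N D A (α i), ∀ y' ∈ Rn k N D A (α i),
    ∃ σ : L ≃ₐ[RatFunc k] L, σ • A = A ∧ σ y = y') ∧
  ∃ σ : L ≃ₐ[RatFunc k] L, σ • A = A ∧ ∃ y ∈ Ri k N D A, σ y ≠ y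

/-- the tame character of an element -/
def SCharE : Prop := ∀ (k : Type) [Field k] [IsAlgClosed k] (L : Type) [Field L]
  [Algebra (RatFunc k) L] [FiniteDimensional (RatFunc k) L] (A : ValuationSubring L),
  AtInfty (k := k) A → ∀ s : L, s ≠ 0 →
  (∃ m : ℕ, 1 ≤ m ∧ ∃ r : RatFunc k, A.valuation s ^ m = A.valuation (algebraMap _ L r)) →
  ∃ θ : A.decompositionSubgroup (RatFunc k) →* kˣ,
    ∀ σ : A.decompositionSubgroup (RatFunc k),
      (σ : L ≃ₐ[RatFunc k] L) s / s - cc k L (θ σ : k) ∈ A.nonunits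

/-- the tame character -/
def SChar : Prop := ∀ (k : Type) [Field k] [IsAlgClosed k] [CharP k 2] {ι : Type} [Fintype ι]
  (α : ι → k) (e : ι → ℕ) (N D : k[X]), Dat k α e N D → ∀ (L : Type) [Field L]
  [Algebra (RatFunc k) L] [IsSplittingField (RatFunc k) L (FF k N D)]
  [FiniteDimensional (RatFunc k) L] (A : ValuationSubring L), AtInfty (k := k) A →
  ∃ θ : A.decompositionSubgroup (RatFunc k) →* kˣ,
    ∀ σ : A.decompositionSubgroup (RatFunc k), θ σ = 1 → ∀ i, ∀ y ∈ Rn k N D A (α i),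
      (σ : L ≃ₐ[RatFunc k] L) y = y

/-- the decomposition group -/
def SCyc : Prop := ∀ (k : Type) [Field k] [IsAlgClosed k] [CharP k 2] {ι : Type} [Fintype ι]
  (α : ι → k) (e : ι → ℕ) (N D : k[X]), Dat k α e N D → ∀ (L : Type) [Field L]
  [Algebra (RatFunc k) L] [IsSplittingField (RatFunc k) L (FF k N D)]
  [FiniteDimensional (RatFunc k) L] [IsGalois (RatFunc k) L]
  (A : ValuationSubring L), AtInfty (k := k) A →
  ∃ τ c : L ≃ₐ[RatFunc k] L,
    A.decompositionSubgroup (RatFunc k) = Subgroup.closure {τ, c} ∧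
    (∀ i, ∀ y ∈ Rn k N D A (α i), τ y = y) ∧ (∀ y ∈ Ri k N D A, τ y ≠ y) ∧
    (∀ y ∈ Ri k N D A, c y = y) ∧
    ∀ i, ∀ y ∈ Rn k N D A (α i), ∀ y' ∈ Rn k N D A (α i), ∃ m : ℕ, (c ^ m) y = y'

/-- the residue field is `k`: inertia is decomposition -/
def SIner : Prop := ∀ (k : Type) [Field k] [IsAlgClosed k] (L : Type) [Field L]
  [Algebra (RatFunc k) L] [FiniteDimensional (RatFunc k) L] (A : ValuationSubring L),
  AtInfty (k := k) A → (ValuationSubring.inertiaSubgroup (RatFunc k) A).map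
    (ValuationSubring.decompositionSubgroup (RatFunc k) A).subtype =
      A.decompositionSubgroup (RatFunc k)

/-! ## Permutations -/

/-- `a ≠ b` are fixed by `c`, the other orbits of `c` are the sets `S i`. -/
structure Orb {α ι : Type} (a b : α) (c : Equiv.Perm α) (S : ι → Set α) : Prop where
  ne : a ≠ b
  fa : c a = a
  fb : c b = b
  cov : ∀ x, x = a ∨ x = b ∨ ∃ i, x ∈ S i
  na : ∀ i, a ∉ S i
  nb : ∀ i, b ∉ S i
  dis : ∀ i j x, x ∈ S i → x ∈ S j → i = j
  sne : ∀ i, (S i).Nonempty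
  orb : ∀ i, ∀ x ∈ S i, ∀ y, y ∈ S i ↔ ∃ m : ℕ, (c ^ m) x = y

/-- permutations with orbits of the same size are conjugate -/
def SComb : Prop := ∀ (α β ι : Type) [Finite α] [Finite β] (a b : α) (c : Equiv.Perm α)
  (a' b' : β) (c' : Equiv.Perm β) (S : ι → Set α) (S' : ι → Set β), Orb a b c S →
  Orb a' b' c' S' → (∀ i, (S i).ncard = (S' i).ncard) →
  ∃ ψ : α ≃ β, ψ a = a' ∧ ψ b = b' ∧ ∀ x, ψ (c x) = c' (ψ x)

/-- orbits of a permutation of odd order -/
def SOrbC : Prop := ∀ (n : ℕ) (a b : Fin n) (c : Equiv.Perm (Fin n)), a ≠ b → c a = a → c b = b →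
  Odd (orderOf c) → ∃ (ι : Type) (_ : Fintype ι) (S : ι → Set (Fin n)), Orb a b c S ∧
    ∀ i, Odd (S i).ncard

/-- the groups `G₀` of the problem with wild part generated by a transposition -/
def SRed : Prop := ∀ (n : ℕ) (G₀ G₁ : Subgroup (Equiv.Perm (Fin n))), G₁ ≤ G₀ →
  (G₁.subgroupOf G₀).Normal → (∃ a b, a ≠ b ∧ G₁ = Subgroup.zpowers (Equiv.swap a b)) →
  Nat.Coprime (G₁.subgroupOf G₀).index 2 → (∃ g, G₁ ⊔ Subgroup.zpowers g = G₀) →
  ∃ (a b : Fin n) (c : Equiv.Perm (Fin n)), a ≠ b ∧ c a = a ∧ c b = b ∧ Odd (orderOf c) ∧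
    G₀ = Subgroup.closure {Equiv.swap a b, c}

/-! ## The result -/

/-- the result -/
def SMain : Prop := ∀ (k : Type) [Field k] [IsAlgClosed k] [CharP k 2] (n : ℕ)
  (G₀ G₁ : Subgroup (Equiv.Perm (Fin n))), G₁ ≤ G₀ →
  (G₁.subgroupOf G₀).Normal → (∃ a b, a ≠ b ∧ G₁ = Subgroup.zpowers (Equiv.swap a b)) →
  Nat.Coprime (G₁.subgroupOf G₀).index 2 → (∃ g, G₁ ⊔ Subgroup.zpowers g = G₀) →
  Occurs k (Equiv.Perm (Fin n)) G₀

end MP7b0bad.SnT
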