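import Mathlib
import Pool.Agent.Work.MP_7b0bad_ag.SnT.Stmts

/-!
# The chain rule for homogenised polynomials
-/

set_option autoImplicit false

open Polynomial

namespace MP7b0bad.SnT

private lemma STWr_sub {k : Type} [Field k] (a b : k[X]) (m : ℕ) (p q : k[X]) :
    T a b m (p - q) = T a b m p - T a b m q := by
  have h := T_add a b m (p - q) q
  rw [sub_add_cancel] at h
  rw [h, add_sub_cancel_right]

private lemma STWr_zero {k : Type} [Field k] (a b : k[X]) (m : ℕ) : T a b m 0 = 0 := by
  unfold T
  simp

private lemma STWr_lift {k : Type} [Field k] (a b : k[X]) (m : ℕ) (q : k[X]) (hb : b ≠ 0)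
    (hq : q.natDegree ≤ m) : T a b (m + 1) q = b * T a b m q := by
  have h := T_mul a b 1 m 1 q hb (by simp) hq
  have h1 : T a b 1 1 = b := by
    unfold T
    rw [Finset.sum_range_succ, Finset.sum_range_one]
    simp [coeff_one]
  rw [h1, one_mul, add_comm 1 m] at h
  exact h.symm

theorem prf_STWr : STWr := by
  intro k _ A B a b ν hν hB ha hb
  obtain ⟨m, rfl⟩ : ∃ m, ν = m + 1 := ⟨ν - 1, by omega⟩
  have hb' : b.natDegree ≤ m := by omega
  have e2 : 2 * (m + 1) - 2 = 2 * m := by omega
  rw [e2]
  have hda : (derivative a).natDegree ≤ m := (natDegree_derivative_le a).trans (by omega)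
  have hdeg1 : (derivative a * b).natDegree ≤ 2 * m :=
    natDegree_mul_le.trans (by omega)
  have hdb : derivative b = 0 ∨ ∃ n, m = n + 1 ∧ (derivative b).natDegree ≤ n := by
    rcases Nat.eq_zero_or_pos b.natDegree with h0 | h0
    · left
      rw [eq_C_of_natDegree_eq_zero h0, derivative_C]
    · right
      refine ⟨m - 1, by omega, (natDegree_derivative_le b).trans (by omega)⟩
  have hdeg2 : (a * derivative b).natDegree ≤ 2 * m := by
    rcases hdb with h0 | ⟨n, hn, h0⟩
    · rw [h0, mul_zero]; simp
    · exact natDegree_mul_le.trans (by omega)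
  refine ⟨(natDegree_sub_le _ _).trans (max_le hdeg1 hdeg2), ?_⟩
  apply mul_left_cancel₀ hB
  have hP1 := T_deriv A B m a
  have hP2 := T_deriv A B m b
  have hl := STWr_lift A B m b hB hb'
  have hm1 : T A B m (derivative a) * T A B m b = T A B (2 * m) (derivative a * b) := by
    rw [T_mul A B m m _ _ hB hda hb', two_mul]
  have hm2 : T A B (m + 1) a * T A B m (derivative b) = B * T A B (2 * m) (a * derivative b) := by
    rcases hdb with h0 | ⟨n, hn, h0⟩
    · rw [h0, mul_zero, STWr_zero, STWr_zero, mul_zero, mul_zero]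
    · subst hn
      rw [STWr_lift A B n (derivative b) hB h0]
      have h3 := T_mul A B (n + 1 + 1) n a (derivative b) hB ha h0
      have h4 : n + 1 + 1 + n = 2 * (n + 1) := by ring
      rw [h4] at h3
      rw [← h3]
      ring
  rw [STWr_sub]
  linear_combination T A B (m + 1) b * hP1 - T A B (m + 1) a * hP2 +
    (derivative A * B - A * derivative B) * T A B m (derivative a) * hl +
    (derivative A * B - A * derivative B) * B * hm1 -
    (derivative A * B - A * derivative B) * hm2

end MP7b0bad.SnT
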