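import Pool.Agent.Work.MP_7b0bad_ag.SnT.Stmts

/-!
# MP_7b0bad_ag, project SnT : tame roots are separated by the residues
-/

set_option autoImplicit false

open Polynomial

namespace MP7b0bad.SnT

private theorem STame_sub (k : Type) [Field k] (L : Type) [Field L] [Algebra (RatFunc k) L]
    (A : ValuationSubring L) (hc : ∀ c : k, cc k L c ∈ A) (P : k[X]) (y y' : L) (hy : y ∈ A)
    (hy' : y' ∈ A) :
    A.valuation (P.eval₂ (cc k L) y - P.eval₂ (cc k L) y') ≤ A.valuation (y - y') := by
  let cA : k →+* A := (cc k L).codRestrict A.toSubring hc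
  have h1 : ∀ (w : L) (hw : w ∈ A), P.eval₂ (cc k L) w =
      A.subtype (P.eval₂ cA (⟨w, hw⟩ : A)) := by
    intro w hw
    rw [hom_eval₂]
    rfl
  have h2 : (⟨y, hy⟩ : A) - ⟨y', hy'⟩ ∣ P.eval₂ cA (⟨y, hy⟩ : A) - P.eval₂ cA (⟨y', hy'⟩ : A) := by
    rw [← eval_map, ← eval_map]
    exact sub_dvd_eval_sub _ _ _
  obtain ⟨g, hg⟩ := h2
  have h3 : P.eval₂ (cc k L) y - P.eval₂ (cc k L) y' = (y - y') * (g : L) := by
    rw [h1 y hy, h1 y' hy', ← map_sub, hg]
    rfl
  rw [h3, map_mul]
  exact mul_le_of_le_one_right' (A.valuation_le_one g)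

private theorem STame_near (k : Type) [Field k] (L : Type) [Field L] [Algebra (RatFunc k) L]
    (A : ValuationSubring L) (hc : ∀ c : k, cc k L c ∈ A) (P : k[X]) (a : k) (y : L)
    (hy : y ∈ A) (hya : A.valuation (y - cc k L a) < 1) (hP : P.eval a ≠ 0) :
    A.valuation (P.eval₂ (cc k L) y) = 1 := by
  have h1 := STame_sub k L A hc P y (cc k L a) hy (hc a)
  rw [eval₂_at_apply] at h1
  have h2 : A.valuation (cc k L (P.eval a)) = 1 := by
    refine le_antisymm ((A.valuation_le_one_iff _).mpr (hc _)) ?_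
    have h3 : cc k L (P.eval a) ≠ 0 := (_root_.map_ne_zero _).mpr hP
    have h4 : A.valuation (cc k L (P.eval a)) * A.valuation (cc k L (P.eval a)⁻¹) = 1 := by
      rw [← map_mul, ← map_mul, mul_inv_cancel₀ hP, map_one, map_one]
    rw [← h4]
    exact mul_le_of_le_one_right' ((A.valuation_le_one_iff _).mpr (hc _))
  have h5 : P.eval₂ (cc k L) y = cc k L (P.eval a) +
      (P.eval₂ (cc k L) y - cc k L (P.eval a)) := by ring
  rw [h5, Valuation.map_add_eq_of_lt_left, h2]
  rw [h2]
  exact lt_of_le_of_lt h1 hya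

theorem prf_STame : STame := by
  classical
  intro k _ _ ι _ α e N D hD L _ _ A hA i y hy y' hy' hq
  obtain ⟨hc, hx⟩ := hA
  have hc' : ∀ c : k, cc k L c ∈ A := hc
  set v := A.valuation with hv
  set a : L := cc k L (α i) with ha
  obtain ⟨hyr, hyn⟩ := hy
  obtain ⟨hyr', hyn'⟩ := hy'
  rw [ValuationSubring.mem_nonunits_iff] at hyn hyn' hq
  have haA : a ∈ A := hc _
  have hmem : ∀ w : L, A.valuation (w - a) < 1 → w ∈ A := by
    intro w hw
    have h1 : w - a ∈ A := (A.valuation_le_one_iff _).mp hw.le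
    have h2 := A.add_mem _ _ h1 haA
    rwa [sub_add_cancel] at h2
  have hyA := hmem y hyn
  have hyA' := hmem y' hyn'
  -- the other factors
  set G : k[X] := ∏ j ∈ Finset.univ.erase i, (X - C (α j)) ^ e j with hG
  have hDG : D = (X - C (α i)) ^ e i * G := by
    rw [hD.hD, hG, Finset.mul_prod_erase Finset.univ (fun j => (X - C (α j)) ^ e j)
      (Finset.mem_univ i)]
  have he0 : e i ≠ 0 := by
    intro h
    have := hD.odd i
    rw [h] at this
    exact absurd this (by decide)
  have hGi : G.eval (α i) ≠ 0 := by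
    rw [hG, eval_prod, Finset.prod_ne_zero_iff]
    intro j hj
    rw [eval_pow, eval_sub, eval_X, eval_C]
    refine pow_ne_zero _ (sub_ne_zero.mpr fun h => ?_)
    exact (Finset.ne_of_mem_erase hj) (hD.inj h).symm
  have hDi : D.eval (α i) = 0 := by
    rw [hDG, eval_mul, eval_pow, eval_sub, eval_X, eval_C, sub_self, zero_pow he0, zero_mul]
  have hNi : N.eval (α i) ≠ 0 := by
    intro h
    obtain ⟨u, w, huw⟩ := hD.cop
    have h1 := congrArg (eval (α i)) huw
    rw [eval_add, eval_mul, eval_mul, h, hDi, mul_zero, mul_zero, add_zero, eval_one] at h1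
    exact zero_ne_one h1
  have hNy := STame_near k L A hc' N (α i) y hyA hyn hNi
  have hNy' := STame_near k L A hc' N (α i) y' hyA' hyn' hNi
  have hGy := STame_near k L A hc' G (α i) y hyA hyn hGi
  have hGy' := STame_near k L A hc' G (α i) y' hyA' hyn' hGi
  set Ny := N.eval₂ (cc k L) y with hNyd
  set Ny' := N.eval₂ (cc k L) y' with hNyd'
  set Gy := G.eval₂ (cc k L) y with hGyd
  set Gy' := G.eval₂ (cc k L) y' with hGyd'
  have hDe : ∀ w : L, D.eval₂ (cc k L) w = (w - a) ^ e i * G.eval₂ (cc k L) w := by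
    intro w
    rw [hDG, eval₂_mul, eval₂_pow, eval₂_sub, eval₂_X, eval₂_C]
  have hroot : ∀ w ∈ (FF k N D).rootSet L,
      N.eval₂ (cc k L) w = xx k L * ((w - a) ^ e i * G.eval₂ (cc k L) w) := by
    intro w hw
    have h1 := (mem_rootSet.mp hw).2
    rw [aeval_FF, hDe] at h1
    exact sub_eq_zero.mp h1
  have e1 := hroot y hyr
  have e2 := hroot y' hyr'
  rw [← hNyd, ← hGyd] at e1
  rw [← hNyd', ← hGyd'] at e2
  have hz : y - a ≠ 0 := by
    intro h
    rw [h, zero_pow he0, zero_mul, mul_zero] at e1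
    rw [e1, map_zero] at hNy
    exact zero_ne_one hNy
  set z := y - a with hzd
  set ε : L := (y' - a) / z - 1 with hε
  have hz' : y' - a = z * (1 + ε) := by
    rw [hε]
    field_simp
    ring
  have hxne : xx k L ≠ 0 := by
    intro h
    exact hx (by
      have : (algebraMap (RatFunc k) L) RatFunc.X = xx k L := rfl
      rw [this, h]
      exact A.zero_mem)
  -- the relation
  have e3 : Ny * ((1 + ε) ^ e i * Gy') = Ny' * Gy := by
    rw [e1, e2, hz', mul_pow]
    ring
  have e4 : Ny * Gy' * ((1 + ε) ^ e i - 1) = Ny' * Gy - Ny * Gy' := by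
    rw [← e3]
    ring
  have hS : A.valuation (∑ j ∈ Finset.range (e i), (1 + ε) ^ j) = 1 := by
    have h1 : ∀ j : ℕ, A.valuation ((1 + ε) ^ j - 1) < 1 := by
      intro j
      induction j with
      | zero => rw [pow_zero, sub_self, map_zero]; exact zero_lt_one
      | succ j ih =>
        have h2 : (1 + ε) ^ (j + 1) - 1 = (1 + ε) * ((1 + ε) ^ j - 1) + ε := by ring
        rw [h2]
        refine (A.valuation.map_add _ _).trans_lt (max_lt ?_ hq)
        rw [map_mul]
        have h3 : A.valuation (1 + ε) ≤ 1 := by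
          refine (A.valuation.map_add _ _).trans (max_le ?_ hq.le)
          rw [map_one]
        calc A.valuation (1 + ε) * A.valuation ((1 + ε) ^ j - 1)
            ≤ 1 * A.valuation ((1 + ε) ^ j - 1) := mul_le_mul_left h3 _
          _ = A.valuation ((1 + ε) ^ j - 1) := one_mul _
          _ < 1 := ih
    have h4 : ((e i : ℕ) : L) = 1 := by
      have : CharP L 2 := charP_of_injective_ringHom (cc k L).injective 2
      have h2 : (2 : L) = 0 := by exact_mod_cast CharP.cast_eq_zero L 2
      obtain ⟨m, hm⟩ := hD.odd i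
      rw [hm]
      push_cast
      rw [h2, zero_mul, zero_add]
    have h5 : ∑ j ∈ Finset.range (e i), (1 + ε) ^ j =
        1 + ∑ j ∈ Finset.range (e i), ((1 + ε) ^ j - 1) := by
      rw [Finset.sum_sub_distrib, Finset.sum_const, Finset.card_range, nsmul_eq_mul, h4]
      ring
    rw [h5, Valuation.map_add_eq_of_lt_left, map_one]
    rw [map_one]
    exact Valuation.map_sum_lt _ one_ne_zero fun j _ => h1 j
  have hL : A.valuation (Ny * Gy' * ((1 + ε) ^ e i - 1)) = A.valuation ε := by
    have h1 : (1 + ε) ^ e i - 1 = (∑ j ∈ Finset.range (e i), (1 + ε) ^ j) * ε := by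
      have := geom_sum_mul (1 + ε) (e i)
      rw [← this]
      ring
    rw [h1, map_mul, map_mul, map_mul, hNy, hGy', hS, one_mul, one_mul, one_mul]
  have hR : A.valuation (Ny' * Gy - Ny * Gy') ≤ A.valuation z * A.valuation ε := by
    have h1 : Ny' * Gy - Ny * Gy' = (Ny' - Ny) * Gy + Ny * (Gy - Gy') := by ring
    have h2 : A.valuation (Ny' - Ny) ≤ A.valuation (y' - y) :=
      STame_sub k L A hc' N y' y hyA' hyA
    have h3 : A.valuation (Gy - Gy') ≤ A.valuation (y' - y) := by
      rw [A.valuation.map_sub_swap]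
      exact STame_sub k L A hc' G y' y hyA' hyA
    have h4 : A.valuation z * A.valuation ε = A.valuation (y' - y) := by
      rw [← map_mul]
      congr 1
      have : y' - y = (y' - a) - z := by rw [hzd]; ring
      rw [this, hz']
      ring
    rw [h1, h4]
    refine (A.valuation.map_add _ _).trans (max_le ?_ ?_)
    · rw [map_mul, hGy, mul_one]
      exact h2
    · rw [map_mul, hNy, one_mul]
      exact h3
  rw [e4] at hL
  rw [hL] at hR
  have hε0 : ε = 0 := by
    by_contra hne
    have h1 : 0 < A.valuation ε := by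
      rw [zero_lt_iff]
      exact (Valuation.ne_zero_iff _).mpr hne
    have h2 : A.valuation z * A.valuation ε < 1 * A.valuation ε :=
      mul_lt_mul_of_pos_right hyn h1
    rw [one_mul] at h2
    exact absurd hR (not_le.mpr h2)
  rw [hε0, add_zero, mul_one] at hz'
  have : y' = z + a := by rw [← hz']; ring
  rw [this, hzd]
  ring

end MP7b0bad.SnT
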