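import Pool.Agent.Work.MP_7b0bad_ag.SnT.Stmts

/-!
# MP_7b0bad, project SnT: finite places are unramified
-/

set_option autoImplicit false

open Polynomial Pointwise

namespace MP7b0bad.SnT

/-- two different roots with the same residue give a double root of the reduction -/
theorem SUnr_double {A κ : Type} [CommRing A] [IsDomain A] [CommRing κ] (r : A →+* κ)
    (F : A[X]) (y y' : A) (hy : F.eval y = 0) (hy' : F.eval y' = 0) (hne : y' ≠ y)
    (hr : r y' = r y) :
    (F.map r).eval (r y) = 0 ∧ (derivative (F.map r)).eval (r y) = 0 := by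
  obtain ⟨G, hG⟩ := dvd_iff_isRoot.2 (show F.IsRoot y from hy)
  have h1 : G.eval y' = 0 := by
    have h2 := hy'
    rw [hG, eval_mul, eval_sub, eval_X, eval_C] at h2
    rcases mul_eq_zero.1 h2 with h3 | h3
    · exact absurd (sub_eq_zero.1 h3) hne
    · exact h3
  have h2 : (G.map r).eval (r y) = 0 := by
    rw [← hr, eval_map_apply, h1, map_zero]
  have h3 : F.map r = (X - C (r y)) * G.map r := by
    rw [hG, Polynomial.map_mul, Polynomial.map_sub, map_X, map_C]
  constructor
  · rw [h3, eval_mul, eval_sub, eval_X, eval_C, sub_self, zero_mul]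
  · rw [h3, derivative_mul, eval_add, eval_mul, eval_mul, h2, eval_sub, eval_X, eval_C, sub_self,
      zero_mul, mul_zero, add_zero]

/-- the reduction has no double root -/
theorem SUnr_nodouble {k : Type} [Field k] {ι : Type} [Fintype ι] {α : ι → k} {e : ι → ℕ}
    {N D : k[X]} (hD : Dat k α e N D) {κ : Type} [CommRing κ] [Nontrivial κ] (j : k →+* κ)
    (x c : κ) (h0 : (N.map j - C x * D.map j).eval c = 0)
    (h1 : (derivative (N.map j - C x * D.map j)).eval c = 0) : False := by
  rw [eval_sub, eval_mul, eval_C, sub_eq_zero] at h0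
  rw [derivative_sub, derivative_C_mul, eval_sub, eval_mul, eval_C, sub_eq_zero, derivative_map,
    derivative_map] at h1
  have h2 := congrArg (fun p : k[X] => (p.map j).eval c) hD.wr
  simp only [Polynomial.map_mul, Polynomial.map_sub, eval_mul, eval_sub] at h2
  rw [h0, h1] at h2
  have h3 : (D.map j).eval c = 0 := by
    rw [← h2]
    ring
  rw [h3, mul_zero] at h0
  obtain ⟨u, v, huv⟩ := hD.cop
  have h4 := congrArg (fun p : k[X] => (p.map j).eval c) huv
  simp only [Polynomial.map_add, Polynomial.map_mul, eval_add, eval_mul, Polynomial.map_one,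
    eval_one] at h4
  rw [h0, h3, mul_zero, mul_zero, add_zero] at h4
  exact zero_ne_one h4

theorem SUnr_deg {k : Type} [Field k] {ι : Type} [Fintype ι] {α : ι → k} {e : ι → ℕ}
    {N D : k[X]} (hD : Dat k α e N D) : D.natDegree < N.natDegree := by
  rw [hD.deg]
  have h : D.natDegree ≤ ∑ i, e i := by
    rw [hD.hD]
    refine (natDegree_prod_le _ _).trans (Finset.sum_le_sum fun i _ => ?_)
    refine natDegree_pow_le.trans ?_
    rw [natDegree_X_sub_C, mul_one]
  omega

theorem prf_SUnr : SUnr := by
  intro k _ ι _ α e N D hD L _ _ _ A hk hx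
  let cA : k →+* A := (cc k L).codRestrict A.toSubring hk
  let xA : A := ⟨xx k L, hx⟩
  let FA : A[X] := N.map cA - C xA * D.map cA
  have hcA : (algebraMap A L).comp cA = cc k L := RingHom.ext fun a => rfl
  have hFm : FA.Monic := by
    refine Monic.sub_of_left (hD.monic.map _) (degree_lt_degree ?_)
    rw [hD.monic.natDegree_map]
    exact (natDegree_C_mul_le _ _).trans_lt ((natDegree_map_le).trans_lt (SUnr_deg hD))
  have hev : ∀ y : L, aeval y (FF k N D) = 0 → FA.eval₂ (algebraMap A L) y = 0 := by
    intro y hy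
    rw [aeval_FF] at hy
    rw [eval₂_sub, eval₂_mul, eval₂_C, eval₂_map, eval₂_map, hcA]
    exact hy
  have hmem : ∀ y : L, aeval y (FF k N D) = 0 → y ∈ A := by
    intro y hy
    obtain ⟨z, hz⟩ := IsIntegrallyClosed.isIntegral_iff.1
      (show IsIntegral A y from ⟨FA, hFm, hev y hy⟩)
    rw [← hz]
    exact z.2
  have hroot : ∀ y : A, aeval (y : L) (FF k N D) = 0 → FA.eval y = 0 := by
    intro y hy
    have h1 := hev y hy
    have h2 : FA.eval₂ (algebraMap A L) (algebraMap A L y) = 0 := h1
    rw [eval₂_at_apply] at h2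
    exact (map_eq_zero_iff _ (IsFractionRing.injective A L)).1 h2
  rw [Subgroup.eq_bot_iff_forall]
  intro s hs
  have hs' : ∀ r : A, IsLocalRing.residue A (s • r) = IsLocalRing.residue A r := by
    intro r
    rw [IsLocalRing.ResidueField.residue_smul]
    have h3 : MulSemiringAction.toRingAut (A.decompositionSubgroup (RatFunc k))
        (IsLocalRing.ResidueField A) s = 1 := hs
    have h4 := RingEquiv.congr_fun h3 (IsLocalRing.residue A r)
    exact h4
  have hfix : ∀ y ∈ (FF k N D).rootSet L, (s : L ≃ₐ[RatFunc k] L) y = y := by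
    intro y hy
    have h1 : aeval y (FF k N D) = 0 := (mem_rootSet.1 hy).2
    have h2 : aeval ((s : L ≃ₐ[RatFunc k] L) y) (FF k N D) = 0 :=
      (mem_rootSet.1 (rp_mem _ (s : L ≃ₐ[RatFunc k] L) y hy)).2
    by_contra hne
    let yA : A := ⟨y, hmem y h1⟩
    have hsy : ((s • yA : A) : L) = (s : L ≃ₐ[RatFunc k] L) y := rfl
    have h3 := SUnr_double (IsLocalRing.residue A) FA yA (s • yA) (hroot yA h1)
      (hroot _ (by rw [hsy]; exact h2)) (fun h => hne (by rw [← hsy, h])) (hs' yA)
    have h4 : FA.map (IsLocalRing.residue A) =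
        N.map ((IsLocalRing.residue A).comp cA) -
          C (IsLocalRing.residue A xA) * D.map ((IsLocalRing.residue A).comp cA) := by
      rw [Polynomial.map_sub, Polynomial.map_mul, map_C, Polynomial.map_map, Polynomial.map_map]
    rw [h4] at h3
    exact SUnr_nodouble hD _ _ _ h3.1 h3.2
  apply Subtype.ext
  have h5 : ((s : L ≃ₐ[RatFunc k] L) : L →ₐ[RatFunc k] L) = AlgHom.id (RatFunc k) L := by
    refine AlgHom.ext_of_adjoin_eq_top (IsSplittingField.adjoin_rootSet L (FF k N D)) ?_
    intro y hy
    exact hfix y hy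
  ext y
  exact DFunLike.congr_fun h5 y

end MP7b0bad.SnT
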