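import Pool.Agent.Work.MP_7b0bad_ag.SnT.Stmts

/-!
# MP_7b0bad_ag, project SnT: values of the roots
-/

set_option autoImplicit false

open Polynomial Pointwise

namespace MP7b0bad.SnT

section

variable {k : Type} [Field k] {L : Type} [Field L] [Algebra (RatFunc k) L]
  {A : ValuationSubring L}

theorem SVal_const_le (hA : AtInfty (k := k) A) (c : k) : A.valuation (cc k L c) ≤ 1 :=
  (A.valuation_le_one_iff _).2 (hA.1 c)

theorem SVal_const_eq (hA : AtInfty (k := k) A) {c : k} (hc : c ≠ 0) :
    A.valuation (cc k L c) = 1 := by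
  have h1 := SVal_const_le hA c
  have h2 := SVal_const_le hA c⁻¹
  have h3 : A.valuation (cc k L c) * A.valuation (cc k L c⁻¹) = 1 := by
    rw [← map_mul, ← map_mul, mul_inv_cancel₀ hc, map_one, map_one]
  refine le_antisymm h1 ?_
  rw [← h3]
  exact mul_le_of_le_one_right' h2

theorem SVal_poly_mem (hA : AtInfty (k := k) A) {y : L} (hy : y ∈ A) (Q : k[X]) :
    Q.eval₂ (cc k L) y ∈ A := by
  rw [eval₂_eq_sum_range]
  refine sum_mem fun i _ => ?_
  exact A.mul_mem _ _ (hA.1 _) (pow_mem hy i)

theorem SVal_monic (hA : AtInfty (k := k) A) {y : L} (hy : y ∉ A) {Q : k[X]} (hQ : Q.Monic) :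
    A.valuation (Q.eval₂ (cc k L) y) = A.valuation y ^ Q.natDegree := by
  have hy1 : 1 < A.valuation y := by
    rw [← not_le, A.valuation_le_one_iff]
    exact hy
  rw [eval₂_eq_sum_range, Finset.sum_range_succ, hQ.coeff_natDegree, map_one, one_mul]
  have h1 : A.valuation (∑ i ∈ Finset.range Q.natDegree, cc k L (Q.coeff i) * y ^ i) <
      A.valuation (y ^ Q.natDegree) := by
    refine Valuation.map_sum_lt _ ?_ fun i hi => ?_
    · rw [map_pow]
      exact pow_ne_zero _ (ne_of_gt (lt_trans zero_lt_one hy1))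
    · rw [map_mul, map_pow, map_pow]
      calc A.valuation (cc k L (Q.coeff i)) * A.valuation y ^ i
          ≤ 1 * A.valuation y ^ i := mul_le_mul_left (SVal_const_le hA _) _
        _ = A.valuation y ^ i := one_mul _
        _ < A.valuation y ^ Q.natDegree := pow_lt_pow_right₀ hy1 (Finset.mem_range.1 hi)
  rw [Valuation.map_add_eq_of_lt_right _ h1, map_pow]

theorem SVal_D {ι : Type} [Fintype ι] (α : ι → k) (e : ι → ℕ) (y : L) :
    A.valuation ((∏ i, (X - C (α i)) ^ e i : k[X]).eval₂ (cc k L) y) =
      ∏ i, A.valuation (y - cc k L (α i)) ^ e i := by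
  rw [eval₂_finset_prod, map_prod]
  refine Finset.prod_congr rfl fun i _ => ?_
  rw [eval₂_pow, eval₂_sub, eval₂_X, eval₂_C, map_pow]

theorem SVal_root {N D : k[X]} {y : L} (hy : y ∈ (FF k N D).rootSet L) :
    N.eval₂ (cc k L) y = xx k L * D.eval₂ (cc k L) y := by
  have h := (mem_rootSet.1 hy).2
  rw [aeval_FF, sub_eq_zero] at h
  exact h

end

theorem prf_SVal : SVal := by
  intro k _ ι _ α e N D hd L _ _ A hA
  constructor
  · rintro y ⟨hy, hyA⟩
    have hy1 : 1 < A.valuation y := by
      rw [← not_le, A.valuation_le_one_iff]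
      exact hyA
    have hy0 : A.valuation y ≠ 0 := ne_of_gt (lt_trans zero_lt_one hy1)
    have h1 := congrArg A.valuation (SVal_root hy)
    rw [SVal_monic hA hyA hd.monic, map_mul, hd.hD, SVal_D, hd.deg] at h1
    have h2 : ∀ i, A.valuation (y - cc k L (α i)) = A.valuation y := by
      intro i
      exact Valuation.map_sub_eq_of_lt_left _ (lt_of_le_of_lt (SVal_const_le hA _) hy1)
    simp only [h2] at h1
    rw [Finset.prod_pow_eq_pow_sum, pow_add] at h1
    exact mul_right_cancel₀ (pow_ne_zero _ hy0) h1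
  · rintro i y ⟨hy, hyi⟩
    have hlt : A.valuation (y - cc k L (α i)) < 1 := (ValuationSubring.mem_nonunits_iff A).1 hyi
    have hroot := SVal_root hy
    have hD0 : D.eval (α i) = 0 := by
      rw [hd.hD, eval_prod]
      refine Finset.prod_eq_zero (Finset.mem_univ i) ?_
      rw [eval_pow, eval_sub, eval_X, eval_C, sub_self]
      exact zero_pow (hd.odd i).pos.ne'
    have hN0 : N.eval (α i) ≠ 0 := by
      intro h
      obtain ⟨u, w, huw⟩ := hd.cop
      have := congrArg (fun p : k[X] => p.eval (α i)) huw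
      simp only [eval_add, eval_mul, h, hD0, mul_zero, add_zero, eval_one] at this
      exact zero_ne_one this
    have hne : y ≠ cc k L (α i) := by
      intro h
      rw [h, eval₂_at_apply, eval₂_at_apply, hD0, map_zero, mul_zero] at hroot
      exact hN0 ((map_eq_zero _).1 hroot)
    refine ⟨hne, ?_⟩
    have hyA : y ∈ A := by
      have := A.add_mem _ _ (A.nonunits_subset hyi) (hA.1 (α i))
      change y - cc k L (α i) + cc k L (α i) ∈ A at this
      rwa [sub_add_cancel] at this
    -- the value of `N y`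
    have hNv : A.valuation (N.eval₂ (cc k L) y) = 1 := by
      obtain ⟨Q, hQ⟩ := X_sub_C_dvd_sub_C_eval (p := N) (a := α i)
      have h1 := congrArg (fun p : k[X] => p.eval₂ (cc k L) y) hQ
      simp only [eval₂_sub, eval₂_mul, eval₂_X, eval₂_C] at h1
      have h2 : N.eval₂ (cc k L) y = (y - cc k L (α i)) * Q.eval₂ (cc k L) y +
          cc k L (N.eval (α i)) := by rw [← h1]; ring
      have h3 : A.valuation ((y - cc k L (α i)) * Q.eval₂ (cc k L) y) <
          A.valuation (cc k L (N.eval (α i))) := by
        rw [SVal_const_eq hA hN0, map_mul]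
        have h4 : A.valuation (Q.eval₂ (cc k L) y) ≤ 1 :=
          (A.valuation_le_one_iff _).2 (SVal_poly_mem hA hyA Q)
        exact lt_of_le_of_lt (mul_le_of_le_one_right' h4) hlt
      rw [h2, Valuation.map_add_eq_of_lt_right _ h3, SVal_const_eq hA hN0]
    have h5 : ∏ j, A.valuation (y - cc k L (α j)) ^ e j =
        A.valuation (y - cc k L (α i)) ^ e i := by
      refine Finset.prod_eq_single i (fun j _ hj => ?_) fun h => absurd (Finset.mem_univ i) h
      have h6 : y - cc k L (α j) = (y - cc k L (α i)) + cc k L (α i - α j) := by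
        rw [map_sub]; ring
      have h7 : α i - α j ≠ 0 := fun h => hj (hd.inj (sub_eq_zero.1 h)).symm
      have h8 : A.valuation (y - cc k L (α j)) = 1 := by
        rw [h6, Valuation.map_add_eq_of_lt_right _ (by rw [SVal_const_eq hA h7]; exact hlt),
          SVal_const_eq hA h7]
      rw [h8, one_pow]
    have h9 := congrArg A.valuation hroot
    rw [hNv, map_mul, hd.hD, SVal_D, h5] at h9
    rw [mul_comm]
    exact h9.symm

end MP7b0bad.SnT
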