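import Pool.Agent.Work.MP_7b0bad_ag.SnT.Stmts
import Pool.Agent.Work.MP_7b0bad_ag.SnT.SIrr
import Pool.Agent.Work.MP_7b0bad_ag.SnT.SVal

/-!
# MP_7b0bad_ag, project SnT: the numbers of roots near infinity and near the `α i`

The value of `FF` at `α i` is the product of the `α i - y`; its valuation is one, so the values of
the roots (SVal) give linear equations for the numbers of roots.
-/

set_option autoImplicit false

open Polynomial Pointwise

namespace MP7b0bad.SnT

private theorem SCount_arith {ι : Type} [Fintype ι] (e m : ι → ℕ) (n : ℕ)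
    (h1 : n + ∑ i, m i = 2 + ∑ i, e i) (h2 : ∀ i, n * e i = 2 * m i) :
    n = 2 ∧ ∀ i, m i = e i := by
  have h3 : n * ∑ i, e i = 2 * ∑ i, m i := by
    rw [Finset.mul_sum, Finset.mul_sum]
    exact Finset.sum_congr rfl fun i _ => h2 i
  have h4 : n = 2 := by
    have h5 : n * (∑ i, e i + 2) = 2 * (∑ i, e i + 2) := by
      rw [mul_add, h3]
      omega
    exact Nat.eq_of_mul_eq_mul_right (by omega) h5
  subst h4
  exact ⟨rfl, fun i => by have := h2 i; omega⟩

private theorem SCount_val {Γ : Type} [LinearOrderedCommGroupWithZero Γ] {γ P Q : Γ}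
    {n m e : ℕ} (hγ : 1 < γ) (hP : P ^ 2 = γ ^ n) (hQ : Q ^ e * γ ^ m = 1) (hPQ : P * Q = 1) :
    n * e = 2 * m := by
  have h1 : γ ^ (n * e) * Q ^ (2 * e) = 1 := by
    rw [pow_mul, ← hP, ← pow_mul, ← mul_pow, hPQ, one_pow]
  have h2 : γ ^ (2 * m) * Q ^ (2 * e) = 1 := by
    rw [mul_comm 2 m, mul_comm 2 e, pow_mul, pow_mul, ← mul_pow, mul_comm, hQ, one_pow]
  have h3 : Q ^ (2 * e) ≠ 0 := right_ne_zero_of_mul_eq_one h1
  have h4 := mul_right_cancel₀ h3 (h1.trans h2.symm)
  exact (pow_right_strictMono₀ hγ).injective h4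

theorem prf_SCount : SCount := by
  intro k _ ι _ α e N D hd L _ _ _ A hA
  classical
  obtain ⟨hmonic, hdeg, -, hsep⟩ := prf_SIrr k α e N D hd
  obtain ⟨hvi, hvn⟩ := prf_SVal k α e N D hd L A hA
  have hspl : ((FF k N D).map (algebraMap (RatFunc k) L)).Splits :=
    IsSplittingField.splits L (FF k N D)
  set F := FF k N D with hF
  set R : Finset L := (F.aroots L).toFinset with hR
  have hRmem : ∀ y, y ∈ R ↔ y ∈ F.rootSet L := by
    intro y
    rw [rootSet_def, Finset.mem_coe]
  have hnod : (F.aroots L).Nodup := by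
    rw [aroots_def]
    exact nodup_roots hsep.map
  have hcard : R.card = 2 + ∑ i, e i := by
    rw [hR, Multiset.toFinset_card_of_nodup hnod, aroots_def, ← hspl.natDegree_eq_card_roots,
      natDegree_map, hdeg]
  have hprod : ∀ c : L, aeval c F = ∏ y ∈ R, (c - y) := by
    intro c
    rw [hspl.aeval_eq_prod_aroots_of_monic hmonic, Finset.prod_eq_multiset_prod, hR,
      Multiset.toFinset_val, hnod.dedup]
  -- values
  have hx1 : 1 < A.valuation (xx k L) := by
    rw [← not_le, A.valuation_le_one_iff]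
    exact hA.2
  -- the roots in `A`
  have hnear : ∀ y ∈ R, y ∈ A → ∃ i, y - cc k L (α i) ∈ A.nonunits := by
    intro y hy hyA
    by_contra hcon
    push Not at hcon
    have h1 : ∀ i, A.valuation (y - cc k L (α i)) = 1 := by
      intro i
      refine le_antisymm ((A.valuation_le_one_iff _).2 (sub_mem hyA (hA.1 _))) ?_
      rw [← not_lt, ← ValuationSubring.mem_nonunits_iff]
      exact hcon i
    have h2 := congrArg A.valuation (SVal_root ((hRmem y).1 hy))
    have h3 : A.valuation (N.eval₂ (cc k L) y) ≤ 1 :=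
      (A.valuation_le_one_iff _).2 (SVal_poly_mem hA hyA N)
    rw [map_mul, hd.hD, SVal_D] at h2
    simp only [h1, one_pow, Finset.prod_const_one, mul_one] at h2
    rw [h2] at h3
    exact absurd h3 (not_le.2 hx1)
  set Rinf : Finset L := R.filter fun y => y ∉ A with hRinf
  set RA : Finset L := R.filter fun y => y ∈ A with hRA
  set Rc : ι → Finset L := fun i => R.filter fun y => y - cc k L (α i) ∈ A.nonunits with hRc
  have hRcA : ∀ i, ∀ y, y - cc k L (α i) ∈ A.nonunits → y ∈ A := by
    intro i y hy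
    have := A.add_mem _ _ (A.nonunits_subset hy) (hA.1 (α i))
    change y - cc k L (α i) + cc k L (α i) ∈ A at this
    rwa [sub_add_cancel] at this
  have hRAu : RA = Finset.univ.biUnion Rc := by
    ext y
    simp only [hRA, hRc, Finset.mem_filter, Finset.mem_biUnion, Finset.mem_univ, true_and]
    constructor
    · rintro ⟨h1, h2⟩
      obtain ⟨i, hi⟩ := hnear y h1 h2
      exact ⟨i, h1, hi⟩
    · rintro ⟨i, h1, h2⟩
      exact ⟨h1, hRcA i y h2⟩
  have hdisj : ∀ i ∈ (Finset.univ : Finset ι), ∀ j ∈ (Finset.univ : Finset ι), i ≠ j →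
      Disjoint (Rc i) (Rc j) := by
    intro i _ j _ hij
    rw [Finset.disjoint_left]
    intro y hyi hyj
    have h1 := (Finset.mem_filter.1 hyi).2
    have h2 := (Finset.mem_filter.1 hyj).2
    rw [ValuationSubring.mem_nonunits_iff] at h1 h2
    have h3 : α j - α i ≠ 0 := fun h => hij (hd.inj (sub_eq_zero.1 h)).symm
    have h4 : A.valuation ((y - cc k L (α i)) - (y - cc k L (α j))) < 1 :=
      Valuation.map_sub_lt _ h1 h2
    have h5 : (y - cc k L (α i)) - (y - cc k L (α j)) = cc k L (α j - α i) := by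
      rw [map_sub]; ring
    rw [h5, SVal_const_eq hA h3] at h4
    exact lt_irrefl _ h4
  have hRAcard : RA.card = ∑ i, (Rc i).card := by
    rw [hRAu, Finset.card_biUnion hdisj]
  have hsum : Rinf.card + ∑ i, (Rc i).card = 2 + ∑ i, e i := by
    rw [← hRAcard, ← hcard, add_comm]
    exact Finset.card_filter_add_card_filter_not (s := R) (fun y => y ∈ A)
  have heq : ∀ i, Rinf.card * e i = 2 * (Rc i).card := by
    intro i
    have hD0 : D.eval (α i) = 0 := by
      rw [hd.hD, eval_prod]
      refine Finset.prod_eq_zero (Finset.mem_univ i) ?_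
      rw [eval_pow, eval_sub, eval_X, eval_C, sub_self]
      exact zero_pow (hd.odd i).pos.ne'
    have hN0 : N.eval (α i) ≠ 0 := by
      intro h
      obtain ⟨u, w, huw⟩ := hd.cop
      have := congrArg (fun p : k[X] => p.eval (α i)) huw
      simp only [eval_add, eval_mul, h, hD0, mul_zero, add_zero, eval_one] at this
      exact zero_ne_one this
    have h1 : A.valuation (aeval (cc k L (α i)) F) = 1 := by
      rw [hF, aeval_FF, eval₂_at_apply, eval₂_at_apply, hD0, map_zero, mul_zero, sub_zero,
        SVal_const_eq hA hN0]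
    rw [hprod, map_prod] at h1
    have h2 := Finset.prod_filter_mul_prod_filter_not R (fun y => y ∈ A)
      (fun y => A.valuation (cc k L (α i) - y))
    rw [h1, mul_comm] at h2
    have h3 : ∏ y ∈ RA, A.valuation (cc k L (α i) - y) =
        ∏ y ∈ Rc i, A.valuation (cc k L (α i) - y) := by
      symm
      refine Finset.prod_subset ?_ ?_
      · intro y hy
        rw [hRAu]
        exact Finset.mem_biUnion.2 ⟨i, Finset.mem_univ i, hy⟩
      · intro y hy hyn
        have h4 := Finset.mem_filter.1 hy
        have h5 : y - cc k L (α i) ∉ A.nonunits := fun h =>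
          hyn (Finset.mem_filter.2 ⟨h4.1, h⟩)
        rw [Valuation.map_sub_swap]
        refine le_antisymm ((A.valuation_le_one_iff _).2 (sub_mem h4.2 (hA.1 _))) ?_
        rw [← not_lt, ← ValuationSubring.mem_nonunits_iff]
        exact h5
    rw [h3] at h2
    refine SCount_val hx1 (P := ∏ y ∈ Rinf, A.valuation (cc k L (α i) - y))
      (Q := ∏ y ∈ Rc i, A.valuation (cc k L (α i) - y)) ?_ ?_ h2
    · rw [← Finset.prod_pow, ← Finset.prod_const]
      refine Finset.prod_congr rfl fun y hy => ?_
      have h4 := Finset.mem_filter.1 hy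
      have h5 : 1 < A.valuation y := by
        rw [← not_le, A.valuation_le_one_iff]
        exact h4.2
      rw [Valuation.map_sub_eq_of_lt_right _ (lt_of_le_of_lt (SVal_const_le hA _) h5)]
      exact hvi y ⟨(hRmem y).1 h4.1, h4.2⟩
    · rw [← Finset.prod_pow, ← Finset.prod_const, ← Finset.prod_mul_distrib]
      refine Finset.prod_eq_one fun y hy => ?_
      have h4 := Finset.mem_filter.1 hy
      rw [Valuation.map_sub_swap]
      exact (hvn i y ⟨(hRmem y).1 h4.1, h4.2⟩).2
  obtain ⟨hn, hm⟩ := SCount_arith e (fun i => (Rc i).card) Rinf.card hsum heq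
  refine ⟨?_, ?_, ?_⟩
  · have : Ri k N D A = ↑Rinf := by
      ext y
      rw [Finset.mem_coe, hRinf, Finset.mem_filter, hRmem]
      rfl
    rw [this, Set.ncard_coe_finset, hn]
  · intro i
    have : Rn k N D A (α i) = ↑(Rc i) := by
      ext y
      rw [Finset.mem_coe, hRc, Finset.mem_filter, hRmem]
      rfl
    rw [this, Set.ncard_coe_finset, hm i]
  · intro y hy hyA
    obtain ⟨i, hi⟩ := hnear y ((hRmem y).2 hy) hyA
    exact ⟨i, hy, hi⟩

end MP7b0bad.SnT
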