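import Pool.Agent.Work.MP_7b0bad_ag.SnT.Stmts

/-!
# MP_7b0bad_ag, project SnT: the groups with wild part generated by a transposition
-/

set_option autoImplicit false

namespace MP7b0bad.SnT

theorem SRed_mem {n : ℕ} {a b : Fin n} {x : Equiv.Perm (Fin n)}
    (hx : x ∈ Subgroup.zpowers (Equiv.swap a b)) : x = 1 ∨ x = Equiv.swap a b := by
  obtain ⟨k, rfl⟩ := Subgroup.mem_zpowers_iff.1 hx
  have h2 : Equiv.swap a b ^ (2 : ℤ) = 1 := by
    rw [zpow_ofNat, pow_two, Equiv.swap_mul_self]
  rcases Int.even_or_odd' k with ⟨m, rfl | rfl⟩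
  · left
    rw [zpow_mul, h2, one_zpow]
  · right
    rw [zpow_add, zpow_mul, h2, one_zpow, one_mul, zpow_one]

theorem SRed_swap {n : ℕ} {a b : Fin n} {g : Equiv.Perm (Fin n)}
    (h : Equiv.swap (g a) (g b) = Equiv.swap a b) (hab : a ≠ b) :
    (g a = a ∧ g b = b) ∨ (g a = b ∧ g b = a) := by
  have h1 := congrArg (fun s : Equiv.Perm (Fin n) => s (g a)) h
  simp only [Equiv.swap_apply_left] at h1
  have hne : g b ≠ g a := fun e => hab (g.injective e).symm
  by_cases ha : g a = a
  · left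
    refine ⟨ha, ?_⟩
    rw [h1, ha, Equiv.swap_apply_left]
  · by_cases hb : g a = b
    · right
      refine ⟨hb, ?_⟩
      rw [h1, hb, Equiv.swap_apply_right]
    · exfalso
      rw [Equiv.swap_apply_of_ne_of_ne ha hb] at h1
      exact hne h1

theorem prf_SRed : SRed := by
  intro n G₀ G₁ hle hnor hex hco hg
  obtain ⟨a, b, hab, rfl⟩ := hex
  obtain ⟨g, hg⟩ := hg
  have hgm : g ∈ G₀ := by
    rw [← hg]
    exact (le_sup_right : Subgroup.zpowers g ≤ _) (Subgroup.mem_zpowers g)
  have htm : Equiv.swap a b ∈ G₀ := hle (Subgroup.mem_zpowers _)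
  -- `g` commutes with the transposition
  have hconj : g * Equiv.swap a b * g⁻¹ = Equiv.swap a b := by
    have h1 := hnor.conj_mem ⟨Equiv.swap a b, htm⟩
      (Subgroup.mem_subgroupOf.2 (Subgroup.mem_zpowers _)) ⟨g, hgm⟩
    have h2 : g * Equiv.swap a b * g⁻¹ ∈ Subgroup.zpowers (Equiv.swap a b) :=
      Subgroup.mem_subgroupOf.1 h1
    rcases SRed_mem h2 with h3 | h3
    · exfalso
      have h4 : Equiv.swap a b = 1 := by
        have h5 : g * Equiv.swap a b = g := by
          rw [mul_inv_eq_one] at h3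
          exact h3
        exact mul_eq_left.1 h5
      exact hab (Equiv.swap_eq_one_iff.1 h4)
    · exact h3
  have hsw : Equiv.swap (g a) (g b) = Equiv.swap a b := by
    have h1 := hconj
    rw [Equiv.mul_swap_eq_swap_mul, mul_inv_cancel_right] at h1
    exact h1
  have hfix : (g ^ 2) a = a ∧ (g ^ 2) b = b := by
    rw [pow_two]
    rcases SRed_swap hsw hab with ⟨h1, h2⟩ | ⟨h1, h2⟩
    · exact ⟨by rw [Equiv.Perm.mul_apply, h1, h1], by rw [Equiv.Perm.mul_apply, h2, h2]⟩
    · exact ⟨by rw [Equiv.Perm.mul_apply, h1, h2], by rw [Equiv.Perm.mul_apply, h2, h1]⟩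
  obtain ⟨u, hu⟩ := Nat.coprime_two_right.1 hco
  have hpow : g ^ ((Subgroup.zpowers (Equiv.swap a b)).subgroupOf G₀).index ∈
      Subgroup.zpowers (Equiv.swap a b) := by
    have h1 := Subgroup.pow_index_mem ((Subgroup.zpowers (Equiv.swap a b)).subgroupOf G₀)
      (⟨g, hgm⟩ : G₀)
    exact Subgroup.mem_subgroupOf.1 h1
  rw [hu] at hpow
  have hodd : (g ^ 2) ^ (2 * u + 1) = 1 := by
    rw [← pow_mul, mul_comm 2, pow_mul]
    rcases SRed_mem hpow with h | h
    · rw [h, one_pow]
    · rw [h, pow_two, Equiv.swap_mul_self]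
  refine ⟨a, b, g ^ 2, hab, hfix.1, hfix.2, ?_, ?_⟩
  · exact Odd.of_dvd_nat ⟨u, rfl⟩ (orderOf_dvd_of_pow_eq_one hodd)
  · apply le_antisymm
    · rw [← hg]
      refine sup_le ?_ ?_
      · rw [Subgroup.zpowers_le]
        exact Subgroup.subset_closure (by simp)
      · rw [Subgroup.zpowers_le]
        have h1 : g ^ (2 * u + 1) * ((g ^ 2) ^ u)⁻¹ = g := by
          rw [← pow_mul, pow_succ', mul_assoc, mul_inv_cancel, mul_one]
        have h2 : g ^ (2 * u + 1) * ((g ^ 2) ^ u)⁻¹ ∈
            Subgroup.closure {Equiv.swap a b, g ^ 2} := by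
          refine Subgroup.mul_mem _ ?_ (Subgroup.inv_mem _ (Subgroup.pow_mem _
            (Subgroup.subset_closure (by simp)) _))
          rcases SRed_mem hpow with h | h
          · rw [h]
            exact Subgroup.one_mem _
          · rw [h]
            exact Subgroup.subset_closure (by simp)
        exact (congrArg (fun y => y ∈ Subgroup.closure {Equiv.swap a b, g ^ 2}) h1).mp h2
    · rw [Subgroup.closure_le]
      intro x hx
      rcases hx with rfl | hx
      · exact htm
      · rw [Set.mem_singleton_iff.1 hx]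
        exact Subgroup.pow_mem _ hgm 2

end MP7b0bad.SnT
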